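import Pool.Agent.Helper97_WHC.Stmt

/-!
# Squad WHC (MP_eadad4_nt), block B: an orthonormal basis of eigenforms

`T_k f = fun x => ∑ᶠ y, k x y * f y`.
-/

set_option autoImplicit false

open scoped BigOperators

namespace Pool.Agent.WHC

open Pool.Agent.DEN Pool.Agent.TMP Pool.Agent.WHT

section
variable {r : ℕ} {C : Matrix (Fin r) (Fin r) ℤ} {K : Type} [Field K]

/-- The Hecke operator with kernel `k`. -/
noncomputable def Tk (k : XX C K → XX C K → ℂ) (f : XX C K → ℂ) : XX C K → ℂ :=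
  fun x => ∑ᶠ y, k x y * f y

end

/-- PRC: the Hecke operators preserve the cusp forms.
PROOF.  Invariance under `Γ(N)`: `k (γ x) y = k x (γ⁻¹ y)`, substitute.  Constant terms: let `V`, `γ`, `x` be as in
`IsCusp`, with `V x` finite.  For every `z` the orbit `V z` is finite: `Stab(x) ∩ Stab(z)` has finite index in `Stab(x)`
(the orbits of `g K g⁻¹` on `X = G / K` are finite: `hKfin`, see `Helper43_TMP/Kfin.lean`), so it meets `V` in a subgroup of
finite index of `V ∩ Stab(x)`, which has finite index in `V`.  Now `(T_k f)(γ y) = ∑_z k y z f(γ z)` and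
`∑_{y ∈ V x} (T_k f)(γ y) = ∑_z a(z) f(γ z)` with `a(z) = ∑_{y ∈ V x} k y z`, of finite support (`hKer` (1) and
`IsKer.fin`) and invariant under `V`; by `IsCusp` for `f` (point `z`) the sum over each `V`-orbit is `0`. -/
def PrcStmt : Prop :=
  ∀ (r : ℕ) (C : Matrix (Fin r) (Fin r) ℤ) (_ : SimplyLaced C) (K : Type) [Field K] [Finite K]
    (N : Polynomial K) (k : XX C K → XX C K → ℂ), IsKer k → ∀ f : XX C K → ℂ, IsCusp N f →
    IsCusp N (Tk k f)

/-- ADK: the adjoint (from `H6.kop_adj`, `H6.cusp_PV`, `hKhk` (1): `k x y = κ(x⁻¹ y)`, `star κ` is the function of `kst k`;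
`petersson` is `H6.pet (cong C K 1 N)` by definition), composition and linearity (`finsum` of finite support). -/
def AdkStmt : Prop :=
  ∀ (r : ℕ) (C : Matrix (Fin r) (Fin r) ℤ) (_ : SimplyLaced C) (K : Type) [Field K] [Finite K]
    (N : Polynomial K) (_ : N ≠ 0) (k : XX C K → XX C K → ℂ), IsKer k →
    (∀ f g : XX C K → ℂ, IsCusp N f → IsCusp N g →
      petersson N (Tk k f) g = petersson N f (Tk (kst k) g)) ∧
    (∀ k' : XX C K → XX C K → ℂ, IsKer k' → ∀ f, Tk k (Tk k' f) = Tk (kmul k k') f) ∧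
    (∀ f g : XX C K → ℂ, Tk k (f + g) = Tk k f + Tk k g) ∧
    (∀ (c : ℂ) (f : XX C K → ℂ), Tk k (c • f) = c • Tk k f) ∧
    (∀ k' : XX C K → XX C K → ℂ, IsKer k' → ∀ f, Tk (k + k') f = Tk k f + Tk k' f) ∧
    ∀ (c : ℂ) (f : XX C K → ℂ), Tk (c • k) f = c • Tk k f

/-- JEB: commuting normal operators on a finite dimensional Hilbert space have an orthonormal basis of joint
eigenvectors.  PROOF.  Mathlib: `Mathlib/Analysis/InnerProductSpace/JointEigenspace.lean`
(`LinearMap.IsSymmetric.directSum_isInternal_of_pairwise_commute`, or `iSup_iInf_eq_top_of_commute`) for the hermitian ones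
(`S` is closed under adjoints, sums and multiples, so the hermitian elements of `S` span it: `T = (T + T*)/2 + i (T - T*)/(2i)`).
Induction on the dimension, or: only finitely many joint eigenspaces are nonzero; take an orthonormal basis of each
(`DirectSum.IsInternal.subordinateOrthonormalBasis`). -/
def JebStmt : Prop :=
  ∀ (V : Type) [NormedAddCommGroup V] [InnerProductSpace ℂ V] [FiniteDimensional ℂ V]
    (S : Set (V →ₗ[ℂ] V)), (∀ T ∈ S, ∀ T' ∈ S, T * T' = T' * T ∧ T + T' ∈ S) →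
    (∀ (c : ℂ), ∀ T ∈ S, c • T ∈ S) →
    (∀ T ∈ S, ∃ T' ∈ S, ∀ v w : V, inner ℂ (T v) w = inner ℂ v (T' w)) →
    ∃ (n : ℕ) (b : OrthonormalBasis (Fin n) ℂ V), ∀ T ∈ S, ∀ j, ∃ lam : ℂ, T (b j) = lam • b j

/-- EIB: an orthonormal basis of eigenforms (from PRC, ADK, JEB).
PROOF.  `V` the space of the cusp forms, with the inner product `petersson N` (`InnerProductSpace.ofCore`; `H6.pet_self`,
`H6.cusp_PV`, `H6.nsq`, `H6.pet_conj`), `S` the set of the operators `T_k`; the kernels commute (`H39.kmul_comm` in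
`Helper39_WHC/KAP.lean`).  An eigenvector of all the `T_k` satisfies `EigAllInf`: `hKhk` (4), (1). -/
def EibStmt : Prop :=
  ∀ (r : ℕ) (C : Matrix (Fin r) (Fin r) ℤ) (_ : SimplyLaced C) (K : Type) [Field K] [Finite K]
    (N : Polynomial K) (_ : N ≠ 0), Module.Finite ℂ (Submodule.span ℂ {f : XX C K → ℂ | IsCusp N f}) →
    (∀ f ∈ Submodule.span ℂ {f : XX C K → ℂ | IsCusp N f}, IsCusp N f) →
    ∃ (n : ℕ) (f : Fin n → XX C K → ℂ), ONC N f ∧ (∀ j, DEN.TMP.EigAllInf (f j)) ∧
      ∀ g : XX C K → ℂ, IsCusp N g → g ∈ Submodule.span ℂ (Set.range f)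

end Pool.Agent.WHC
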