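import Pool.Agent.Helper97_WHC.Dex
import Pool.Agent.Helper97_WHC.StmtB
import Pool.Agent.Helper6_WHC.WEY
import Pool.Agent.Helper56_WHC.ALG
import Pool.Agent.Helper56_WHC.GDC
import Pool.Agent.Helper49_WHC.VOL
import Pool.Agent.Helper10_WHC.REL
import Pool.Agent.Helper62_WHC.CMP
import Pool.Agent.Helper83_WHC.WAL
import Pool.Agent.Helper63_WHC.NRM
import Pool.Agent.Helper13_WHC.TRI
import Pool.Agent.Helper39_WHC.KAP
import Pool.Agent.Helper59_WHC.CSF
import Pool.Agent.Helper97_WHC.GRM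
import Pool.Agent.Helper45_WHC.ABS
import Pool.Agent.Helper63_WHT.SIE
import Pool.Agent.Helper83_WHT.GENX
import Pool.Agent.Helper83_WHT.UNF
import Pool.Agent.Helper24_WHT.HEC
import Pool.Agent.Helper94_WHT.BSL
import Pool.Agent.Helper97_WHT.MEA
import Pool.Agent.Helper29_WHT.CHX
import Pool.Agent.Helper15_WHT.CHRP
import Pool.Agent.Helper2_WHT.LOWA
import Pool.Agent.Helper38_WHT.LOWB

/-!
# Squads WHT, WHC: the modules together
-/

set_option autoImplicit false

open scoped BigOperators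

namespace Pool.Agent.WHC.H97

open Pool.Agent.DEN Pool.Agent.TMP Pool.Agent.TMP.H27 Pool.Agent.WHC Pool.Agent.WHT

theorem hSie : SieStmt := WHT.H63.sie
theorem hGenx : GenxStmt := WHT.H83.genx
theorem hUnf : UnfStmt := WHT.H83.unf hSie
theorem hHec : HecStmt := WHT.H24.hec hGenx
theorem hBsl : BslStmt := WHT.H94.bsl hUnf
theorem hMea : MeaStmt := WHT.H97.mea hUnf hHec hGenx
theorem hChx : ChxStmt := WHT.H29.chx hGenx
theorem hChrp : ChrpStmt := WHT.H15.chrp
theorem hLowa : LowaStmt := WHT.H2.lowa hChrp hSie hUnf hChx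
theorem hLowb : LowbStmt := WHT.H38.lowb hLowa hUnf hChx
theorem hWey : WeyStmt := WHC.H6.wey
theorem hGdc : GdcStmt := WHC.H56.gdc hGenx
theorem hVol : VolStmt := WHC.H49.volS
theorem hRel : RelStmt := WHC.H10.rel
theorem hCmp : CmpStmt := WHC.H62.cmp
theorem hWal : WalStmt := WHC.H83.wal
theorem hNrm : WHC.NrmStmt := WHC.H63.nrm
theorem hTri : TriStmt := WHC.H13.tri hNrm hGdc
theorem hKap : KapStmt := WHC.H39.kap hCmp hTri hGdc hWal hRel
theorem hAbs : AbsStmt := WHC.H45.abs hWey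
theorem hGrm : GrmStmt := WHC.H97.grm hWey hAbs
theorem hAlg : AlgStmt := WHC.H56.alg hWey hGrm
theorem hCsf : CsfStmt := WHC.H59.csf hKap hAlg hWey hGdc hVol hBsl

theorem two_rho_unique {r₀ : ℕ} {C₀ : Matrix (Fin r₀) (Fin r₀) ℤ} (hC : SimplyLaced C₀)
    {x y : Fin r₀ → ℤ}
    (h : ∀ i, ip C₀ (al i) x = ip C₀ (al i) y) : x = y := by
  have h1 : ∀ i, ip C₀ (al i) (x - y) = 0 := fun i => by rw [ip_sub_right, h i, sub_self]
  have h2 : ip C₀ (x - y) (x - y) = 0 := by
    rw [ip_expand]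
    exact Finset.sum_eq_zero fun j _ => by rw [h1 j, mul_zero]
  by_contra hne
  have h3 : (fun i => (((x - y) i : ℤ) : ℝ)) ≠ 0 := by
    intro h0
    apply hne
    rw [← sub_eq_zero]
    ext i
    have h6 : (((x - y) i : ℤ) : ℝ) = 0 := congrFun h0 i
    exact_mod_cast h6
  have h4 := hC.pos _ h3
  have h5 : (∑ i, ∑ j, (((x - y) i : ℤ) : ℝ) * (C₀ i j : ℝ) * (((x - y) j : ℤ) : ℝ)) =
      ((ip C₀ (x - y) (x - y) : ℤ) : ℝ) := by
    unfold ip
    push_cast
    rfl
  rw [h5, h2] at h4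
  simp at h4

/-- the sum over a subfamily -/
theorem sub_sum {n : ℕ} (p : Fin n → Prop) (F : Fin n → ℝ) :
    ∃ (k : ℕ) (e : Fin k → Fin n), Function.Injective e ∧ (∀ i, p (e i)) ∧
      ∑ᶠ j ∈ {j | p j}, F j = ∑ i, F (e i) := by
  classical
  set T : Finset (Fin n) := Finset.univ.filter p with hT
  have hTs : {j : Fin n | p j} = (T : Set (Fin n)) := by
    ext j
    simp [hT]
  refine ⟨T.card, fun i => (T.equivFin.symm i).1, ?_, ?_, ?_⟩
  · intro a b hab
    exact T.equivFin.symm.injective (Subtype.ext hab)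
  · intro i
    exact (Finset.mem_filter.1 (T.equivFin.symm i).2).2
  · rw [hTs, finsum_mem_coe_finset, ← Finset.sum_coe_sort T, ← Equiv.sum_comp T.equivFin.symm]

/-- The theorem. -/
theorem main (hCnx : CnxStmt) (hEib : EibStmt) (hTur : TurStmt) {r : ℕ}
    (C : Matrix (Fin r) (Fin r) ℤ) (hC : SimplyLaced C) :
    ∃ A b B : ℕ, ∀ (K : Type) [Field K] [Finite K] (N : Polynomial K), 0 < N.natDegree →
      (∃ (n : ℕ) (f : Fin n → Pub.X C K → ℂ) (s : Fin n → (Fin r → ℤ) → ℂ),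
        Pub.IsEigenfamily N f s ∧
          ∀ g, Pub.IsCusp N g → g ∈ Submodule.span ℂ (Set.range f)) ∧
      ∀ (n : ℕ) (f : Fin n → Pub.X C K → ℂ) (s : Fin n → (Fin r → ℤ) → ℂ),
        Pub.IsEigenfamily N f s →
        (∀ (χ : Pub.G C K → ℂ) (c : Fin r → ℤ), Pub.IsUChar N χ → Pub.IsCond χ c →
          ∀ m : Fin r → ℤ,
            (∀ i, 0 ≤ ip C (Pi.single i 1) m ∧ ip C (Pi.single i 1) m ≤ c i) →
            0 < Pub.hvol C N m ∧
            ∑ j, ‖Pub.whit N χ m (f j)‖ ^ 2 ≤ Pub.hvol C N m ∧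
            (∀ D : ℕ, (∀ i, (D : ℤ) ≤ ip C (Pi.single i 1) m ∧
                ip C (Pi.single i 1) m + D ≤ c i) →
              D * ∑ᶠ j ∈ {j | ∃ l, ‖s j l‖ ≠ 1}, ‖Pub.whit N χ m (f j)‖ ^ 2 ≤
                A * Pub.hvol C N m) ∧
            ((∃ M : Fin r → ℤ, ∀ i, ip C (Pi.single i 1) M = c i) → ∀ E : ℕ,
              (∀ i, ip C (Pi.single i 1) m + b ≤ c i ∧ c i ≤ ip C (Pi.single i 1) m + E) →
              (∀ l : Fin r → ℤ, (∀ i, (B * (E + 1) : ℤ) ≤ ip C (Pi.single i 1) l ∧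
                  ip C (Pi.single i 1) l + B * (E + 1) ≤ c i) →
                ∑ j, ‖∑ᶠ l' ∈ Pub.weylOrbit C l, s j l'‖ ^ 2 * ‖Pub.whit N χ m (f j)‖ ^ 2 ≤
                  A * Pub.hvol C N m) ∧
              ∀ lam : Fin r → ℤ, (∀ i, ip C (Pi.single i 1) lam = 2) → ∀ (x : ℝ) (k : ℕ),
                0 ≤ x → 0 < k → (∀ i, (B * (E + 1) : ℤ) ≤ 2 * k ∧ 2 * k + B * (E + 1) ≤ c i) →
                ∑ᶠ j ∈ {j | ∃ l ∈ Pub.weylOrbit C lam, (Nat.card K : ℝ) ^ x ≤ ‖s j l‖},
                    ‖Pub.whit N χ m (f j)‖ ^ 2 ≤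
                  A * (k : ℝ) ^ B * (Nat.card K : ℝ) ^ (-(2 * x * k)) * Pub.hvol C N m)) ∧
        ∀ P₀ : Polynomial K, Irreducible P₀ → P₀ ^ 4 ∣ N → ∀ e : AddChar K ℂ, e ≠ 1 →
          ∃ χ : Pub.G C K → ℂ, Pub.IsUChar N χ ∧ Pub.IsStd e P₀ N χ ∧
            Pub.IsCond χ (fun _ => (N.natDegree : ℤ) - P₀.natDegree - 2) ∧
            ((∀ g, Pub.IsCusp N g → g ∈ Submodule.span ℂ (Set.range f)) →
              ∀ m : Fin r → ℤ, (∀ i, 0 ≤ ip C (Pi.single i 1) m ∧
                ip C (Pi.single i 1) m ≤ (N.natDegree : ℤ) - P₀.natDegree - 2) →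
              Pub.hvol C N m ≤ (Nat.card K : ℝ) ^ (2 * P₀.natDegree * Pub.dimG C ^ 2) *
                ∑ j, ‖Pub.whit N χ m (f j)‖ ^ 2) := by
  obtain ⟨A₁, b₁, B₁, hcs⟩ := csf_pub hCsf hWey r C hC
  obtain ⟨A₂, htm⟩ := tm_pub hMea hGenx hBsl r C hC
  obtain ⟨A₃, b₃, B₃, hdx⟩ := dex_pub hCsf hWey hTur r C hC
  refine ⟨A₁ + A₂ + A₃, b₁ + b₃, B₁ + B₃, fun K _ _ N hN => ?_⟩
  have hN0 : N ≠ 0 := by
    rintro rfl
    simp at hN
  refine ⟨?_, fun n f s hf => ⟨fun χ c hχ hc m hm => ?_, fun P₀ hP₀ hPN e he => ?_⟩⟩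
  · obtain ⟨h1, h2, -⟩ := H222.hFdm r C hC K N hN0
    obtain ⟨n, f, hf, he, hsp⟩ := hEib r C hC K N hN0 h2 fun f hf => (h1 f).1 hf
    have hex : ∀ j, ∃ s, Pub.IsSatake (C := C) (K := K) (f j) s := fun j => by
      have hp : petersson N (f j) (f j) = 1 := by
        have := hf.2 j j
        rwa [if_pos rfl] at this
      exact satake_exists hC hN0 (hf.1 j) hp (he j)
    choose s hs using hex
    exact ⟨n, f, s, ⟨hf.1, hf.2, hs⟩, hsp⟩
  · have hχ' : IsChi N χ := isChi_of hC hχ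
    have hc' : Cond hC χ c := (cond_iff hC χ c).1 hc
    have hf' : ONC N f := ⟨hf.cusp, hf.ortho⟩
    have hgU : GoodU hC χ m := ((hGdc r C hC K N χ hχ' c hc').1 m).2 fun i => (hm i).2
    have hg : WHT.Good hC χ m := ((hGdc r C hC K N χ hχ' c hc').2 m).2
      ⟨fun i => (hm i).1, fun i => (hm i).2⟩
    have hw : ∀ g : XX C K → ℂ, Pub.whit (C := C) (K := K) N χ m g = wh hC N χ m g :=
      fun g => whit_eq hC hχ' hgU g
    have hv : Pub.hvol C N m = vol hC N m := hvol_eq hC N m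
    have hvp : 0 < vol hC N m := (hUnf r C hC K N hN χ hχ' m hg).1
    have hb := hBsl r C hC K N hN χ hχ' m hg n f hf'
    have hw' : ∀ j, ‖Pub.whit (C := C) (K := K) N χ m (f j)‖ ^ 2 = ‖wh hC N χ m (f j)‖ ^ 2 :=
      fun j => by rw [hw (f j)]
    have hsub : ∀ (k : ℕ) (e : Fin k → Fin n), Function.Injective e →
        ONC N (fun i => f (e i)) := fun k e he => by
      refine ⟨fun i => hf.cusp _, fun i j => ?_⟩
      refine (hf.ortho _ _).trans ?_
      have h2 : (e i = e j) = (i = j) := propext ⟨fun h => he h, fun h => by rw [h]⟩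
      simp only [h2]
    rw [hv]
    refine ⟨hvp, ?_, ?_, ?_⟩
    · refine le_trans (le_of_eq ?_) hb
      exact Finset.sum_congr rfl fun j _ => hw' j
    · intro D hD
      obtain ⟨k, e, he1, he2, he3⟩ := sub_sum (fun j => ∃ l, ‖s j l‖ ≠ 1)
        (fun j => ‖Pub.whit (C := C) (K := K) N χ m (f j)‖ ^ 2)
      rw [he3]
      refine le_trans (le_of_eq ?_) ((htm K N hN χ hχ' c hc' k (fun i => f (e i)) (hsub k e he1)
        (fun i => s (e i)) (fun i => hf.satake _) m D hD he2).trans ?_)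
      · congr 1
        exact Finset.sum_congr rfl fun i _ => hw' _
      · refine mul_le_mul_of_nonneg_right ?_ hvp.le
        push_cast
        linarith [Nat.cast_nonneg (α := ℝ) A₁, Nat.cast_nonneg (α := ℝ) A₃]
    · rintro ⟨M, hM⟩ E hE
      refine ⟨fun l hl => ?_, fun lam hlam x k hx hk hkB => ?_⟩
      · have h1 := hcs K N hN χ hχ' c hc' n f hf' s hf.satake M hM m E (fun i => (hm i).1)
          (fun i => by
            have h2 : ip C (al i) m + ((b₁ + b₃ : ℕ) : ℤ) ≤ c i := (hE i).1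
            have h3 : c i ≤ ip C (al i) m + E := (hE i).2
            push_cast at h2
            have h4 : (0 : ℤ) ≤ b₃ := Int.natCast_nonneg _
            constructor <;> linarith) l (fun i => by
            have h2 : (((B₁ + B₃ : ℕ) : ℤ) * (E + 1) : ℤ) ≤ ip C (al i) l := (hl i).1
            have h3 : ip C (al i) l + ((B₁ + B₃ : ℕ) : ℤ) * (E + 1) ≤ c i := (hl i).2
            push_cast at h2 h3
            have h4 : (0 : ℤ) ≤ B₃ * (E + 1) := by positivity
            constructor <;> linarith)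
        refine le_trans (le_of_eq ?_) (h1.trans ?_)
        · exact Finset.sum_congr rfl fun j _ => by rw [hw' j]
        · refine mul_le_mul_of_nonneg_right ?_ hvp.le
          push_cast
          linarith [Nat.cast_nonneg (α := ℝ) A₂, Nat.cast_nonneg (α := ℝ) A₃]
      · have hl : lam = tr C := two_rho_unique hC fun i => (hlam i).trans ((hWey r C hC).2.1 i).symm
        subst hl
        obtain ⟨k', e, he1, he2, he3⟩ := sub_sum
          (fun j => ∃ l ∈ Pub.weylOrbit C (tr C), (Nat.card K : ℝ) ^ x ≤ ‖s j l‖)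
          (fun j => ‖Pub.whit (C := C) (K := K) N χ m (f j)‖ ^ 2)
        rw [he3]
        refine le_trans (le_of_eq ?_) ((hdx K N hN χ hχ' c hc' k' (fun i => f (e i))
          (hsub k' e he1) (fun i => s (e i)) (fun i => hf.satake _) M hM m E (fun i => (hm i).1)
          (fun i => by
            have h2 : ip C (al i) m + ((b₁ + b₃ : ℕ) : ℤ) ≤ c i := (hE i).1
            have h3 : c i ≤ ip C (al i) m + E := (hE i).2
            push_cast at h2
            have h4 : (0 : ℤ) ≤ b₁ := Int.natCast_nonneg _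
            constructor <;> linarith) hvp x k hx hk (fun i => by
            have h2 := (hkB i).1
            have h3 := (hkB i).2
            push_cast at h2 h3
            have h4 : (0 : ℤ) ≤ B₁ * (E + 1) := by positivity
            constructor <;> linarith) he2).trans ?_)
        · exact Finset.sum_congr rfl fun i _ => hw' _
        · have hk1 : (1 : ℝ) ≤ k := by exact_mod_cast hk
          refine mul_le_mul_of_nonneg_right ?_ hvp.le
          refine mul_le_mul_of_nonneg_right ?_ (by positivity)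
          refine mul_le_mul ?_ (pow_le_pow_right₀ hk1 (by omega)) (by positivity) (by positivity)
          push_cast
          linarith [Nat.cast_nonneg (α := ℝ) A₂, Nat.cast_nonneg (α := ℝ) A₁]
  · obtain ⟨hx1, hx2, -, hx4⟩ := hChx r C hC K e N hN0 (fun _ => P₀)
    have hcd := hCnx r C hC K e he N P₀ hN0 hP₀.ne_zero
    refine ⟨chi hC e N (fun _ => P₀), isUChar_of hC hx1, ?_, (cond_iff hC _ _).2 hcd, ?_⟩
    · intro i a u hu
      have h1 := simpleRoot_eq hC hu
      subst h1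
      exact hx2 i a
    · intro hsp m hm
      have hgU : GoodU hC (chi hC e N (fun _ => P₀)) m :=
        ((hGdc r C hC K N _ hx1 _ hcd).1 m).2 fun i => (hm i).2
      have hw : ∀ g : XX C K → ℂ, Pub.whit (C := C) (K := K) N (chi hC e N (fun _ => P₀)) m g =
          wh hC N (chi hC e N (fun _ => P₀)) m g := fun g => whit_eq hC hx1 hgU g
      have h1 := hLowb r C hC K P₀ N hP₀.prime hN0 hPN e he m (fun i => (hm i).1)
        (fun i => by
          have h2 : ip C (al i) m ≤ (N.natDegree : ℤ) - P₀.natDegree - 2 := (hm i).2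
          linarith) n f ⟨hf.cusp, hf.ortho⟩ hsp
      have hv : Pub.hvol C N m = vol hC N m := hvol_eq hC N m
      rw [hv]
      refine h1.trans (le_of_eq ?_)
      congr 1
      exact Finset.sum_congr rfl fun j _ => by rw [hw (f j)]

end Pool.Agent.WHC.H97
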