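import Pool.Agent.Helper97_WHC.Stmt
import Pool.Agent.Helper97_WHT.DET

/-!
# Squad WHC: the forms whose Satake parameter is not unitary
-/

set_option autoImplicit false

open scoped BigOperators

namespace Pool.Agent.WHC.H97

open Pool.Agent.DEN Pool.Agent.TMP Pool.Agent.TMP.H27 Pool.Agent.WHC Pool.Agent.WHT

theorem sA_eq {r : ℕ} {C : Matrix (Fin r) (Fin r) ℤ} {K : Type} [Field K] [Finite K]
    (hC : SimplyLaced C) {k : XX C K → XX C K → ℂ} (hk : IsKer k) (l : Fin r → ℤ) :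
    (sA hC k).coeff l = sat hC k l := by
  have h := (hSmu r C hC K).1 k hk
  unfold sA
  rw [dif_pos h]
  rfl

/-- DET in terms of Satake parameters -/
theorem det2 (r : ℕ) (C : Matrix (Fin r) (Fin r) ℤ) (hC : SimplyLaced C) : ∃ c : ℕ, 0 < c ∧
    ∀ (K : Type) [Field K] [Finite K] (n : ℕ), 0 < n →
    ∃ (M : ℕ) (k : Fin M → XX C K → XX C K → ℂ), (∀ i, IsKer (k i)) ∧
      (∀ i, Rad (k i) (c * n)) ∧
      ∑ i, ∑ᶠ l, ‖sat hC (k i) l‖ ^ 2 ≤ c / n ∧
      ∀ ψ : CQ r →ₐ[ℂ] ℂ, (∀ T ∈ invAlg C, ∀ T' : CQ r,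
          (∀ μ, T'.coeff μ = (starRingEnd ℂ) (T.coeff (-μ))) → ψ T' = (starRingEnd ℂ) (ψ T)) →
        (∃ μ, ‖ψ (ex μ)‖ ≠ 1) → ∃ i, 1 ≤ ‖ψ (sA hC (k i))‖ := by
  classical
  obtain ⟨c₀, hc₀⟩ := H29.elim r C hC
  set B : ℕ := ∑ i, ∑ j, (C i j).natAbs with hB
  refine ⟨c₀ + 2 * (B + 1) * c₀ + 1, by omega, ?_⟩
  intro K _ _ n hn
  obtain ⟨L, p, hp1, hp2, hp3⟩ := hc₀ n hn
  have hK := hKer r C hC K
  have hS := hSmu r C hC K
  have hH := hKhk r C hC K
  -- the kernels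
  have hex : ∀ i : Fin L, ∃ k : XX C K → XX C K → ℂ, IsKer k ∧ (∀ l, sat hC k l = (p i).1.coeff l) ∧
      ∀ y, k (oo C K) y ≠ 0 → ∃ g ∈ maxK C K, ∃ l : Fin r → ℤ,
        ip C l l ≤ (B : ℤ) * ((c₀ * n : ℕ) : ℤ) ^ 2 ∧ y = g • tp hC K l := by
    intro i
    have h1 : {l | (p i).1.coeff l ≠ 0}.Finite := by
      have : {l | (p i).1.coeff l ≠ 0} = ((p i).1.coeff.support : Set (Fin r → ℤ)) := by
        ext l; simp
      rw [this]
      exact Finset.finite_toSet _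
    have h2 : ∀ j l, (p i).1.coeff (sf C j l) = (p i).1.coeff l := by
      intro j l
      have := (mem_invAlg hC (p i).1).1 (p i).2 j l
      rw [← this]
      unfold sf
      rw [hC.ip_comm (al j) l]
    refine hSur r C hC K (fun l => (p i).1.coeff l) h1 h2 _ ?_
    intro l hl
    apply ip_le
    intro j
    have := hp1 i l hl j
    push_cast
    exact this
  choose k hk1 hk2 hk3 using hex
  have hsA : ∀ i, sA hC (k i) = (p i).1 := by
    intro i
    ext l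
    rw [sA_eq hC (hk1 i), hk2]
  refine ⟨L, k, hk1, ?_, ?_, ?_⟩
  · intro i
    have hn1 : (1 : ℤ) ≤ n := by exact_mod_cast hn
    have hrad : HeckeInf (fn (k i)) ((c₀ + 2 * (B + 1) * c₀ + 1) * n) := by
      apply hecke_radius TMP.hRad hC (hH.1 _ (hk1 i)).1 _ _ _ (hk3 i)
      have hB0 : (0 : ℤ) ≤ B := Int.natCast_nonneg _
      have hc0 : (0 : ℤ) ≤ c₀ := Int.natCast_nonneg _
      have hx : (0 : ℤ) ≤ ((c₀ : ℤ) * n) ^ 2 := by positivity
      have h1 : 2 * ((B : ℤ) * ((c₀ * n : ℕ) : ℤ) ^ 2) ≤ (2 * ((B : ℤ) + 1) * c₀ * n) ^ 2 := by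
        push_cast
        nlinarith
      have h2 : (2 * ((B : ℤ) + 1) * c₀ * n) ^ 2 ≤
          (((c₀ + 2 * (B + 1) * c₀ + 1) * n : ℕ) : ℤ) ^ 2 := by
        apply pow_le_pow_left₀ (by positivity)
        push_cast
        apply mul_le_mul_of_nonneg_right _ (by positivity)
        linarith
      exact h1.trans h2
    intro g hg
    exact ⟨fun v hv => (hrad.2.2 g hg v hv).1, fun v hv => (hrad.2.2 g hg v hv).2⟩
  · have h3 : ∀ i, ∑ᶠ l, ‖sat hC (k i) l‖ ^ 2 =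
        ∑ μ ∈ (p i).1.coeff.support, ‖(p i).1.coeff μ‖ ^ 2 := by
      intro i
      rw [finsum_eq_sum_of_support_subset (s := (p i).1.coeff.support)]
      · apply Finset.sum_congr rfl
        intro l _
        rw [hk2]
      · intro m hm
        simp only [Function.mem_support, ne_eq] at hm
        rw [Finset.mem_coe, Finsupp.mem_support_iff]
        intro h
        exact hm (by rw [hk2, h]; simp)
    simp only [h3]
    refine hp2.trans ?_
    apply div_le_div_of_nonneg_right _ (Nat.cast_nonneg _)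
    push_cast
    have : (0 : ℝ) ≤ 2 * (B + 1) * c₀ := by positivity
    linarith
  · intro ψ hψ hne
    rcases hp3 (ψ.comp (invAlg C).val) (fun a b hab => hψ a.1 a.2 b.1 hab) with
      ⟨ψ', h1, h2⟩ | ⟨i, hi⟩
    · exfalso
      obtain ⟨g, hg, hg2⟩ := H29.conj_ext hC ψ' ψ (fun a => h1 a)
      obtain ⟨e, _, rfl⟩ := H29.WA_dom hC hg
      obtain ⟨μ, hμ⟩ := hne
      apply hμ
      rw [hg2]
      unfold ex
      rw [AddMonoidAlgebra.domCongr_single]
      exact h2 _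
    · refine ⟨i, ?_⟩
      rw [hsA]
      exact hi

/-- TMW in terms of Satake parameters -/
theorem tm2 (hmea : MeaStmt) (hgen : GenxStmt) (hbsl : BslStmt) (r : ℕ)
    (C : Matrix (Fin r) (Fin r) ℤ) (hC : SimplyLaced C) : ∃ A : ℕ,
    ∀ (K : Type) [Field K] [Finite K] (N : Polynomial K), 0 < N.natDegree →
    ∀ (χ : grp C K → ℂ), IsChi N χ → ∀ (m : Fin r → ℤ) (D : ℕ), Deep hC χ m D →
    ∀ (n : ℕ) (f : Fin n → XX C K → ℂ), ONC N f → ∀ ψ : Fin n → (CQ r →ₐ[ℂ] ℂ),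
    (∀ j, ∀ k : XX C K → XX C K → ℂ, IsKer k →
      ∀ x, ∑ᶠ y, k x y * f j y = ψ j (sA hC k) * f j x) →
    (∀ j, ∀ T ∈ invAlg C, ∀ T' : CQ r, (∀ μ, T'.coeff μ = (starRingEnd ℂ) (T.coeff (-μ))) →
        ψ j T' = (starRingEnd ℂ) (ψ j T)) →
    (∀ j, ∃ μ, ‖ψ j (ex μ)‖ ≠ 1) →
    D * ∑ j, ‖wh hC N χ m (f j)‖ ^ 2 ≤ A * vol hC N m := by
  classical
  obtain ⟨c, hc, hdet⟩ := det2 r C hC
  refine ⟨4 * c * c + 2 * c, fun K _ _ N hN χ hχ m D hD n f hf ψ hψ hher hne => ?_⟩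
  have hgood := WHT.H97.deep_good hgen hC hχ hD
  have hB := hbsl r C hC K N hN χ hχ m hgood n f hf
  have hS0 : 0 ≤ ∑ j, ‖wh hC N χ m (f j)‖ ^ 2 := Finset.sum_nonneg fun j _ => by positivity
  have hV : 0 ≤ vol hC N m := hS0.trans hB
  have hc1 : (1 : ℝ) ≤ c := by exact_mod_cast hc
  rcases Nat.lt_or_ge D (2 * c) with h | h
  · have h1 : (D : ℝ) ≤ 2 * c := by exact_mod_cast h.le
    calc (D : ℝ) * ∑ j, ‖wh hC N χ m (f j)‖ ^ 2 ≤ (2 * c) * vol hC N m :=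
          mul_le_mul h1 hB hS0 (by positivity)
      _ ≤ ((4 * c * c + 2 * c : ℕ) : ℝ) * vol hC N m := by
          apply mul_le_mul_of_nonneg_right _ hV
          push_cast
          nlinarith
  · set d : ℕ := D / (2 * c) with hd
    have hd1 : 1 ≤ d := (Nat.one_le_div_iff (by omega)).2 h
    obtain ⟨M, k, hk1, hk2, hk3, hk4⟩ := hdet K d hd1
    have hle : 2 * (c * d) ≤ D := by
      have := Nat.div_mul_le_self D (2 * c)
      rw [← hd] at this
      calc 2 * (c * d) = d * (2 * c) := by ring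
        _ ≤ D := this
    have hD2 : Deep hC χ m (2 * (c * d)) := by
      intro i
      obtain ⟨h1, h2⟩ := hD i
      have h3 : ((2 * (c * d) : ℕ) : ℤ) ≤ D := by exact_mod_cast hle
      refine ⟨h3.trans h1, fun a ha => h2 a ?_⟩
      exact (H22.hF1 K).2.2.2.2.1 _ _ _ (by linarith) ha
    have hm : ∀ i, ∑ j, ‖ψ j (sA hC (k i))‖ ^ 2 * ‖wh hC N χ m (f j)‖ ^ 2 ≤
        (∑ᶠ l, ‖sat hC (k i) l‖ ^ 2) * vol hC N m := fun i =>
      hmea r C hC K N hN χ hχ m (c * d) hD2 n f hf (k i) (hk1 i) (hk2 i)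
        (fun j => ψ j (sA hC (k i))) (fun j x => hψ j (k i) (hk1 i) x)
    have h1 : ∑ j, ‖wh hC N χ m (f j)‖ ^ 2 ≤
        ∑ i, ∑ j, ‖ψ j (sA hC (k i))‖ ^ 2 * ‖wh hC N χ m (f j)‖ ^ 2 := by
      rw [Finset.sum_comm]
      refine Finset.sum_le_sum fun j _ => ?_
      obtain ⟨i, hi⟩ := hk4 (ψ j) (hher j) (hne j)
      rw [← Finset.sum_mul]
      have h2 : 1 ≤ ∑ i, ‖ψ j (sA hC (k i))‖ ^ 2 := by
        calc (1 : ℝ) ≤ ‖ψ j (sA hC (k i))‖ ^ 2 := one_le_pow₀ hi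
          _ ≤ ∑ i, ‖ψ j (sA hC (k i))‖ ^ 2 :=
            Finset.single_le_sum (f := fun i => ‖ψ j (sA hC (k i))‖ ^ 2)
              (fun i _ => by positivity) (Finset.mem_univ i)
      exact le_mul_of_one_le_left (by positivity) h2
    have h2 : ∑ j, ‖wh hC N χ m (f j)‖ ^ 2 ≤ (c / d : ℝ) * vol hC N m := by
      refine h1.trans ((Finset.sum_le_sum fun i _ => hm i).trans ?_)
      rw [← Finset.sum_mul]
      exact mul_le_mul_of_nonneg_right hk3 hV
    have hd0 : (0 : ℝ) < d := by exact_mod_cast hd1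
    have h3 : (D : ℝ) ≤ 4 * c * d := by
      have h4 : D < (d + 1) * (2 * c) := by
        rw [hd]
        have h7 := Nat.lt_div_mul_add (a := D) (b := 2 * c) (by omega)
        have h8 : (D / (2 * c) + 1) * (2 * c) = D / (2 * c) * (2 * c) + 2 * c := by ring
        omega
      have h5 : (D : ℝ) < (d + 1) * (2 * c) := by exact_mod_cast h4
      have h6 : (1 : ℝ) ≤ d := by exact_mod_cast hd1
      nlinarith
    calc (D : ℝ) * ∑ j, ‖wh hC N χ m (f j)‖ ^ 2 ≤ (4 * c * d) * ((c / d : ℝ) * vol hC N m) :=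
          mul_le_mul h3 h2 hS0 (by positivity)
      _ = 4 * c * c * vol hC N m := by
          field_simp
      _ ≤ ((4 * c * c + 2 * c : ℕ) : ℝ) * vol hC N m := by
          apply mul_le_mul_of_nonneg_right _ hV
          push_cast
          nlinarith

end Pool.Agent.WHC.H97
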