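import Pool.Agent.Helper97_WHC.Pub4
import Pool.Agent.Helper97_WHC.TM2
import Pool.Agent.Helper6_WHC.WEY
import Pool.Agent.Helper13_WHC.SPE

/-!
# Squad WHC: from the public definitions to the working definitions
-/

set_option autoImplicit false

open scoped BigOperators

namespace Pool.Agent.WHC.H97

open Pool.Agent.DEN Pool.Agent.TMP Pool.Agent.TMP.H27 Pool.Agent.WHC Pool.Agent.WHT

section
variable {r : ℕ} {C : Matrix (Fin r) (Fin r) ℤ} {K : Type} [Field K]

theorem isTorus_tg (hC : SimplyLaced C) (m : Fin r → ℤ) :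
    Pub.IsTorus (C := C) (K := K) m (tg hC K m) := (H22.isTor_exists (K := K) hC m).choose_spec

theorem isTorus_eq (hC : SimplyLaced C) {m : Fin r → ℤ} {g : grp C K}
    (h : Pub.IsTorus (C := C) (K := K) m g) : g = tg hC K m :=
  tor_unique (l := m) h (isTorus_tg hC m)

theorem horo_eq (hC : SimplyLaced C) (m : Fin r → ℤ) :
    (Pub.horo m : Set (Pub.X C K)) = Hor hC K m := by
  ext y
  constructor
  · rintro ⟨u, hu, g, hg, hy⟩
    have h1 := isTorus_eq hC hg
    subst h1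
    exact ⟨u, hu, hy⟩
  · rintro ⟨u, hu, hy⟩
    exact ⟨u, hu, tg hC K m, isTorus_tg hC m, hy⟩

theorem wfun_pos {χ : Pub.G C K → ℂ} {m : Fin r → ℤ} {x : Pub.X C K}
    (h : ∃ u ∈ Pub.unip C K, ∃ g : Pub.G C K, Pub.IsTorus m g ∧ x = Pub.vtx (u * g)) :
    Pub.wfun χ m x = χ h.choose := by
  unfold Pub.wfun
  rw [dif_pos h]

theorem wfun_neg {χ : Pub.G C K → ℂ} {m : Fin r → ℤ} {x : Pub.X C K}
    (h : ¬ ∃ u ∈ Pub.unip C K, ∃ g : Pub.G C K, Pub.IsTorus m g ∧ x = Pub.vtx (u * g)) :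
    Pub.wfun χ m x = 0 := by
  unfold Pub.wfun
  rw [dif_neg h]

theorem wfun_eq (hC : SimplyLaced C) {N : Polynomial K} {χ : grp C K → ℂ} (hχ : IsChi N χ)
    {m : Fin r → ℤ} (hm : GoodU hC χ m) (x : XX C K) :
    Pub.wfun (C := C) (K := K) χ m x = wf hC χ m x := by
  unfold wf
  by_cases h : ∃ u ∈ Ug C K, x = u • tp hC K m
  · have h' : ∃ u ∈ Pub.unip C K, ∃ g : Pub.G C K, Pub.IsTorus m g ∧
        x = Pub.vtx (u * g) := by
      obtain ⟨u, hu, hx⟩ := h
      exact ⟨u, hu, tg hC K m, isTorus_tg hC m, hx⟩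
    rw [dif_pos h]
    refine (wfun_pos h').trans ?_
    obtain ⟨hu1, g, hg, hx1⟩ := h'.choose_spec
    obtain ⟨hu2, hx2⟩ := h.choose_spec
    set u1 : grp C K := h'.choose with hu1d
    set u2 : grp C K := h.choose with hu2d
    have hg1 := isTorus_eq hC hg
    have hx3 : x = u1 • tp hC K m := by
      rw [hx1, hg1]
      rfl
    have hu1' : u1 ∈ Ug C K := hu1
    have hu2' : u2 ∈ Ug C K := hu2
    have h3 : (u2⁻¹ * u1) • tp hC K m = tp hC K m := by
      rw [mul_smul, ← hx3, hx2, inv_smul_smul]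
    have h4 := hm (u2⁻¹ * u1) (mul_mem (inv_mem hu2') hu1') h3
    have h5 := hχ.mul u2 hu2' (u2⁻¹ * u1) (mul_mem (inv_mem hu2') hu1')
    rw [mul_inv_cancel_left, h4, mul_one] at h5
    exact h5
  · have h' : ¬ ∃ u ∈ Pub.unip C K, ∃ g : Pub.G C K, Pub.IsTorus m g ∧
        x = Pub.vtx (u * g) := by
      rintro ⟨u, hu, g, hg, hx⟩
      have hg1 := isTorus_eq hC hg
      exact h ⟨u, hu, by rw [hx, hg1]; rfl⟩
    rw [dif_neg h]
    exact wfun_neg h'

theorem whit_eq (hC : SimplyLaced C) {N : Polynomial K} {χ : grp C K → ℂ} (hχ : IsChi N χ)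
    {m : Fin r → ℤ} (hm : GoodU hC χ m) (f : XX C K → ℂ) :
    Pub.whit (C := C) (K := K) N χ m f = wh hC N χ m f := by
  have h : (fun x : XX C K => Pub.wfun (C := C) (K := K) χ m x) = wf hC χ m :=
    funext fun x => wfun_eq hC hχ hm x
  unfold wh H6.pet
  rw [← h]
  rfl

open Classical in
theorem hvol_eq (hC : SimplyLaced C) (N : Polynomial K) (m : Fin r → ℤ) :
    Pub.hvol C N m = vol hC N m :=
  congrArg (fun S : Set (XX C K) => ∑ᶠ o : MulAction.orbitRel.Quotient (U0 C N) (XX C K),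
    (if o.out ∈ S then (1 : ℝ) else 0) / Nat.card (MulAction.stabilizer (U0 C N) o.out))
    (horo_eq (K := K) hC m)

theorem isChi_of (hC : SimplyLaced C) {N : Polynomial K} {χ : grp C K → ℂ}
    (h : Pub.IsUChar (C := C) (K := K) N χ) : IsChi N χ :=
  ⟨h.mul, h.norm_one, h.triv⟩

theorem isUChar_of (hC : SimplyLaced C) {N : Polynomial K} {χ : grp C K → ℂ}
    (h : IsChi N χ) : Pub.IsUChar (C := C) (K := K) N χ :=
  ⟨h.mul, h.norm_one, h.lev⟩

theorem simpleRoot_xi (hC : SimplyLaced C) (i : Fin r) (a : FF K) :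
    Pub.IsSimpleRoot (C := C) (K := K) i a (xi hC i a) := by
  intro β hβ v
  have h1 : β = hC.sr i := Subtype.ext hβ
  subst h1
  rfl

theorem simpleRoot_eq (hC : SimplyLaced C) {i : Fin r} {a : FF K} {u : grp C K}
    (h : Pub.IsSimpleRoot (C := C) (K := K) i a u) : u = xi hC i a := by
  apply grp_ext
  intro v
  exact (h (hC.sr i) rfl v).trans (simpleRoot_xi hC i a (hC.sr i) rfl v).symm

theorem cond_iff (hC : SimplyLaced C) (χ : grp C K → ℂ) (c : Fin r → ℤ) :
    Pub.IsCond (C := C) (K := K) χ c ↔ Cond hC χ c := by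
  constructor
  · intro h i
    refine ⟨fun a ha => (h i).1 a ha _ (simpleRoot_xi hC i a), ?_⟩
    obtain ⟨a, ha, u, hu, hne⟩ := (h i).2
    have h1 := simpleRoot_eq hC hu
    subst h1
    exact ⟨a, ha, hne⟩
  · intro h i
    refine ⟨fun a ha u hu => ?_, ?_⟩
    · have h1 := simpleRoot_eq hC hu
      subst h1
      exact (h i).1 a ha
    · obtain ⟨a, ha, hne⟩ := (h i).2
      exact ⟨a, ha, _, simpleRoot_xi hC i a, hne⟩

end

/-! ## Satake parameters -/

section
variable {r : ℕ} {C : Matrix (Fin r) (Fin r) ℤ} {K : Type} [Field K] [Finite K]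

theorem satake_eq (hC : SimplyLaced C) {k : XX C K → XX C K → ℂ} {κ : grp C K → ℂ}
    (h : ∀ g, κ g = k (oo C K) (g • oo C K)) (l : Fin r → ℤ) :
    Pub.satake (C := C) (K := K) κ l = sat hC k l := by
  have h1 : ∀ y : XX C K, κ y.out = k (oo C K) y := by
    intro y
    rw [h]
    congr 1
    unfold oo
    rw [smul_pt, mul_one]
    exact Quotient.out_eq y
  have h2 : (∑ᶠ y ∈ (Pub.horo l : Set (Pub.X C K)), κ (Pub.rep y)) =
      ∑ᶠ y ∈ Hor hC K l, k (oo C K) y := by
    rw [horo_eq hC]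
    exact finsum_congr fun y => finsum_congr fun _ => h1 y
  unfold Pub.satake sat hsum hv
  rw [h2]

/-- The character of the group algebra attached to a Satake parameter. -/
noncomputable def psi (s : (Fin r → ℤ) → ℂ) (h0 : s 0 = 1) (ha : ∀ l m, s (l + m) = s l * s m) :
    CQ r →ₐ[ℂ] ℂ :=
  AddMonoidAlgebra.lift ℂ ℂ (Fin r → ℤ)
    { toFun := fun l => s (Multiplicative.toAdd l)
      map_one' := h0
      map_mul' := fun l m => ha _ _ }

theorem psi_ex (s : (Fin r → ℤ) → ℂ) (h0 : s 0 = 1) (ha : ∀ l m, s (l + m) = s l * s m)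
    (l : Fin r → ℤ) : psi s h0 ha (ex l) = s l := by
  unfold psi ex
  rw [AddMonoidAlgebra.lift_single, one_smul]
  exact rfl

theorem psi_sA (hC : SimplyLaced C) (ψ : CQ r →ₐ[ℂ] ℂ) {k : XX C K → XX C K → ℂ} (hk : IsKer k) :
    ψ (sA hC k) = ∑ᶠ l, sat hC k l * ψ (ex l) := by
  rw [psi_eq]
  exact finsum_congr fun l => by rw [sA_eq hC hk]; rfl

/-- the eigenvalues of the kernels -/
theorem ker_of_satake (hC : SimplyLaced C) {f : XX C K → ℂ} {s : (Fin r → ℤ) → ℂ}
    (h : Pub.IsSatake (C := C) (K := K) f s) (k : XX C K → XX C K → ℂ) (hk : IsKer k) (x : XX C K) :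
    ∑ᶠ y, k x y * f y = psi s h.zero h.add (sA hC k) * f x := by
  have hH := (hKhk r C hC K).1 k hk
  obtain ⟨R, hR⟩ := Pool.Agent.DEN.TMP.H56.hk_inf hC hH.1
  have h1 : ∑ᶠ y : XX C K, k (oo C K) ((x.out⁻¹ * y.out) • oo C K) * f y =
      (∑ᶠ l, Pub.satake (C := C) (K := K) (fun g : grp C K => k (oo C K) (g • oo C K)) l * s l) *
        f x := h.eigen (fun g : grp C K => k (oo C K) (g • oo C K)) R hR x
  have h2 : (∑ᶠ l, Pub.satake (C := C) (K := K) (fun g : grp C K => k (oo C K) (g • oo C K)) l *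
      s l) = psi s h.zero h.add (sA hC k) := by
    rw [psi_sA hC _ hk]
    refine finsum_congr fun l => ?_
    rw [satake_eq hC (k := k) (fun g => rfl), psi_ex]
  rw [h2] at h1
  rw [← h1]
  refine finsum_congr fun y => ?_
  rw [hH.2.1 x y]

/-- existence of the Satake parameters -/
theorem satake_exists (hC : SimplyLaced C) {N : Polynomial K} (hN : N ≠ 0) {f : XX C K → ℂ}
    (hf : IsCusp N f) (hp : petersson N f f = 1) (he : DEN.TMP.EigAllInf f) :
    ∃ s, Pub.IsSatake (C := C) (K := K) f s := by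
  obtain ⟨ψ, h1, _⟩ := H13.spe r C hC K N hN f hf hp he
  refine ⟨fun l => ψ (ex l), ?_, ?_, ?_⟩
  · show ψ (ex 0) = 1
    exact map_one ψ
  · intro l m
    show ψ (ex (l + m)) = ψ (ex l) * ψ (ex m)
    rw [← map_mul]
    congr 1
    unfold ex
    rw [AddMonoidAlgebra.single_mul_single, mul_one]
  · intro κ R hκ x
    obtain ⟨k, hk, hκk, _⟩ := (hKhk r C hC K).2.2.2 κ ⟨hκ.1, hκ.2.1⟩
    have h2 := h1 k hk x
    have h3 : (∑ᶠ l, Pub.satake (C := C) (K := K) κ l * ψ (ex l)) = ψ (sA hC k) := by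
      rw [psi_sA hC ψ hk]
      exact finsum_congr fun l => by rw [satake_eq hC hκk]
    refine Eq.trans ?_ (congrArg (· * f x) h3).symm
    refine Eq.trans ?_ h2
    refine finsum_congr fun y => ?_
    refine congrArg (· * f y) ?_
    exact (hκk _).trans (((hKhk r C hC K).1 k hk).2.1 x y).symm

/-- the character of a Satake parameter is hermitian on the invariants -/
theorem psi_her (hC : SimplyLaced C) {N : Polynomial K} (hN : N ≠ 0) {f : XX C K → ℂ}
    (hf : IsCusp N f) (hp : petersson N f f = 1) {s : (Fin r → ℤ) → ℂ}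
    (h : Pub.IsSatake (C := C) (K := K) f s) :
    ∀ T ∈ invAlg C, ∀ T' : CQ r, (∀ μ, T'.coeff μ = (starRingEnd ℂ) (T.coeff (-μ))) →
      psi s h.zero h.add T' = (starRingEnd ℂ) (psi s h.zero h.add T) := by
  have he : DEN.TMP.EigAllInf f := fun κ R hκ => ⟨_, h.eigen κ R hκ⟩
  obtain ⟨ψ, h1, h2⟩ := H13.spe r C hC K N hN f hf hp he
  have hne : ∃ x, f x ≠ 0 := by
    by_contra hcon
    push Not at hcon
    have h0 : petersson N f f = 0 := by
      unfold petersson
      simp [hcon]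
    rw [h0] at hp
    exact zero_ne_one hp
  obtain ⟨x, hx⟩ := hne
  have hagree : ∀ T ∈ invAlg C, psi s h.zero h.add T = ψ T := by
    intro T hT
    obtain ⟨k, hk1, hk2⟩ := exists_ker (K := K) hSur hC ⟨T, hT⟩
    have e : sA hC k = T := by
      ext l
      rw [sA_eq hC hk1, hk2]
    have e1 := ker_of_satake hC h k hk1 x
    have e2 := h1 k hk1 x
    rw [e1, e] at e2
    exact mul_right_cancel₀ hx e2
  intro T hT T' hT'
  have hT'm : T' ∈ invAlg C := by
    rw [mem_invAlg hC]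
    intro i μ
    rw [hT', hT']
    have e := (mem_invAlg hC T).1 hT i (-μ)
    have e2 : -(μ - ip C μ (al i) • al i) = -μ - ip C (-μ) (al i) • al i := by
      rw [ip_neg_left]
      module
    rw [e2, e]
  rw [hagree T' hT'm, hagree T hT, h2 T hT T' hT']

end

end Pool.Agent.WHC.H97
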