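import Pool.Agent.Helper97_WHC.Stmt
import Pool.Agent.Helper29_WHT.CHX

/-!
# Squad WHC, row CNX: the conductor of the explicit characters
-/

set_option autoImplicit false

open scoped BigOperators

namespace Pool.Agent.WHC.H97

open Pool.Agent.DEN Pool.Agent.TMP Pool.Agent.WHC Pool.Agent.WHT

theorem cnx (hchx : ChxStmt) : CnxStmt := by
  intro r C hC K _ _ e he N P hN hP i
  obtain ⟨-, h2, h3, -⟩ := hchx r C hC K e N hN (fun _ => P)
  refine ⟨fun a ha => h3 i a _ ?_ ha, ?_⟩
  · show (N.natDegree : ℤ) - P.natDegree - 2 + P.natDegree + 2 ≤ N.natDegree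
    linarith
  · obtain ⟨b, hb⟩ : ∃ b : K, e b ≠ 1 := by
      by_contra hcon
      push Not at hcon
      exact he (DFunLike.ext _ _ fun b => by rw [hcon b]; rfl)
    have hN' := WHT.H29.polyL_ne0 hN
    have hP' := WHT.H29.polyL_ne0 hP
    have hτ : (HahnSeries.single (1 : ℤ) b : FF K) ∈ Bd K (-1) := by
      intro j hj
      exact HahnSeries.coeff_single_of_ne (by omega)
    refine ⟨HahnSeries.single (1 : ℤ) b * polyL K N * (polyL K P)⁻¹, ?_, ?_⟩
    · have h := H99.bd_mul (H99.bd_mul hτ ((H99.fld2 K).2.1 N)) (WHT.H29.inv_poly hP)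
      have e1 : -1 + (N.natDegree : ℤ) + -(P.natDegree : ℤ) =
          (N.natDegree : ℤ) - P.natDegree - 2 + 1 := by ring
      rw [e1] at h
      exact h
    · rw [h2]
      have e2 : polyL K P * ((HahnSeries.single (1 : ℤ) b : FF K) * polyL K N * (polyL K P)⁻¹) /
          polyL K N = HahnSeries.single (1 : ℤ) b := by
        field_simp
      show e (HahnSeries.coeff (polyL K P * ((HahnSeries.single (1 : ℤ) b : FF K) * polyL K N *
        (polyL K P)⁻¹) / polyL K N) 1) ≠ 1
      rw [e2, HahnSeries.coeff_single_same]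
      exact hb

end Pool.Agent.WHC.H97
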