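import Mathlib

/-!
# Squad WHC (MP_eadad4_nt), block C: power sums (a weak form of Turan's second main theorem)
-/

set_option autoImplicit false

open scoped BigOperators

namespace Pool.Agent.WHC

/-- RCG: growth of linear recurrences with roots in the unit disc.
PROOF.  Induction on `h`.  `h = 0`: the recurrence says `u = 0`.  Step: `v k = u (k + 1) - z_last u k` satisfies the
recurrence for the other `z_j`, `|v i| ≤ 2 U` for `i < h`, so `|v k| ≤ 2 C U (k + 1)^h`, and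
`|u n| ≤ |u 0| + ∑_{k < n} |v k|` by induction (`|z_last| ≤ 1`).  (`h` here is one less than the number of the roots.)
The recurrence is `∑_i (coefficient i of ∏_j (X - z_j)) u (k + i) = 0` for all `k`; the power sums satisfy it. -/
def RcgStmt : Prop :=
  ∀ h : ℕ, ∃ D : ℝ, 0 < D ∧ ∀ z : Fin (h + 1) → ℂ, (∀ j, ‖z j‖ ≤ 1) →
    ∀ (m : ℕ) (U : ℝ), (∀ k, m ≤ k → k < m + (h + 1) → ‖∑ j, z j ^ k‖ ≤ U) →
    ∀ n : ℕ, ‖∑ j, z j ^ (m + n)‖ ≤ D * (n + 1) ^ h * U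

/-- NEW: if the first `h` power sums are small, all the `z_j` are small (Newton's identities).
PROOF.  By contradiction or directly: Newton's identities (`MvPolynomial.mul_esymm_eq_sum`, or by induction from
`Multiset`/`Finset` versions) give `k |e_k| ≤ ∑_{i=1}^k |e_{k-i}| |p_i|`, so `|e_k| ≤ ε` for `1 ≤ k ≤ h` if all `|p_i| ≤ ε ≤ 1`,
`|e_k| ≤ 1`; and `z_j^h = ± ∑_{k ≥ 1} e_k z_j^(h-k)` up to signs, so `1 ≤ h ε` if `|z_j| = 1`. -/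
def NewStmt : Prop :=
  ∀ h : ℕ, 0 < h → ∃ c : ℝ, 0 < c ∧ ∀ z : Fin h → ℂ, (∃ j, ‖z j‖ = 1) →
    ∃ i, 1 ≤ i ∧ i ≤ h ∧ c ≤ ‖∑ j, z j ^ i‖

/-- TUR: a weak form of Turan's second main theorem (from RCG, NEW).
PROOF.  By homogeneity `ρ = 1` (`ρ = 0` is trivial; divide the `z_j` by `ρ`).  Let `U` be the maximum of the `|p_k|`,
`m ≤ k < m + h`.  NEW for the `z_j ^ m` gives `1 ≤ i ≤ h` with `c ≤ |p_{i m}|`, and RCG gives
`|p_{i m}| ≤ D ((i - 1) m + 1)^(h-1) U ≤ D (h m)^(h-1) U`. -/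
def TurStmt : Prop :=
  ∀ h : ℕ, 0 < h → ∃ c : ℝ, 0 < c ∧ ∀ (z : Fin h → ℂ) (ρ : ℝ), 0 ≤ ρ → (∀ j, ‖z j‖ ≤ ρ) →
    (∃ j, ‖z j‖ = ρ) → ∀ m : ℕ, 0 < m →
    ∃ k, m ≤ k ∧ k < m + h ∧ c * ρ ^ k ≤ (m : ℝ) ^ h * ‖∑ j, z j ^ k‖

end Pool.Agent.WHC
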