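import Pool.Agent.Helper97_WHC.Fin
import Pool.Agent.Helper97_WHC.StmtC

/-!
# Squad WHC: the density theorem in terms of the exponents
-/

set_option autoImplicit false

open scoped BigOperators

namespace Pool.Agent.WHC.H97

open Pool.Agent.DEN Pool.Agent.TMP Pool.Agent.TMP.H27 Pool.Agent.WHC Pool.Agent.WHT

section
variable {r : ℕ} {C : Matrix (Fin r) (Fin r) ℤ}

theorem orbit_fin (hwey : WeyStmt) (hC : SimplyLaced C) (l : Fin r → ℤ) :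
    (Pub.weylOrbit C l).Finite := by
  classical
  haveI : Finite (Wg hC) := (hwey r C hC).1
  have h : Pub.weylOrbit C l = Set.range fun w : Wg hC => w.1 l := by
    ext m
    rw [mem_orbit hwey hC]
    constructor
    · rintro ⟨w, hw, rfl⟩
      exact ⟨⟨w, hw⟩, rfl⟩
    · rintro ⟨w, rfl⟩
      exact ⟨w.1, w.2, rfl⟩
  rw [h]
  exact Set.finite_range _

theorem orbit_smul (hwey : WeyStmt) (hC : SimplyLaced C) (l : Fin r → ℤ) (k : ℕ) :
    Pub.weylOrbit C (k • l) = (fun ν => k • ν) '' Pub.weylOrbit C l := by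
  ext m
  rw [mem_orbit hwey hC]
  constructor
  · rintro ⟨w, hw, rfl⟩
    exact ⟨w l, (mem_orbit hwey hC l _).2 ⟨w, hw, rfl⟩, (map_nsmul w k l).symm⟩
  · rintro ⟨ν, hν, rfl⟩
    obtain ⟨w, hw, rfl⟩ := (mem_orbit hwey hC l _).1 hν
    exact ⟨w, hw, (map_nsmul w k l).symm⟩

theorem sat_pow {s : (Fin r → ℤ) → ℂ} (h0 : s 0 = 1) (ha : ∀ l m, s (l + m) = s l * s m)
    (l : Fin r → ℤ) (k : ℕ) : s (k • l) = s l ^ k := by
  induction k with
  | zero => rw [zero_smul, h0, pow_zero]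
  | succ k ih => rw [succ_nsmul, ha, ih, pow_succ]

theorem orbit_sum_pow (hwey : WeyStmt) (hC : SimplyLaced C) {s : (Fin r → ℤ) → ℂ} (h0 : s 0 = 1)
    (ha : ∀ l m, s (l + m) = s l * s m) (l : Fin r → ℤ) {k : ℕ} (hk : 0 < k) :
    ∑ᶠ m ∈ Pub.weylOrbit C (k • l), s m = ∑ᶠ ν ∈ Pub.weylOrbit C l, s ν ^ k := by
  rw [orbit_smul hwey hC, finsum_mem_image]
  · exact finsum_mem_congr rfl fun ν _ => sat_pow h0 ha ν k
  · intro a _ b _ hab
    have h : k • a = k • b := hab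
    ext i
    have := congrFun h i
    simp only [Pi.smul_apply, smul_eq_mul, nsmul_eq_mul] at this
    have hk' : (k : ℤ) ≠ 0 := by exact_mod_cast hk.ne'
    exact mul_left_cancel₀ hk' this

end

theorem dex_pub (hcsf : CsfStmt) (hwey : WeyStmt) (htur : TurStmt) (r : ℕ)
    (C : Matrix (Fin r) (Fin r) ℤ) (hC : SimplyLaced C) : ∃ A b B : ℕ,
    ∀ (K : Type) [Field K] [Finite K] (N : Polynomial K), 0 < N.natDegree →
    ∀ (χ : grp C K → ℂ), IsChi N χ → ∀ c : Fin r → ℤ, Cond hC χ c →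
    ∀ (n : ℕ) (f : Fin n → XX C K → ℂ), ONC N f → ∀ s : Fin n → (Fin r → ℤ) → ℂ,
    (∀ j, Pub.IsSatake (C := C) (K := K) (f j) (s j)) →
    ∀ M : Fin r → ℤ, (∀ i, ip C (al i) M = c i) →
    ∀ (m : Fin r → ℤ) (E : ℕ), (∀ i, 0 ≤ ip C (al i) m) →
    (∀ i, ip C (al i) m + b ≤ c i ∧ c i ≤ ip C (al i) m + E) → 0 < vol hC N m →
    ∀ (x : ℝ) (k : ℕ), 0 ≤ x → 0 < k →
    (∀ i, (B * (E + 1) : ℤ) ≤ 2 * k ∧ 2 * k + B * (E + 1) ≤ c i) →
    (∀ j, ∃ ν ∈ Pub.weylOrbit C (tr C), (Nat.card K : ℝ) ^ x ≤ ‖s j ν‖) →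
    ∑ j, ‖wh hC N χ m (f j)‖ ^ 2 ≤ A * (k : ℝ) ^ B * (Nat.card K : ℝ) ^ (-(2 * x * k)) *
      vol hC N m := by
  classical
  obtain ⟨A₀, b, B₀, h⟩ := csf_pub hcsf hwey r C hC
  have hfo := orbit_fin hwey hC (tr C)
  set S : Finset (Fin r → ℤ) := hfo.toFinset with hS
  have hSm : ∀ ν, ν ∈ S ↔ ν ∈ Pub.weylOrbit C (tr C) := fun ν => hfo.mem_toFinset
  have htrS : tr C ∈ S := (hSm _).2 Relation.ReflTransGen.refl
  have hcard : 0 < S.card := Finset.card_pos.2 ⟨_, htrS⟩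
  obtain ⟨t, ht, hT⟩ := htur S.card hcard
  set H : ℕ := S.card with hH
  set e := S.equivFin.symm with he
  obtain ⟨A, hA⟩ : ∃ A : ℕ, H * A₀ / t ^ 2 ≤ (A : ℝ) := exists_nat_ge _
  refine ⟨A, b, B₀ + 2 * H, ?_⟩
  intro K _ _ N hN χ hχ c hc n f hf s hs M hM m E hm0 hm hV x k hx hk hkB hlow
  have hq : (1 : ℝ) < Nat.card K := by
    have := Finite.one_lt_card (α := K)
    exact_mod_cast this
  have hq0 : (0 : ℝ) < Nat.card K := by linarith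
  -- the orbit sums
  have hsum : ∀ j, ∀ k' : ℕ, 0 < k' → ∑ᶠ m' ∈ Pub.weylOrbit C (k' • tr C), s j m' =
      ∑ i : Fin H, (s j (e i).1) ^ k' := by
    intro j k' hk'
    rw [orbit_sum_pow hwey hC (hs j).zero (hs j).add _ hk']
    have e1 : ∑ᶠ ν ∈ Pub.weylOrbit C (tr C), s j ν ^ k' = ∑ ν ∈ S, s j ν ^ k' := by
      rw [hS, ← finsum_mem_coe_finset, Set.Finite.coe_toFinset]
    rw [e1, ← Finset.sum_coe_sort S]
    exact (Equiv.sum_comp e (fun ν : S => s j ν.1 ^ k')).symm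
  have hmain : ∀ j, t ^ 2 * (Nat.card K : ℝ) ^ (2 * x * k) ≤ (k : ℝ) ^ (2 * H) *
      ∑ k' ∈ Finset.Ico k (k + H), ‖∑ᶠ m' ∈ Pub.weylOrbit C (k' • tr C), s j m'‖ ^ 2 := by
    intro j
    obtain ⟨ν, hν, hνx⟩ := hlow j
    obtain ⟨i₀, -, hi₀⟩ := Finset.exists_max_image (Finset.univ : Finset (Fin H))
      (fun i => ‖s j (e i).1‖) ⟨⟨0, hcard⟩, Finset.mem_univ _⟩
    obtain ⟨k', hk1, hk2, hk3⟩ := hT (fun i => s j (e i).1) ‖s j (e i₀).1‖ (norm_nonneg _)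
      (fun i => hi₀ i (Finset.mem_univ _)) ⟨i₀, rfl⟩ k hk
    have hge : (Nat.card K : ℝ) ^ x ≤ ‖s j (e i₀).1‖ := by
      have h2 := hi₀ (e.symm ⟨ν, (hSm _).2 hν⟩) (Finset.mem_univ _)
      rw [Equiv.apply_symm_apply] at h2
      exact hνx.trans h2
    have hge1 : (1 : ℝ) ≤ (Nat.card K : ℝ) ^ x := Real.one_le_rpow hq.le hx
    have h3 : (Nat.card K : ℝ) ^ (x * k) ≤ ‖s j (e i₀).1‖ ^ k' := by
      rw [Real.rpow_mul hq0.le, Real.rpow_natCast]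
      calc ((Nat.card K : ℝ) ^ x) ^ k ≤ ((Nat.card K : ℝ) ^ x) ^ k' := pow_le_pow_right₀ hge1 hk1
        _ ≤ _ := pow_le_pow_left₀ (by positivity) hge _
    have h4 : t * (Nat.card K : ℝ) ^ (x * k) ≤ (k : ℝ) ^ H *
        ‖∑ᶠ m' ∈ Pub.weylOrbit C (k' • tr C), s j m'‖ := by
      rw [hsum j k' (by omega)]
      exact (mul_le_mul_of_nonneg_left h3 ht.le).trans hk3
    have h5 : t ^ 2 * (Nat.card K : ℝ) ^ (2 * x * k) = (t * (Nat.card K : ℝ) ^ (x * k)) ^ 2 := by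
      rw [mul_pow, ← Real.rpow_natCast ((Nat.card K : ℝ) ^ (x * k)) 2, ← Real.rpow_mul hq0.le]
      congr 2
      push_cast
      ring
    rw [h5]
    calc (t * (Nat.card K : ℝ) ^ (x * k)) ^ 2 ≤ ((k : ℝ) ^ H *
        ‖∑ᶠ m' ∈ Pub.weylOrbit C (k' • tr C), s j m'‖) ^ 2 :=
          pow_le_pow_left₀ (by positivity) h4 _
      _ = (k : ℝ) ^ (2 * H) * ‖∑ᶠ m' ∈ Pub.weylOrbit C (k' • tr C), s j m'‖ ^ 2 := by ring
      _ ≤ _ := by
        refine mul_le_mul_of_nonneg_left ?_ (by positivity)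
        exact Finset.single_le_sum
          (f := fun k' => ‖∑ᶠ m' ∈ Pub.weylOrbit C (k' • tr C), s j m'‖ ^ 2)
          (fun _ _ => by positivity) (Finset.mem_Ico.2 ⟨hk1, hk2⟩)
  have hcs : ∀ k' ∈ Finset.Ico k (k + H),
      ∑ j, ‖∑ᶠ m' ∈ Pub.weylOrbit C (k' • tr C), s j m'‖ ^ 2 * ‖wh hC N χ m (f j)‖ ^ 2 ≤
        A₀ * vol hC N m := by
    intro k' hk'
    rw [Finset.mem_Ico] at hk'
    refine h K N hN χ hχ c hc n f hf s hs M hM m E hm0 hm (k' • tr C) fun i => ?_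
    have e1 : ip C (al i) (k' • tr C) = 2 * k' := by
      have e2 : (k' • tr C : Fin r → ℤ) = (k' : ℤ) • tr C := (natCast_zsmul _ _).symm
      rw [e2, ip_smul_right, (hwey r C hC).2.1]
      ring
    rw [e1]
    have e3 := hkB i
    push_cast at e3
    have e4 : (k : ℤ) ≤ k' := by exact_mod_cast hk'.1
    have e5 : (k' : ℤ) < k + H := by exact_mod_cast hk'.2
    have e6 : (0 : ℤ) ≤ (H : ℤ) * E := by positivity
    constructor <;> nlinarith [e3.1, e3.2]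
  set T := ∑ j, ‖wh hC N χ m (f j)‖ ^ 2 with hTd
  have hT0 : 0 ≤ T := Finset.sum_nonneg fun _ _ => by positivity
  have h6 : t ^ 2 * (Nat.card K : ℝ) ^ (2 * x * k) * T ≤
      (k : ℝ) ^ (2 * H) * (H * (A₀ * vol hC N m)) := by
    calc t ^ 2 * (Nat.card K : ℝ) ^ (2 * x * k) * T =
        ∑ j, (t ^ 2 * (Nat.card K : ℝ) ^ (2 * x * k)) * ‖wh hC N χ m (f j)‖ ^ 2 := by
          rw [hTd, Finset.mul_sum]
      _ ≤ ∑ j, ((k : ℝ) ^ (2 * H) * ∑ k' ∈ Finset.Ico k (k + H),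
          ‖∑ᶠ m' ∈ Pub.weylOrbit C (k' • tr C), s j m'‖ ^ 2) * ‖wh hC N χ m (f j)‖ ^ 2 :=
          Finset.sum_le_sum fun j _ => mul_le_mul_of_nonneg_right (hmain j) (by positivity)
      _ = (k : ℝ) ^ (2 * H) * ∑ k' ∈ Finset.Ico k (k + H), ∑ j,
          ‖∑ᶠ m' ∈ Pub.weylOrbit C (k' • tr C), s j m'‖ ^ 2 * ‖wh hC N χ m (f j)‖ ^ 2 := by
          rw [Finset.sum_comm, Finset.mul_sum]
          refine Finset.sum_congr rfl fun j _ => ?_
          rw [mul_assoc, Finset.sum_mul]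
      _ ≤ (k : ℝ) ^ (2 * H) * (H * (A₀ * vol hC N m)) := by
          refine mul_le_mul_of_nonneg_left ?_ (by positivity)
          refine (Finset.sum_le_card_nsmul _ _ _ hcs).trans (le_of_eq ?_)
          rw [Nat.card_Ico, Nat.add_sub_cancel_left, nsmul_eq_mul]
  have hQ : (0 : ℝ) < (Nat.card K : ℝ) ^ (2 * x * k) := Real.rpow_pos_of_pos hq0 _
  have h7 : T ≤ (H * A₀ / t ^ 2) * (k : ℝ) ^ (2 * H) * (Nat.card K : ℝ) ^ (-(2 * x * k)) *
      vol hC N m := by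
    rw [Real.rpow_neg hq0.le]
    have ht2 : 0 < t ^ 2 := by positivity
    have h8 : T ≤ ((k : ℝ) ^ (2 * H) * (H * (A₀ * vol hC N m))) /
        (t ^ 2 * (Nat.card K : ℝ) ^ (2 * x * k)) := by
      rw [le_div_iff₀ (by positivity)]
      linarith
    refine h8.trans (le_of_eq ?_)
    field_simp
  have hk1 : (1 : ℝ) ≤ k := by exact_mod_cast hk
  refine h7.trans ?_
  refine mul_le_mul_of_nonneg_right ?_ hV.le
  refine mul_le_mul_of_nonneg_right ?_ (by positivity)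
  refine mul_le_mul hA ?_ (by positivity) (by positivity)
  exact pow_le_pow_right₀ hk1 (by omega)

end Pool.Agent.WHC.H97
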