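import Pool.Agent.Helper97_WHC.Bri

/-!
# Squad WHC: the theorem in terms of the public definitions
-/

set_option autoImplicit false

open scoped BigOperators

namespace Pool.Agent.WHC.H97

open Pool.Agent.DEN Pool.Agent.TMP Pool.Agent.TMP.H27 Pool.Agent.WHC Pool.Agent.WHT

section
variable {r : ℕ} {C : Matrix (Fin r) (Fin r) ℤ}

theorem mem_orbit (hwey : WeyStmt) (hC : SimplyLaced C) (l m : Fin r → ℤ) :
    m ∈ Pub.weylOrbit C l ↔ ∃ w ∈ Wg hC, m = w l := by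
  rw [← (hwey r C hC).2.2.2.2.2.2.1 l m]
  have h : (fun a b : Fin r → ℤ => ∃ i, b = a - ip C (Pi.single i 1) a • Pi.single i 1) =
      fun a b => ∃ i, b = sf C i a := rfl
  exact Iff.rfl

theorem sum_orbit (hwey : WeyStmt) (hC : SimplyLaced C) (l : Fin r → ℤ) (F : (Fin r → ℤ) → ℂ) :
    ∃ k : ℕ, 0 < k ∧ ∑ᶠ w : Wg hC, F (w.1 l) = k * ∑ᶠ m ∈ Pub.weylOrbit C l, F m := by
  classical
  haveI : Finite (Wg hC) := (hwey r C hC).1
  haveI := Fintype.ofFinite (Wg hC)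
  set S : Finset (Fin r → ℤ) := Finset.univ.image (fun w : Wg hC => w.1 l) with hS
  have hS2 : Pub.weylOrbit C l = (S : Set (Fin r → ℤ)) := by
    ext m
    rw [mem_orbit hwey hC, hS]
    simp only [Finset.coe_image, Finset.coe_univ, Set.image_univ, Set.mem_range, Subtype.exists]
    constructor
    · rintro ⟨w, hw, rfl⟩
      exact ⟨w, hw, rfl⟩
    · rintro ⟨w, hw, rfl⟩
      exact ⟨w, hw, rfl⟩
  set k : ℕ := (Finset.univ.filter fun w : Wg hC => w.1 l = l).card with hk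
  have hk0 : 0 < k := Finset.card_pos.2 ⟨1, by simp⟩
  have hfib : ∀ m ∈ S, (Finset.univ.filter fun w : Wg hC => w.1 l = m).card = k := by
    intro m hm
    rw [hS, Finset.mem_image] at hm
    obtain ⟨w₀, _, rfl⟩ := hm
    symm
    refine Finset.card_bij (fun w _ => w₀ * w) ?_ ?_ ?_
    · intro w hw
      rw [Finset.mem_filter] at hw ⊢
      refine ⟨Finset.mem_univ _, ?_⟩
      show w₀.1 (w.1 l) = w₀.1 l
      rw [hw.2]
    · intro a _ b _ hab
      exact mul_left_cancel hab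
    · intro w hw
      rw [Finset.mem_filter] at hw
      refine ⟨w₀⁻¹ * w, ?_, mul_inv_cancel_left _ _⟩
      rw [Finset.mem_filter]
      refine ⟨Finset.mem_univ _, ?_⟩
      apply w₀.1.injective
      show w₀.1 ((w₀⁻¹ * w : Wg hC).1 l) = w₀.1 l
      rw [← hw.2]
      show (w₀ * (w₀⁻¹ * w) : Wg hC).1 l = w.1 l
      rw [mul_inv_cancel_left]
  refine ⟨k, hk0, ?_⟩
  rw [finsum_eq_sum_of_fintype, hS2]
  have h1 : ∑ᶠ m ∈ (S : Set (Fin r → ℤ)), F m = ∑ m ∈ S, F m := by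
    exact finsum_mem_coe_finset _ _
  rw [h1, Finset.mul_sum]
  have h2 := Finset.sum_comp (s := Finset.univ) F (fun w : Wg hC => w.1 l)
  rw [h2]
  refine Finset.sum_congr rfl fun m hm => ?_
  rw [nsmul_eq_mul, hfib m hm]

end

section
variable {r : ℕ} {C : Matrix (Fin r) (Fin r) ℤ} {K : Type} [Field K] [Finite K]

/-- `∑_w ψ(e^{- w l})` is the conjugate of `∑_w s(w l)`. -/
theorem sum_neg (hwey : WeyStmt) (hC : SimplyLaced C) {N : Polynomial K} (hN : N ≠ 0)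
    {f : XX C K → ℂ} (hf : IsCusp N f) (hp : petersson N f f = 1) {s : (Fin r → ℤ) → ℂ}
    (h : Pub.IsSatake (C := C) (K := K) f s) (l : Fin r → ℤ) :
    ∑ᶠ w : Wg hC, psi s h.zero h.add (ex (-(w.1 l))) =
      (starRingEnd ℂ) (∑ᶠ w : Wg hC, s (w.1 l)) := by
  classical
  obtain ⟨hfin, _, _, _, _, hinv, _⟩ := hwey r C hC
  haveI := hfin
  haveI := Fintype.ofFinite (Wg hC)
  set T : CQ r := ∑ w : Wg hC, ex (w.1 l) with hT
  set T' : CQ r := ∑ w : Wg hC, ex (-(w.1 l)) with hT'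
  have hTm : T ∈ invAlg C := by
    rw [hinv]
    intro v hv
    rw [hT, map_sum]
    have h1 : ∀ w : Wg hC, wA v (ex (w.1 l)) = ex (((⟨v, hv⟩ * w : Wg hC)).1 l) := by
      intro w
      unfold wA ex
      rw [AddMonoidAlgebra.domCongr_single]
      rfl
    simp only [h1]
    exact Fintype.sum_equiv (Equiv.mulLeft (⟨v, hv⟩ : Wg hC)) _ _ fun w => rfl
  have hTT : ∀ μ, T'.coeff μ = (starRingEnd ℂ) (T.coeff (-μ)) := by
    intro μ
    rw [hT, hT', AddMonoidAlgebra.coeff_sum, AddMonoidAlgebra.coeff_sum, Finsupp.finset_sum_apply,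
      Finsupp.finset_sum_apply, map_sum]
    refine Finset.sum_congr rfl fun w _ => ?_
    unfold ex
    rw [AddMonoidAlgebra.coeff_single, AddMonoidAlgebra.coeff_single, Finsupp.single_apply,
      Finsupp.single_apply]
    by_cases h : -(w.1 l) = μ
    · have h' : w.1 l = -μ := by rw [← h, neg_neg]
      simp [h, h']
    · have h' : ¬ w.1 l = -μ := fun e => h (by rw [e, neg_neg])
      simp [h, h']
  have h2 := psi_her hC hN hf hp h T hTm T' hTT
  rw [finsum_eq_sum_of_fintype, finsum_eq_sum_of_fintype]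
  have h3 : ∀ w : Wg hC, s (w.1 l) = psi s h.zero h.add (ex (w.1 l)) := fun w => (psi_ex _ _ _ _).symm
  simp only [h3]
  rw [← map_sum, ← hT', h2, hT, map_sum]

end

theorem bdd_aux {ι κ : Type} [Finite ι] [Finite κ] (g : ι → κ → ℤ) :
    ∃ B : ℕ, ∀ a b, |g a b| ≤ B := by
  classical
  haveI := Fintype.ofFinite ι
  haveI := Fintype.ofFinite κ
  refine ⟨∑ a, ∑ b, (g a b).natAbs, fun a b => ?_⟩
  have h1 : (g a b).natAbs ≤ ∑ b, (g a b).natAbs :=
    Finset.single_le_sum (f := fun b => (g a b).natAbs) (fun _ _ => Nat.zero_le _)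
      (Finset.mem_univ b)
  have h2 : ∑ b, (g a b).natAbs ≤ ∑ a, ∑ b, (g a b).natAbs :=
    Finset.single_le_sum (f := fun a => ∑ b, (g a b).natAbs) (fun _ _ => Nat.zero_le _)
      (Finset.mem_univ a)
  rw [Int.abs_eq_natAbs]
  exact_mod_cast h1.trans h2

theorem ip_expand {r : ℕ} {C : Matrix (Fin r) (Fin r) ℤ} (x y : Fin r → ℤ) : ip C x y = ∑ j, x j * ip C (al j) y := by
  classical
  have h : x = ∑ j, x j • (al j : Fin r → ℤ) := by
    ext i
    rw [Finset.sum_apply]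
    simp [al, Pi.single_apply]
  have h2 : ∀ (S : Finset (Fin r)), ip C (∑ j ∈ S, x j • (al j : Fin r → ℤ)) y =
      ∑ j ∈ S, x j * ip C (al j) y := by
    intro S
    induction S using Finset.induction_on with
    | empty =>
      simp only [Finset.sum_empty]
      have := ip_smul_left (C := C) 0 0 y
      simpa using this
    | insert a S ha ih => rw [Finset.sum_insert ha, Finset.sum_insert ha, ip_add_left, ip_smul_left, ih]
  conv_lhs => rw [h]
  exact h2 _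

/-- CSF with Satake parameters -/
theorem csf_pub (hcsf : CsfStmt) (hwey : WeyStmt) (r : ℕ) (C : Matrix (Fin r) (Fin r) ℤ)
    (hC : SimplyLaced C) : ∃ A b B : ℕ,
    ∀ (K : Type) [Field K] [Finite K] (N : Polynomial K), 0 < N.natDegree →
    ∀ (χ : grp C K → ℂ), IsChi N χ → ∀ c : Fin r → ℤ, Cond hC χ c →
    ∀ (n : ℕ) (f : Fin n → XX C K → ℂ), ONC N f → ∀ s : Fin n → (Fin r → ℤ) → ℂ,
    (∀ j, Pub.IsSatake (C := C) (K := K) (f j) (s j)) →
    ∀ M : Fin r → ℤ, (∀ i, ip C (al i) M = c i) →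
    ∀ (m : Fin r → ℤ) (E : ℕ), (∀ i, 0 ≤ ip C (al i) m) →
    (∀ i, ip C (al i) m + b ≤ c i ∧ c i ≤ ip C (al i) m + E) →
    ∀ l : Fin r → ℤ, (∀ i, (B * (E + 1) : ℤ) ≤ ip C (al i) l ∧
      ip C (al i) l + B * (E + 1) ≤ c i) →
    ∑ j, ‖∑ᶠ m' ∈ Pub.weylOrbit C l, s j m'‖ ^ 2 * ‖wh hC N χ m (f j)‖ ^ 2 ≤ A * vol hC N m := by
  classical
  obtain ⟨B₀, hB₀, h⟩ := hcsf r C hC
  obtain ⟨hfin, htr, hiso, _⟩ := hwey r C hC
  haveI := hfin
  set b : ℕ := B₀.toNat with hb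
  have hbB : (b : ℤ) = B₀ := Int.toNat_of_nonneg hB₀
  clear_value b
  obtain ⟨B₁, hB₁⟩ := bdd_aux (fun (w : Wg hC) (i : Fin r) => ip C (al i) (dl C w.1))
  obtain ⟨B₂, hB₂⟩ := bdd_aux (fun (w : Wg hC) (p : Fin r × Fin r) =>
    (w⁻¹ : Wg hC).1 (al p.1) p.2)
  refine ⟨Nat.card (Wg hC) ^ 2, b, b + B₁ + r * B₂, ?_⟩
  intro K _ _ N hN χ hχ c hc n f hf s hs M hM m E hm0 hm l hl
  have hN0 : N ≠ 0 := by
    rintro rfl
    simp at hN
  obtain ⟨l₀, hl₀⟩ : ∃ l₀, l₀ = M - m := ⟨_, rfl⟩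
  have hip0 : ∀ i, ip C (al i) l₀ = c i - ip C (al i) m := by
    intro i
    rw [hl₀, ip_sub_right, hM]
  have hbd : ∀ w ∈ Wg hC, ∀ i, |ip C (al i) (w l₀ - dl C w)| ≤ B₁ + r * B₂ * E := by
    intro w hw i
    have e1 : ip C (al i) (w l₀) = ip C ((⟨w, hw⟩⁻¹ : Wg hC).1 (al i)) l₀ := by
      have e2 := (hiso _ ((⟨w, hw⟩⁻¹ : Wg hC)).2).1 (al i) (w l₀)
      rw [← e2]
      congr 1
      show ((⟨w, hw⟩⁻¹ * ⟨w, hw⟩ : Wg hC)).1 l₀ = l₀
      rw [inv_mul_cancel]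
      rfl
    have e3 : |ip C (al i) (w l₀)| ≤ r * B₂ * E := by
      rw [e1, ip_expand]
      refine (Finset.abs_sum_le_sum_abs _ _).trans ?_
      have e4 : ∀ j ∈ Finset.univ, |(⟨w, hw⟩⁻¹ : Wg hC).1 (al i) j * ip C (al j) l₀| ≤
          (B₂ : ℤ) * E := by
        intro j _
        rw [abs_mul]
        refine mul_le_mul (hB₂ ⟨w, hw⟩ (i, j)) ?_ (abs_nonneg _) (Int.natCast_nonneg _)
        rw [hip0, abs_le]
        have h1 := hm j
        have h2 : (0 : ℤ) ≤ b := Int.natCast_nonneg _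
        constructor <;> linarith [h1.1, h1.2]
      refine (Finset.sum_le_card_nsmul _ _ _ e4).trans (le_of_eq ?_)
      rw [Finset.card_univ, Fintype.card_fin, nsmul_eq_mul]
      push_cast
      ring
    rw [ip_sub_right]
    have e5 := hB₁ ⟨w, hw⟩ i
    have e6 := abs_sub (ip C (al i) (w l₀)) (ip C (al i) (dl C w))
    linarith
  have h1 := h K N hN χ hχ c hc M hM n f hf (fun j => psi (s j) (hs j).zero (hs j).add)
    (fun j k hk x => ker_of_satake hC (hs j) k hk x) l₀ l ?_ ?_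
  · have hMl : M - l₀ = m := by rw [hl₀, sub_sub_cancel]
    rw [hMl] at h1
    refine le_trans (Finset.sum_le_sum fun j _ => ?_) (h1.trans (le_of_eq ?_))
    · refine mul_le_mul_of_nonneg_right ?_ (by positivity)
      refine pow_le_pow_left₀ (norm_nonneg _) ?_ 2
      have hp : petersson N (f j) (f j) = 1 := by
        have := hf.2 j j
        rwa [if_pos rfl] at this
      rw [sum_neg hwey hC hN0 (hf.1 j) hp (hs j) l]
      obtain ⟨k, hk0, hk⟩ := sum_orbit hwey hC l (s j)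
      rw [hk, RCLike.norm_conj, norm_mul, Complex.norm_natCast]
      have hk1 : (1 : ℝ) ≤ k := by exact_mod_cast hk0
      exact le_mul_of_one_le_left (norm_nonneg _) hk1
    · push_cast
      ring
  · intro i
    rw [hip0, ← hbB]
    have h2 := hm i
    have h3 := hm0 i
    constructor <;> linarith [h2.1, h2.2]
  · intro w hw i
    have h2 : ip C (al i) (l + w l₀ - dl C w) =
        ip C (al i) l + ip C (al i) (w l₀ - dl C w) := by
      rw [add_sub_assoc, ip_add_right]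
    rw [h2]
    have h3 := abs_le.1 (hbd w hw i)
    have h4 := hl i
    push_cast at h4
    rw [← hbB]
    have h5 : ((b : ℤ) + B₁ + r * B₂) * (E + 1) =
        b + B₁ + r * B₂ * E + (b * E + B₁ * E + r * B₂) := by ring
    have h6 : (0 : ℤ) ≤ b * E + B₁ * E + r * B₂ := by positivity
    rw [h5] at h4
    constructor
    · linarith [h3.1, h4.1]
    · linarith [h3.2, h4.2]

/-- TM2 with Satake parameters -/
theorem tm_pub (hmea : MeaStmt) (hgen : GenxStmt) (hbsl : BslStmt) (r : ℕ)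
    (C : Matrix (Fin r) (Fin r) ℤ) (hC : SimplyLaced C) : ∃ A : ℕ,
    ∀ (K : Type) [Field K] [Finite K] (N : Polynomial K), 0 < N.natDegree →
    ∀ (χ : grp C K → ℂ), IsChi N χ → ∀ c : Fin r → ℤ, Cond hC χ c →
    ∀ (n : ℕ) (f : Fin n → XX C K → ℂ), ONC N f → ∀ s : Fin n → (Fin r → ℤ) → ℂ,
    (∀ j, Pub.IsSatake (C := C) (K := K) (f j) (s j)) →
    ∀ (m : Fin r → ℤ) (D : ℕ), (∀ i, (D : ℤ) ≤ ip C (al i) m ∧ ip C (al i) m + D ≤ c i) →
    (∀ j, ∃ l, ‖s j l‖ ≠ 1) → D * ∑ j, ‖wh hC N χ m (f j)‖ ^ 2 ≤ A * vol hC N m := by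
  obtain ⟨A, hA⟩ := tm2 hmea hgen hbsl r C hC
  refine ⟨A, fun K _ _ N hN χ hχ c hc n f hf s hs m D hm hne => ?_⟩
  have hN0 : N ≠ 0 := by
    rintro rfl
    simp at hN
  refine hA K N hN χ hχ m D ?_ n f hf (fun j => psi (s j) (hs j).zero (hs j).add)
    (fun j k hk x => ker_of_satake hC (hs j) k hk x) ?_ ?_
  · intro i
    refine ⟨(hm i).1, fun a ha => (hc i).1 a ?_⟩
    exact (H22.hF1 K).2.2.2.2.1 _ _ _ (hm i).2 ha
  · intro j
    have hp : petersson N (f j) (f j) = 1 := by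
      have := hf.2 j j
      rwa [if_pos rfl] at this
    exact psi_her hC hN0 (hf.1 j) hp (hs j)
  · intro j
    obtain ⟨l, hl⟩ := hne j
    exact ⟨l, by rw [psi_ex]; exact hl⟩

end Pool.Agent.WHC.H97
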