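import Pool.Agent.Helper97_WHC.Stmt

/-!
# Squad WHC, row GRM: solutions of the Hecke relations
-/

set_option autoImplicit false

open scoped BigOperators

namespace Pool.Agent.WHC.H97

open Pool.Agent.DEN Pool.Agent.TMP Pool.Agent.WHC

/-! ## Elementary facts on `ex`, `wA` -/

section
variable {r : ℕ}

theorem ex_zero : (ex 0 : CQ r) = 1 := rfl

theorem ex_add (l m : Fin r → ℤ) : (ex (l + m) : CQ r) = ex l * ex m := by
  unfold ex
  rw [AddMonoidAlgebra.single_mul_single, mul_one]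

theorem ex_neg_mul (l : Fin r → ℤ) : (ex (-l) : CQ r) * ex l = 1 := by
  rw [← ex_add, neg_add_cancel, ex_zero]

theorem ex_mul_neg (l : Fin r → ℤ) : (ex l : CQ r) * ex (-l) = 1 := by
  rw [← ex_add, add_neg_cancel, ex_zero]

theorem ex_ne (l : Fin r → ℤ) : (ex l : CQ r) ≠ 0 := by
  intro h
  have := ex_mul_neg l
  rw [h, zero_mul] at this
  exact zero_ne_one this

theorem ex_nsmul (k : ℕ) (l : Fin r → ℤ) : (ex (k • l) : CQ r) = ex l ^ k := by
  induction k with
  | zero => rw [zero_smul, pow_zero, ex_zero]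
  | succ k ih => rw [succ_nsmul, ex_add, ih, pow_succ]

theorem wA_ex (w : LA r) (l : Fin r → ℤ) : wA w (ex l) = ex (w l) := by
  unfold wA ex
  rw [AddMonoidAlgebra.domCongr_single]
  rfl

theorem wA_mul (v w : LA r) (a : CQ r) : wA (v * w) a = wA v (wA w a) := by
  unfold wA
  ext μ
  simp only [AddMonoidAlgebra.coeff_domCongr]
  rfl

theorem wA_one (a : CQ r) : wA (1 : LA r) a = a := by
  unfold wA
  ext μ
  simp only [AddMonoidAlgebra.coeff_domCongr]
  rfl

theorem wA_intCast (w : LA r) (n : ℤ) : wA w (n : CQ r) = (n : CQ r) := map_intCast _ _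

end

/-! ## The regions near a wall -/

section
variable {r : ℕ} {C : Matrix (Fin r) (Fin r) ℤ}

/-- the region `Ω_R` at the wall `i` -/
def Om (C : Matrix (Fin r) (Fin r) ℤ) (i : Fin r) (R : ℤ) : Set (Fin r → ℤ) :=
  {l | ∀ β : Rt C, β.Pos → β.1 ≠ al i → R ≤ ip C β.1 l}

theorem Om_mono {i : Fin r} {R R' : ℤ} (h : R' ≤ R) {l : Fin r → ℤ} (hl : l ∈ Om C i R) :
    l ∈ Om C i R' := fun β hβ hne => h.trans (hl β hβ hne)

theorem exists_B (hC : SimplyLaced C) (μ : Fin r → ℤ) :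
    ∃ B : ℤ, 0 ≤ B ∧ ∀ β : Rt C, |ip C β.1 μ| ≤ B := by
  have : Finite (Rt C) := H22.hRF r C hC
  obtain ⟨B, hB⟩ := (Set.finite_range fun β : Rt C => |ip C β.1 μ|).bddAbove
  exact ⟨max B 0, le_max_right _ _, fun β => (hB ⟨β, rfl⟩).trans (le_max_left _ _)⟩

theorem Om_add {i : Fin r} {μ : Fin r → ℤ} {B : ℤ} (hB : ∀ β : Rt C, |ip C β.1 μ| ≤ B) {R : ℤ}
    {l : Fin r → ℤ} (hl : l ∈ Om C i R) : l + μ ∈ Om C i (R - B) := by
  intro β hβ hne
  have h1 := hl β hβ hne
  have h2 := (abs_le.1 (hB β)).1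
  rw [ip_add_right]
  omega

/-- the reflection `l ↦ s_i(l + ρ) - ρ` -/
def dt (C : Matrix (Fin r) (Fin r) ℤ) (i : Fin r) (l : Fin r → ℤ) : Fin r → ℤ :=
  l - (ip C (al i) l + 1) • al i

theorem ip_al_self (hC : SimplyLaced C) (i : Fin r) : ip C (al i) (al i) = 2 := by
  rw [ip_al_al]
  exact hC.diag i

theorem ip_dt (hC : SimplyLaced C) (i : Fin r) (l : Fin r → ℤ) :
    ip C (al i) (dt C i l) = -ip C (al i) l - 2 := by
  unfold dt
  rw [ip_sub_right, ip_smul_right, ip_al_self hC]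
  ring

theorem dt_dt (hC : SimplyLaced C) (i : Fin r) (l : Fin r → ℤ) : dt C i (dt C i l) = l := by
  have h := ip_dt hC i l
  have e : dt C i (dt C i l) = dt C i l - (ip C (al i) (dt C i l) + 1) • al i := rfl
  rw [e, h]
  unfold dt
  module

theorem dt_add (hC : SimplyLaced C) (i : Fin r) (l μ : Fin r → ℤ) :
    dt C i (l + μ) = dt C i l + srefE hC i μ := by
  unfold dt
  rw [srefE_apply, ip_add_right, hC.ip_comm μ (al i)]
  module

theorem sE_apply (hC : SimplyLaced C) (i : Fin r) (μ : Fin r → ℤ) :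
    sE hC i μ = μ - ip C μ (al i) • al i := rfl

theorem sE_dt (hC : SimplyLaced C) (i : Fin r) (l : Fin r → ℤ) :
    sE hC i (dt C i l) = l + al i := by
  rw [sE_apply, hC.ip_comm, ip_dt hC]
  unfold dt
  module

theorem sE_sE (hC : SimplyLaced C) (i : Fin r) : sE hC i * sE hC i = 1 := by
  ext l : 1
  exact sref_sref hC i l

theorem hat_dt (hC : SimplyLaced C) {Y : Type*} [AddCommGroup Y] (i : Fin r)
    (y : (Fin r → ℤ) → Y) (l : Fin r → ℤ) : hat C i y (dt C i l) = -hat C i y l := by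
  have h := ip_dt hC i l
  have hdd : dt C i l - (ip C (al i) (dt C i l) + 1) • al i = l := dt_dt hC i l
  unfold hat
  rw [hdd]
  rcases lt_trichotomy (ip C (al i) l) (-1) with h1 | h1 | h1
  · rw [if_pos (by omega), if_neg (by omega), if_neg (by omega), neg_neg]
    rfl
  · rw [if_neg (by omega), if_pos (by omega), if_neg (by omega), if_pos h1, neg_zero]
  · rw [if_neg (by omega), if_neg (by omega), if_pos (by omega)]

theorem hat_self {Y : Type*} [Zero Y] [Neg Y] {i : Fin r} {l : Fin r → ℤ}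
    (h : 0 ≤ ip C (al i) l) (y : (Fin r → ℤ) → Y) : hat C i y l = y l := if_pos h

theorem Om_dt (hC : SimplyLaced C) {i : Fin r} {R : ℤ} {l : Fin r → ℤ} (hl : l ∈ Om C i R) :
    dt C i l ∈ Om C i (R - 1) := by
  intro β hβ hne
  have hne' : β ≠ hC.sr i := fun h => hne (by rw [h]; rfl)
  obtain ⟨h1, h2⟩ := (H22.hRD r C hC).2.1 i β
    ⟨β.1 - ip C β.1 (al i) • al i, by
      have := β.2
      rw [ip_sub_left, ip_sub_right, ip_sub_right, ip_smul_left, ip_smul_right, ip_smul_left,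
        ip_smul_right, ip_al_self hC, hC.ip_comm (al i) β.1, this]
      ring⟩ hβ hne' rfl
  have h3 := hl _ h1 (fun h => h2 (Subtype.ext h))
  have h4 : ip C β.1 (dt C i l) = ip C (β.1 - ip C β.1 (al i) • al i) l - ip C β.1 (al i) := by
    unfold dt
    rw [ip_sub_right, ip_smul_right, ip_sub_left, ip_smul_left]
    ring
  have h5 : ip C β.1 (al i) ≤ 1 := by
    have h6 := (hC.ip_bound β (hC.sr i)).2
    have h7 : ip C β.1 (al i) ≠ 2 := fun h => hne' (hC.ip_eq_two (β := β) (γ := hC.sr i) h)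
    have h8 : ip C β.1 (hC.sr i).1 = ip C β.1 (al i) := rfl
    omega
  have h9 : R ≤ ip C (β.1 - ip C β.1 (al i) • al i) l := h3
  omega

theorem Om_of_deep (hC : SimplyLaced C) {i : Fin r} {R : ℤ} (hR : 0 ≤ R) {l : Fin r → ℤ}
    (hl : ∀ j, R ≤ ip C (al j) l) : l ∈ Om C i R := by
  intro β hβ _
  have h1 := (H22.hRS r C hC).2.2.2 β.1 l (fun j => hR.trans (hl j)) hβ
  obtain ⟨j, hj⟩ : ∃ j, 1 ≤ β.1 j := by
    by_contra h
    push Not at h
    have h0 : β.1 = 0 := funext fun j => by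
      have := hβ j
      have := h j
      show β.1 j = 0
      omega
    have := β.2
    rw [h0, ip_zero_left] at this
    omega
  have h2 := h1 j
  have h3 := hl j
  nlinarith

theorem Om_sr (hC : SimplyLaced C) {i j : Fin r} (hij : j ≠ i) {R : ℤ} {l : Fin r → ℤ}
    (hl : l ∈ Om C i R) : R ≤ ip C (al j) l := by
  refine hl (hC.sr j) (fun k => ?_) ?_
  · show 0 ≤ (al j : Fin r → ℤ) k
    unfold al
    by_cases h : k = j
    · subst h
      rw [Pi.single_eq_same]
      norm_num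
    · rw [Pi.single_eq_of_ne h]
  · intro h
    have h1 : (al j : Fin r → ℤ) = al i := h
    unfold al at h1
    have h2 := congrFun h1 j
    rw [Pi.single_eq_same, Pi.single_eq_of_ne hij] at h2
    omega

theorem tr_pos (hWey : WeyStmt) (hC : SimplyLaced C) (β : Rt C) (hβ : β.Pos) :
    2 ≤ ip C β.1 (tr C) := by
  have h1 := (hWey r C hC).2.1
  have h2 : tr C ∈ {l : Fin r → ℤ | ∀ β : Rt C, β.Pos → 2 ≤ ip C β.1 l} := by
    intro β hβ
    have h1' := (H22.hRS r C hC).2.2.2 β.1 (tr C) (fun j => by rw [h1]; norm_num) hβ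
    obtain ⟨j, hj⟩ : ∃ j, 1 ≤ β.1 j := by
      by_contra h
      push Not at h
      have h0 : β.1 = 0 := funext fun j => by
        have := hβ j
        have := h j
        show β.1 j = 0
        omega
      have := β.2
      rw [h0, ip_zero_left] at this
      omega
    have h2 := h1' j
    rw [h1] at h2
    omega
  exact h2 β hβ

theorem Om_tr (hWey : WeyStmt) (hC : SimplyLaced C) {i : Fin r} {R : ℤ} {l : Fin r → ℤ}
    (hl : l ∈ Om C i R) (k : ℕ) : l + k • tr C ∈ Om C i (R + 2 * k) := by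
  intro β hβ hne
  have h1 := hl β hβ hne
  have h2 := tr_pos hWey hC β hβ
  rw [ip_add_right, ← natCast_zsmul, ip_smul_right]
  nlinarith [Int.natCast_nonneg k]

/-- A function which is eventually invariant under all the translations is constant. -/
theorem const_of_shift (hWey : WeyStmt) (hC : SimplyLaced C) {Z : Type*} (i : Fin r)
    (g : (Fin r → ℤ) → Z) (R : ℤ) (h1 : ∀ l ∈ Om C i R, g (l + tr C) = g l)
    (h2 : ∀ μ, ∃ R', ∀ l ∈ Om C i R', g (l + μ) = g l) :
    ∀ l ∈ Om C i R, ∀ l' ∈ Om C i R, g l = g l' := by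
  have key : ∀ l ∈ Om C i R, ∀ k : ℕ, g (l + k • tr C) = g l := by
    intro l hl k
    induction k with
    | zero => rw [zero_smul, add_zero]
    | succ k ih =>
      rw [succ_nsmul, ← add_assoc, h1 _ (Om_mono (by omega) (Om_tr hWey hC hl k)), ih]
  intro l hl l' hl'
  obtain ⟨R', hR'⟩ := h2 (l' - l)
  set k : ℕ := (R' - R).toNat with hk
  have h3 : l + k • tr C ∈ Om C i R' := Om_mono (by omega) (Om_tr hWey hC hl k)
  have h4 := hR' _ h3
  have h5 : l + k • tr C + (l' - l) = l' + k • tr C := by abel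
  rw [h5, key l hl k, key l' hl' k] at h4
  exact h4.symm

end

/-! ## Functions near a wall, as a module -/

section
variable {r : ℕ} {C : Matrix (Fin r) (Fin r) ℤ} {X : Type}

/-- the functions which vanish on some `Ω_R` -/
def NN (C : Matrix (Fin r) (Fin r) ℤ) (X : Type) (i : Fin r) :
    Submodule (CQ r) ((Fin r → ℤ) → X → CQ r) where
  carrier := {f | ∃ R, ∀ l ∈ Om C i R, f l = 0}
  add_mem' := by
    rintro f g ⟨R, hR⟩ ⟨R', hR'⟩
    refine ⟨max R R', fun l hl => ?_⟩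
    rw [Pi.add_apply, hR l (Om_mono (le_max_left _ _) hl), hR' l (Om_mono (le_max_right _ _) hl),
      add_zero]
  zero_mem' := ⟨0, fun _ _ => rfl⟩
  smul_mem' := by
    rintro a f ⟨R, hR⟩
    refine ⟨R, fun l hl => ?_⟩
    rw [Pi.smul_apply, hR l hl, smul_zero]

/-- the shift -/
def Sf (X : Type) (μ : Fin r → ℤ) : Module.End (CQ r) ((Fin r → ℤ) → X → CQ r) where
  toFun f l := f (l + μ)
  map_add' _ _ := rfl
  map_smul' _ _ := rfl

theorem Sf_apply (μ : Fin r → ℤ) (f : (Fin r → ℤ) → X → CQ r) (l : Fin r → ℤ) :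
    Sf X μ f l = f (l + μ) := rfl

theorem Sf_pow (μ : Fin r → ℤ) (k : ℕ) (f : (Fin r → ℤ) → X → CQ r) (l : Fin r → ℤ) :
    (Sf X μ ^ k) f l = f (l + k • μ) := by
  induction k generalizing f l with
  | zero => rw [pow_zero, zero_smul, add_zero]; rfl
  | succ k ih =>
    rw [pow_succ]
    show (Sf X μ ^ k) (Sf X μ f) l = _
    rw [ih, Sf_apply, succ_nsmul, ← add_assoc]

theorem aeval_Sf (μ : Fin r → ℤ) (p : Polynomial (CQ r)) (f : (Fin r → ℤ) → X → CQ r)
    (l : Fin r → ℤ) : Polynomial.aeval (Sf X μ) p f l =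
      ∑ k ∈ Finset.range (p.natDegree + 1), p.coeff k • f (l + k • μ) := by
  rw [Polynomial.aeval_eq_sum_range, LinearMap.sum_apply, Finset.sum_apply]
  refine Finset.sum_congr rfl fun k _ => ?_
  rw [LinearMap.smul_apply, Pi.smul_apply, Sf_pow]

theorem Sf_NN (hC : SimplyLaced C) (i : Fin r) (μ : Fin r → ℤ) :
    NN C X i ≤ (NN C X i).comap (Sf X μ) := by
  rintro f ⟨R, hR⟩
  obtain ⟨B, _, hB⟩ := exists_B hC μ
  refine ⟨R + B, fun l hl => ?_⟩
  rw [Sf_apply]
  refine hR _ ?_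
  have := Om_add hB hl
  rwa [add_sub_cancel_right] at this

/-- the shift on the quotient -/
noncomputable def Sq (hC : SimplyLaced C) (X : Type) (i : Fin r) (μ : Fin r → ℤ) :
    Module.End (CQ r) (((Fin r → ℤ) → X → CQ r) ⧸ NN C X i) :=
  (NN C X i).mapQ (NN C X i) (Sf X μ) (Sf_NN hC i μ)

theorem Sq_mk (hC : SimplyLaced C) (i : Fin r) (μ : Fin r → ℤ) (f : (Fin r → ℤ) → X → CQ r) :
    Sq hC X i μ (Submodule.Quotient.mk f) = Submodule.Quotient.mk (Sf X μ f) := rfl

theorem Sq_pow_mk (hC : SimplyLaced C) (i : Fin r) (μ : Fin r → ℤ) (k : ℕ)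
    (f : (Fin r → ℤ) → X → CQ r) :
    (Sq hC X i μ ^ k) (Submodule.Quotient.mk f) = Submodule.Quotient.mk ((Sf X μ ^ k) f) := by
  induction k generalizing f with
  | zero => rfl
  | succ k ih =>
    rw [pow_succ, pow_succ]
    show (Sq hC X i μ ^ k) (Sq hC X i μ (Submodule.Quotient.mk f)) =
      Submodule.Quotient.mk ((Sf X μ ^ k) (Sf X μ f))
    rw [Sq_mk, ih]

theorem aeval_Sq_mk (hC : SimplyLaced C) (i : Fin r) (μ : Fin r → ℤ) (p : Polynomial (CQ r))
    (f : (Fin r → ℤ) → X → CQ r) :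
    Polynomial.aeval (Sq hC X i μ) p (Submodule.Quotient.mk f) =
      (Submodule.Quotient.mk (Polynomial.aeval (Sf X μ) p f) :
        ((Fin r → ℤ) → X → CQ r) ⧸ NN C X i) := by
  rw [Polynomial.aeval_eq_sum_range, Polynomial.aeval_eq_sum_range, LinearMap.sum_apply,
    LinearMap.sum_apply]
  have h : ∀ (s : Finset ℕ) (F : ℕ → (Fin r → ℤ) → X → CQ r),
      (Submodule.Quotient.mk (∑ k ∈ s, F k) : ((Fin r → ℤ) → X → CQ r) ⧸ NN C X i) =
        ∑ k ∈ s, Submodule.Quotient.mk (F k) := fun s F => map_sum (NN C X i).mkQ F s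
  rw [h]
  refine Finset.sum_congr rfl fun k _ => ?_
  rw [LinearMap.smul_apply, LinearMap.smul_apply, Sq_pow_mk, Submodule.Quotient.mk_smul]

theorem torsionFree (i : Fin r) (a : CQ r) (v : ((Fin r → ℤ) → X → CQ r) ⧸ NN C X i)
    (ha : a ≠ 0) (h : a • v = 0) : v = 0 := by
  obtain ⟨f, rfl⟩ := Submodule.Quotient.mk_surjective _ v
  rw [← Submodule.Quotient.mk_smul, Submodule.Quotient.mk_eq_zero] at h
  obtain ⟨R, hR⟩ := h
  rw [Submodule.Quotient.mk_eq_zero]
  refine ⟨R, fun l hl => ?_⟩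
  have h1 := hR l hl
  funext x
  have h2 := congrFun h1 x
  have h3 : a * f l x = 0 := h2
  exact (mul_eq_zero.1 h3).resolve_left ha

end

/-! ## The Hecke relations near a wall -/

section
variable {r : ℕ} {C : Matrix (Fin r) (Fin r) ℤ}

theorem sum_inv (hC : SimplyLaced C) {T : CQ r} (hT : T ∈ invAlg C) (i : Fin r)
    (F : (Fin r → ℤ) → CQ r) :
    ∑ μ ∈ T.coeff.support, T.coeff μ • F (srefE hC i μ) =
      ∑ μ ∈ T.coeff.support, T.coeff μ • F μ := by
  have hinv : ∀ μ, T.coeff (srefE hC i μ) = T.coeff μ := fun μ => (mem_invAlg hC T).1 hT i μ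
  have hmem : ∀ μ ∈ T.coeff.support, srefE hC i μ ∈ T.coeff.support := by
    intro μ hμ
    rw [Finsupp.mem_support_iff] at hμ ⊢
    rwa [hinv]
  refine Finset.sum_nbij' (fun μ => srefE hC i μ) (fun μ => srefE hC i μ) hmem hmem
    (fun μ _ => sref_sref hC i μ) (fun μ _ => sref_sref hC i μ) fun μ _ => ?_
  rw [hinv]

theorem wal_ext (hC : SimplyLaced C) (R : CQ r → ℤ) (y : (Fin r → ℤ) → CQ r) (hy : Wal C R y)
    {T : CQ r} (hT : T ∈ invAlg C) (i : Fin r) {l : Fin r → ℤ} (hl : l ∈ Om C i (R T + 1)) :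
    T * hat C i y l = ∑ μ ∈ T.coeff.support, T.coeff μ • hat C i y (l + μ) := by
  rcases lt_trichotomy (ip C (al i) l) (-1) with h1 | h1 | h1
  · have h2 : ip C (al i) (dt C i l) = -ip C (al i) l - 2 := ip_dt hC i l
    have h3 := hy T hT i (dt C i l) (by omega) (fun j hj => by
      have := Om_sr hC hj (Om_dt hC hl)
      omega)
    have h4 : hat C i y l = -y (dt C i l) := by
      have h5 := hat_dt hC i y l
      rw [hat_self (by omega)] at h5
      rw [h5, neg_neg]
    rw [h4, mul_neg, h3, ← Finset.sum_neg_distrib, ← sum_inv hC hT i (fun μ => hat C i y (l + μ))]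
    refine Finset.sum_congr rfl fun μ _ => ?_
    have h6 : dt C i l + μ = dt C i (l + srefE hC i μ) := by
      rw [dt_add hC]
      congr 1
      exact (sref_sref hC i μ).symm
    rw [h6, hat_dt hC, smul_neg, neg_neg]
  · have h2 : dt C i l = l := by
      unfold dt
      rw [h1, neg_add_cancel, zero_smul, sub_zero]
    have h3 : hat C i y l = 0 := by
      unfold hat
      rw [if_neg (by omega), if_pos h1]
    rw [h3, mul_zero]
    have h4 : ∑ μ ∈ T.coeff.support, T.coeff μ • hat C i y (l + μ) =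
        -∑ μ ∈ T.coeff.support, T.coeff μ • hat C i y (l + μ) := by
      conv_lhs => rw [← sum_inv hC hT i (fun μ => hat C i y (l + μ))]
      rw [← Finset.sum_neg_distrib]
      refine Finset.sum_congr rfl fun μ _ => ?_
      have h6 : l + srefE hC i μ = dt C i (l + μ) := by
        rw [dt_add hC, h2]
      rw [h6, hat_dt hC, smul_neg]
    set S := ∑ μ ∈ T.coeff.support, T.coeff μ • hat C i y (l + μ) with hS
    have h5 : (2 : ℂ) • S = 0 := by
      rw [two_smul]
      nth_rewrite 1 [h4]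
      exact neg_add_cancel S
    exact ((smul_eq_zero.1 h5).resolve_left two_ne_zero).symm
  · rw [hat_self (by omega)]
    exact hy T hT i l (by omega) (fun j hj => by
      have := Om_sr hC hj hl
      omega)

/-- the family of all the solutions -/
abbrev SX (C : Matrix (Fin r) (Fin r) ℤ) (R : CQ r → ℤ) : Type :=
  {y : (Fin r → ℤ) → CQ r // (∀ l, y l ∈ invAlg C) ∧ Wal C R y}

/-- the universal solution -/
def Yb (C : Matrix (Fin r) (Fin r) ℤ) (R : CQ r → ℤ) : (Fin r → ℤ) → SX C R → CQ r :=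
  fun l y => y.1 l

theorem hat_Yb (R : CQ r → ℤ) (i : Fin r) (l : Fin r → ℤ) (y : SX C R) :
    hat C i (Yb C R) l y = hat C i y.1 l := by
  unfold hat
  split_ifs <;> rfl

theorem hat_inv (i : Fin r) {y : (Fin r → ℤ) → CQ r} (hy : ∀ l, y l ∈ invAlg C)
    (l : Fin r → ℤ) : hat C i y l ∈ invAlg C := by
  unfold hat
  split_ifs
  · exact hy _
  · exact zero_mem _
  · exact neg_mem (hy _)

/-- the conclusions of ABS at the wall `i` -/
theorem at_wall (hWey : WeyStmt) (hC : SimplyLaced C) (R : CQ r → ℤ) {n : ℕ} (w : Fin n → LA r)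
    (Q : Fin n → Polynomial (CQ r)) (η : Fin n → CQ r) (dsc : CQ r) (μ₀ : Fin r → ℤ)
    (habs : ∀ (Y : Type) [AddCommGroup Y] [Module (CQ r) Y],
        (∀ (a : CQ r) (v : Y), a ≠ 0 → a • v = 0 → v = 0) →
        ∀ S : (Fin r → ℤ) → Module.End (CQ r) Y, (S 0 = 1) → (∀ μ ν, S (μ + ν) = S μ * S ν) →
        ∀ y : Y, (∀ T ∈ invAlg C, T • y =
          ∑ μ ∈ T.coeff.support, (algebraMap ℂ (CQ r) (T.coeff μ)) • S μ y) →
        (∀ a μ, S μ (Polynomial.aeval (S μ₀) (Q a) y) =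
          ex (w a μ) • Polynomial.aeval (S μ₀) (Q a) y) ∧
        dsc • y = ∑ a, η a • Polynomial.aeval (S μ₀) (Q a) y)
    (i : Fin r) : ∃ R₁ : ℤ, ∀ l ∈ Om C i R₁,
      dsc • hat C i (Yb C R) l =
        ∑ a, η a • Polynomial.aeval (Sf (SX C R) μ₀) (Q a) (hat C i (Yb C R)) l ∧
      ∀ a, ∀ l' ∈ Om C i R₁,
        ex (-(w a l)) • Polynomial.aeval (Sf (SX C R) μ₀) (Q a) (hat C i (Yb C R)) l =
        ex (-(w a l')) • Polynomial.aeval (Sf (SX C R) μ₀) (Q a) (hat C i (Yb C R)) l' := by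
  have hS0 : Sq hC (SX C R) i 0 = 1 := by
    refine LinearMap.ext fun v => ?_
    obtain ⟨f, rfl⟩ := Submodule.Quotient.mk_surjective _ v
    rw [Sq_mk]
    show Submodule.Quotient.mk _ = Submodule.Quotient.mk f
    congr 1
    funext l
    rw [Sf_apply, add_zero]
  have hSadd : ∀ μ ν, Sq hC (SX C R) i (μ + ν) = Sq hC (SX C R) i μ * Sq hC (SX C R) i ν := by
    intro μ ν
    refine LinearMap.ext fun v => ?_
    obtain ⟨f, rfl⟩ := Submodule.Quotient.mk_surjective _ v
    rw [Module.End.mul_apply]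
    rw [Sq_mk, Sq_mk, Sq_mk]
    congr 1
    funext l
    rw [Sf_apply, Sf_apply, Sf_apply, add_assoc]
  have hsum : ∀ (s : Finset (Fin r → ℤ)) (F : (Fin r → ℤ) → (Fin r → ℤ) → SX C R → CQ r),
      (Submodule.Quotient.mk (∑ k ∈ s, F k) :
        ((Fin r → ℤ) → SX C R → CQ r) ⧸ NN C (SX C R) i) =
        ∑ k ∈ s, Submodule.Quotient.mk (F k) :=
    fun s F => map_sum (NN C (SX C R) i).mkQ F s
  obtain ⟨h1, h2⟩ := habs (((Fin r → ℤ) → SX C R → CQ r) ⧸ NN C (SX C R) i)
    (fun a v ha h => torsionFree i a v ha h) (Sq hC (SX C R) i) hS0 hSadd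
    (Submodule.Quotient.mk (hat C i (Yb C R))) (by
      intro T hT
      have e : ∀ μ, (algebraMap ℂ (CQ r) (T.coeff μ)) • Sq hC (SX C R) i μ
          (Submodule.Quotient.mk (hat C i (Yb C R))) = Submodule.Quotient.mk
            ((algebraMap ℂ (CQ r) (T.coeff μ)) • Sf (SX C R) μ (hat C i (Yb C R))) := fun μ => rfl
      rw [Finset.sum_congr rfl (fun μ _ => e μ), ← hsum, ← Submodule.Quotient.mk_smul,
        Submodule.Quotient.eq]
      refine ⟨R T + 1, fun l hl => ?_⟩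
      funext y
      rw [Pi.sub_apply, Pi.sub_apply]
      refine sub_eq_zero.2 ?_
      rw [Finset.sum_apply, Finset.sum_apply]
      show T * hat C i (Yb C R) l y = _
      rw [hat_Yb, wal_ext hC R y.1 y.2.2 hT i hl]
      refine Finset.sum_congr rfl fun μ _ => ?_
      show _ = (algebraMap ℂ (CQ r) (T.coeff μ)) * hat C i (Yb C R) (l + μ) y
      rw [hat_Yb, Algebra.smul_def])
  rw [Finset.sum_congr rfl (fun a _ => by rw [aeval_Sq_mk])] at h2
  have e2 : ∀ a, η a • (Submodule.Quotient.mk (Polynomial.aeval (Sf (SX C R) μ₀) (Q a)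
      (hat C i (Yb C R))) : ((Fin r → ℤ) → SX C R → CQ r) ⧸ NN C (SX C R) i) =
      Submodule.Quotient.mk (η a • Polynomial.aeval (Sf (SX C R) μ₀) (Q a)
        (hat C i (Yb C R))) := fun a => rfl
  have hsum' : ∀ (F : Fin n → (Fin r → ℤ) → SX C R → CQ r),
      (Submodule.Quotient.mk (∑ k, F k) :
        ((Fin r → ℤ) → SX C R → CQ r) ⧸ NN C (SX C R) i) =
        ∑ k, Submodule.Quotient.mk (F k) :=
    fun F => map_sum (NN C (SX C R) i).mkQ F Finset.univ
  rw [Finset.sum_congr rfl (fun a _ => e2 a), ← hsum', ← Submodule.Quotient.mk_smul,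
    Submodule.Quotient.eq] at h2
  obtain ⟨R₂, hR₂⟩ := h2
  -- the shifts
  have h3 : ∀ a μ, ∃ R', ∀ l ∈ Om C i R',
      Polynomial.aeval (Sf (SX C R) μ₀) (Q a) (hat C i (Yb C R)) (l + μ) =
        ex (w a μ) • Polynomial.aeval (Sf (SX C R) μ₀) (Q a) (hat C i (Yb C R)) l := by
    intro a μ
    have h := h1 a μ
    rw [aeval_Sq_mk, Sq_mk, ← Submodule.Quotient.mk_smul, Submodule.Quotient.eq] at h
    obtain ⟨R', hR'⟩ := h
    exact ⟨R', fun l hl => sub_eq_zero.1 (hR' l hl)⟩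
  have h4 : ∀ a μ, ∃ R', ∀ l ∈ Om C i R',
      ex (-(w a (l + μ))) • Polynomial.aeval (Sf (SX C R) μ₀) (Q a) (hat C i (Yb C R)) (l + μ) =
        ex (-(w a l)) • Polynomial.aeval (Sf (SX C R) μ₀) (Q a) (hat C i (Yb C R)) l := by
    intro a μ
    obtain ⟨R', hR'⟩ := h3 a μ
    refine ⟨R', fun l hl => ?_⟩
    rw [hR' l hl, smul_smul, map_add, neg_add, ex_add, mul_assoc, ex_neg_mul, mul_one]
  choose Rt' hRt' using fun a => h4 a (tr C)
  obtain ⟨M, hM⟩ : ∃ M : ℤ, ∀ a, Rt' a ≤ M := by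
    obtain ⟨M, hM⟩ := (Set.finite_range Rt').bddAbove
    exact ⟨M, fun a => hM ⟨a, rfl⟩⟩
  refine ⟨max R₂ M, fun l hl => ⟨?_, fun a l' hl' => ?_⟩⟩
  · have h5 := hR₂ l (Om_mono (le_max_left _ _) hl)
    have h6 := sub_eq_zero.1 h5
    rw [Finset.sum_apply] at h6
    exact h6
  · exact const_of_shift hWey hC i
      (fun l => ex (-(w a l)) • Polynomial.aeval (Sf (SX C R) μ₀) (Q a) (hat C i (Yb C R)) l) M
      (fun l hl => hRt' a l (Om_mono (hM a) hl)) (h4 a) l (Om_mono (le_max_right _ _) hl) l'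
      (Om_mono (le_max_right _ _) hl')

end

/-! ## The coefficient -/

section
variable {r : ℕ} {C : Matrix (Fin r) (Fin r) ℤ}

theorem wA_natDegree (v : LA r) (p : Polynomial (CQ r)) :
    (p.map ((wA v).toRingEquiv.toRingHom)).natDegree = p.natDegree :=
  Polynomial.natDegree_map_eq_of_injective (wA v).injective p

/-- the antisymmetry of the coefficient -/
theorem coef_anti (hWey : WeyStmt) (hC : SimplyLaced C) [Fintype (Wg hC)] (μ₀ : Fin r → ℤ)
    (Q₁ : Polynomial (CQ r)) (hQ0 : ∀ v ∈ Wg hC, v ≠ 1 → Q₁.eval (ex (v μ₀)) = 0)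
    (hQ1 : Q₁.eval (ex μ₀) ≠ 0) (dsc : CQ r) (i : Fin r) (R₁ : ℤ) (y : (Fin r → ℤ) → CQ r)
    (c : CQ r)
    (h : ∀ l ∈ Om C i R₁, dsc * hat C i y l = ∑ v : Wg hC, wA v.1 (c * ex l)) :
    wA (sE hC i) c = -(ex (-(al i)) * c) := by
  classical
  have hs := ((hWey r C hC).2.2.2.2.1 i).1
  set d : CQ r := wA (sE hC i) c * ex (al i) + c with hd
  have h1 : ∀ l ∈ Om C i (R₁ + 1), ∑ v : Wg hC, wA v.1 (d * ex l) = 0 := by
    intro l hl
    have e1 := h (dt C i l) (by
      have := Om_dt hC hl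
      rwa [add_sub_cancel_right] at this)
    have e2 := h l (Om_mono (by omega) hl)
    rw [hat_dt hC, mul_neg, e2] at e1
    have e3 : ∑ v : Wg hC, wA v.1 (c * ex (dt C i l)) =
        ∑ v : Wg hC, wA v.1 (wA (sE hC i) c * ex (al i) * ex l) := by
      rw [← Equiv.sum_comp (Equiv.mulRight (⟨sE hC i, hs⟩ : Wg hC))]
      refine Finset.sum_congr rfl fun v _ => ?_
      have e4 : ((Equiv.mulRight (⟨sE hC i, hs⟩ : Wg hC)) v).1 = v.1 * sE hC i := rfl
      rw [e4, wA_mul, map_mul (wA (sE hC i)), wA_ex, sE_dt, ex_add, mul_assoc, mul_comm (ex l)]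
    rw [e3] at e1
    have e5 : ∀ v : Wg hC, wA v.1 (d * ex l) =
        wA v.1 (wA (sE hC i) c * ex (al i) * ex l) + wA v.1 (c * ex l) := by
      intro v
      rw [hd, add_mul, map_add]
    rw [Finset.sum_congr rfl (fun v _ => e5 v), Finset.sum_add_distrib, ← e1, neg_add_cancel]
  -- a deep point
  obtain ⟨B, hB0, hB⟩ := exists_B hC μ₀
  set m : ℕ := Q₁.natDegree with hm
  have hl0 : (0 : Fin r → ℤ) ∈ Om C i 0 := by
    intro β _ _
    rw [ip_zero_right]
  set k : ℕ := (R₁ + 1 + m * B).toNat with hk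
  have hl1 : k • tr C ∈ Om C i (R₁ + 1 + m * B) := by
    have h9 := Om_tr hWey hC hl0 k
    rw [zero_add, zero_add] at h9
    refine Om_mono ?_ h9
    have h0 : 0 ≤ (m : ℤ) * B := mul_nonneg (Int.natCast_nonneg m) hB0
    omega
  have hl2 : ∀ j ≤ m, k • tr C + j • μ₀ ∈ Om C i (R₁ + 1) := by
    intro j hj
    have hB' : ∀ β : Rt C, |ip C β.1 (j • μ₀)| ≤ m * B := by
      intro β
      rw [← natCast_zsmul, ip_smul_right, abs_mul]
      have h1 := hB β
      have h2 : |((j : ℕ) : ℤ)| = j := abs_of_nonneg (Int.natCast_nonneg j)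
      rw [h2]
      have h3 : ((j : ℕ) : ℤ) ≤ m := by exact_mod_cast hj
      have h4 := abs_nonneg (ip C β.1 μ₀)
      have h5 : (0 : ℤ) ≤ (j : ℤ) := Int.natCast_nonneg j
      nlinarith
    have := Om_add hB' hl1
    rwa [add_sub_cancel_right] at this
  have h2 : ∑ j ∈ Finset.range (m + 1), Q₁.coeff j *
      ∑ v : Wg hC, wA v.1 (d * ex (k • tr C + j • μ₀)) = 0 := by
    refine Finset.sum_eq_zero fun j hj => ?_
    rw [h1 _ (hl2 j (Nat.lt_succ_iff.1 (Finset.mem_range.1 hj))), mul_zero]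
  have h3 : ∑ j ∈ Finset.range (m + 1), Q₁.coeff j *
      ∑ v : Wg hC, wA v.1 (d * ex (k • tr C + j • μ₀)) =
      ∑ v : Wg hC, wA v.1 (d * ex (k • tr C)) * Q₁.eval (ex (v.1 μ₀)) := by
    simp only [Finset.mul_sum]
    rw [Finset.sum_comm]
    refine Finset.sum_congr rfl fun v _ => ?_
    rw [Polynomial.eval_eq_sum_range, Finset.mul_sum]
    refine Finset.sum_congr rfl fun j _ => ?_
    rw [ex_add, ex_nsmul j μ₀, ← mul_assoc d, map_mul, map_pow, wA_ex]
    ring
  rw [h3, Finset.sum_eq_single (1 : Wg hC)] at h2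
  · have h4 : wA ((1 : Wg hC) : LA r) (d * ex (k • tr C)) = d * ex (k • tr C) := wA_one _
    have h5 : ((1 : Wg hC) : LA r) μ₀ = μ₀ := rfl
    rw [h4, h5] at h2
    have h6 := (mul_eq_zero.1 ((mul_eq_zero.1 h2).resolve_right hQ1)).resolve_right (ex_ne _)
    have h7 : wA (sE hC i) c * ex (al i) = -c := by
      rw [hd] at h6
      exact eq_neg_of_add_eq_zero_left h6
    calc wA (sE hC i) c = wA (sE hC i) c * (ex (al i) * ex (-(al i))) := by
          rw [ex_mul_neg, mul_one]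
      _ = -(ex (-(al i)) * c) := by
          rw [← mul_assoc, h7]
          ring
  · intro v _ hv
    rw [hQ0 v.1 v.2 (fun h => hv (Subtype.ext h)), mul_zero]
  · intro h
    exact absurd (Finset.mem_univ _) h

theorem coef_all (hWey : WeyStmt) (hC : SimplyLaced C) (c : CQ r)
    (h : ∀ i, wA (sE hC i) c = -(ex (-(al i)) * c)) :
    ∀ w ∈ Wg hC, wA w c = (sg w : CQ r) * ex (-dl C w) * c := by
  obtain ⟨_, _, h3, h4, h5, _⟩ := hWey r C hC
  have hdl1 : dl C (1 : LA r) = 0 := by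
    funext i
    show (tr C i - tr C i) / 2 = 0
    rw [sub_self]
    rfl
  intro w hw
  have hw' := hw
  unfold Wg at hw'
  induction hw' using Subgroup.closure_induction with
  | mem x hx =>
    obtain ⟨i, rfl⟩ := hx
    rw [h i, (h5 i).2.1, (h5 i).2.2]
    push_cast
    ring
  | one =>
    rw [wA_one, hdl1]
    have : sg (1 : LA r) = 1 := by
      unfold sg
      exact LinearMap.det_id
    rw [this, neg_zero, ex_zero]
    push_cast
    ring
  | mul x y hx hy h1 h2 =>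
    have hx' : x ∈ Wg hC := hx
    have hy' : y ∈ Wg hC := hy
    rw [wA_mul, h2 hy', map_mul, map_mul, wA_intCast, wA_ex, h1 hx', (h4 x hx' y hy').1,
      (h4 x hx' y hy').2, neg_add, ex_add, map_neg]
    push_cast
    ring
  | inv x hx h1 =>
    have hx' : x ∈ Wg hC := hx
    have e1 := h1 hx'
    have e2 := congrArg (wA x⁻¹) e1
    rw [← wA_mul, inv_mul_cancel, wA_one, map_mul, map_mul, wA_intCast, wA_ex] at e2
    have e3 := h4 x⁻¹ (inv_mem hx') x hx'
    rw [inv_mul_cancel, hdl1] at e3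
    have e4 : dl C x⁻¹ = -(x⁻¹ (dl C x)) := eq_neg_of_add_eq_zero_left e3.1.symm
    have e5 : sg (1 : LA r) = 1 := by
      unfold sg
      exact LinearMap.det_id
    have e6 := e3.2
    rw [e5] at e6
    have e7 : (sg x⁻¹ : CQ r) * (sg x : CQ r) = 1 := by
      rw [← Int.cast_mul, ← e6, Int.cast_one]
    rw [e4, neg_neg]
    calc wA x⁻¹ c = ((sg x⁻¹ : CQ r) * (sg x : CQ r)) *
          (ex (x⁻¹ (dl C x)) * ex (-(x⁻¹ (dl C x)))) * wA x⁻¹ c := by
          rw [e7, ex_mul_neg, one_mul, one_mul]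
      _ = (sg x⁻¹ : CQ r) * ex (x⁻¹ (dl C x)) *
          ((sg x : CQ r) * ex (x⁻¹ (-dl C x)) * wA x⁻¹ c) := by
          rw [map_neg]
          ring
      _ = (sg x⁻¹ : CQ r) * ex (x⁻¹ (dl C x)) * c := by rw [← e2]

end

/-! ## The theorem -/

theorem grm (hWey : WeyStmt) (hAbs : AbsStmt) : GrmStmt := by
  classical
  intro r C hC
  obtain ⟨n, w, Q, η, dsc, μ₀, hinj, hran, hdsc, heq, hQ0, hQ1, hdw, hη, habs⟩ := hAbs r C hC
  refine ⟨dsc, hdsc, fun R => ?_⟩
  -- the group as a finite type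
  let E : Fin n ≃ Wg hC := Equiv.ofBijective
    (fun a => ⟨w a, by rw [← SetLike.mem_coe, ← hran]; exact ⟨a, rfl⟩⟩)
    ⟨fun a b h => hinj (congrArg Subtype.val h), fun v => by
      have hv : v.1 ∈ (Wg hC : Set (LA r)) := v.2
      rw [← hran] at hv
      obtain ⟨a, ha⟩ := hv
      exact ⟨a, Subtype.ext ha⟩⟩
  have hEw : ∀ a, (E a).1 = w a := fun a => rfl
  let _ : Fintype (Wg hC) := Fintype.ofEquiv (Fin n) E
  obtain ⟨a₁, ha₁⟩ : ∃ a, w a = 1 := by
    have h1 : (1 : LA r) ∈ (Wg hC : Set (LA r)) := one_mem _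
    rw [← hran] at h1
    exact h1
  have hQa : ∀ a, Q a = (Q a₁).map ((wA (w a)).toRingEquiv.toRingHom) := fun a =>
    (heq a a₁ a (by rw [ha₁, mul_one])).1
  have hηa : ∀ a, η a = wA (w a) (η a₁) := fun a => (heq a a₁ a (by rw [ha₁, mul_one])).2
  choose R₁ hR₁ using fun i => at_wall hWey hC R w Q η dsc μ₀ habs i
  obtain ⟨M, hM⟩ : ∃ M : ℤ, ∀ i, R₁ i ≤ M := by
    obtain ⟨M, hM⟩ := (Set.finite_range R₁).bddAbove
    exact ⟨M, fun i => hM ⟨i, rfl⟩⟩
  obtain ⟨B, hB0, hB⟩ := exists_B hC μ₀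
  set m : ℕ := (Q a₁).natDegree with hm
  set k : ℕ := (max M 0 + m * B).toNat with hk
  set ls : Fin r → ℤ := k • tr C with hls
  have htr := (hWey r C hC).2.1
  have hlsj : ∀ j, M ≤ ip C (al j) ls ∧ (m : ℤ) * B ≤ ip C (al j) ls := by
    intro j
    rw [hls, ← natCast_zsmul, ip_smul_right, htr]
    have h1 : (0 : ℤ) ≤ (m : ℤ) * B := mul_nonneg (Int.natCast_nonneg m) hB0
    have h2 := le_max_left M 0
    have h3 := le_max_right M 0
    constructor <;> omega
  have hlsOm : ∀ i, ls ∈ Om C i (R₁ i) := by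
    intro i
    refine Om_mono (le_trans (hM i) (le_max_left M 0)) (Om_of_deep hC (le_max_right M 0) ?_)
    intro j
    rw [hls, ← natCast_zsmul, ip_smul_right, htr]
    have h1 : (0 : ℤ) ≤ (m : ℤ) * B := mul_nonneg (Int.natCast_nonneg m) hB0
    have h2 := le_max_right M 0
    omega
  have hdom : ∀ (i : Fin r), ∀ j ≤ m, 0 ≤ ip C (al i) (ls + j • μ₀) := by
    intro i j hj
    rw [ip_add_right, ← natCast_zsmul, ip_smul_right]
    have h1 := (hlsj i).2
    have h2 := (abs_le.1 (hB (hC.sr i))).1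
    have h3 : ip C (hC.sr i).1 μ₀ = ip C (al i) μ₀ := rfl
    rw [h3] at h2
    have h4 : ((j : ℕ) : ℤ) ≤ m := by exact_mod_cast hj
    have h5 : (0 : ℤ) ≤ (j : ℤ) := Int.natCast_nonneg j
    nlinarith
  refine ⟨max M 0, fun y hy hW => ?_⟩
  set u₁ : CQ r := ∑ j ∈ Finset.range (m + 1), (Q a₁).coeff j * y (ls + j • μ₀) with hu₁
  set c : CQ r := η a₁ * (ex (-ls) * u₁) with hc
  have hu : ∀ (i : Fin r) (a : Fin n),
      Polynomial.aeval (Sf (SX C R) μ₀) (Q a) (hat C i (Yb C R)) ls ⟨y, hy, hW⟩ =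
        wA (w a) u₁ := by
    intro i a
    rw [aeval_Sf, Finset.sum_apply, hQa a, wA_natDegree, hu₁, map_sum]
    refine Finset.sum_congr rfl fun j hj => ?_
    rw [Polynomial.coeff_map, map_mul]
    show wA (w a) ((Q a₁).coeff j) * hat C i (Yb C R) (ls + j • μ₀) ⟨y, hy, hW⟩ = _
    rw [hat_Yb, hat_self (hdom i j (Nat.lt_succ_iff.1 (Finset.mem_range.1 hj)))]
    have hmem : w a ∈ Wg hC := by
      rw [← SetLike.mem_coe, ← hran]
      exact ⟨a, rfl⟩
    rw [((hWey r C hC).2.2.2.2.2.1 _).1 (hy _) (w a) hmem]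
  have hmain : ∀ (i : Fin r), ∀ l ∈ Om C i (R₁ i),
      dsc * hat C i y l = ∑ v : Wg hC, wA v.1 (c * ex l) := by
    intro i l hl
    obtain ⟨h1, h2⟩ := hR₁ i l hl
    have h3 := congrFun h1 ⟨y, hy, hW⟩
    rw [Finset.sum_apply] at h3
    have h4 : dsc * hat C i y l = ∑ a, η a *
        Polynomial.aeval (Sf (SX C R) μ₀) (Q a) (hat C i (Yb C R)) l ⟨y, hy, hW⟩ := by
      rw [← hat_Yb R i l ⟨y, hy, hW⟩]
      exact h3
    have h5 : ∀ a, Polynomial.aeval (Sf (SX C R) μ₀) (Q a) (hat C i (Yb C R)) l ⟨y, hy, hW⟩ =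
        ex (w a l) * (ex (-(w a ls)) * wA (w a) u₁) := by
      intro a
      have h6 := congrFun (h2 a ls (hlsOm i)) ⟨y, hy, hW⟩
      have h7 : ex (-(w a l)) *
          Polynomial.aeval (Sf (SX C R) μ₀) (Q a) (hat C i (Yb C R)) l ⟨y, hy, hW⟩ =
          ex (-(w a ls)) *
          Polynomial.aeval (Sf (SX C R) μ₀) (Q a) (hat C i (Yb C R)) ls ⟨y, hy, hW⟩ := h6
      rw [← hu i a, ← h7, ← mul_assoc, ex_mul_neg, one_mul]
    rw [h4, ← Equiv.sum_comp E]
    refine Finset.sum_congr rfl fun a _ => ?_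
    rw [h5, hEw, hηa a, hc, map_mul, map_mul, map_mul, wA_ex, wA_ex, map_neg]
    ring
  refine ⟨c, ?_, fun l hl => ?_⟩
  · refine coef_all hWey hC c fun i => ?_
    refine coef_anti hWey hC μ₀ (Q a₁) (fun v hv hne => ?_) ?_ dsc i (R₁ i) y c (hmain i)
    · have hv' : v ∈ (Wg hC : Set (LA r)) := hv
      rw [← hran] at hv'
      obtain ⟨b, rfl⟩ := hv'
      exact hQ0 a₁ b (fun h => hne (by rw [← h, ha₁]))
    · have := hQ1 a₁
      rwa [ha₁] at this
  · rw [finsum_eq_sum_of_fintype]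
    rcases Nat.eq_zero_or_pos r with h0 | h0
    · subst h0
      have hl0 : ∀ x : Fin 0 → ℤ, x = 0 := fun x => Subsingleton.elim _ _
      have hW1 : ∀ v : Wg hC, v = 1 := fun v => by
        apply Subtype.ext
        apply LinearEquiv.ext
        intro x
        exact Subsingleton.elim _ _
      -- the sum has one term
      obtain ⟨h1, h2⟩ := habs (CQ 0) (fun a v ha h => (mul_eq_zero.1 h).resolve_left ha)
        (fun _ => 1) rfl (fun _ _ => (one_mul 1).symm) (y 0) (by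
          intro T _
          show T * y 0 = ∑ μ ∈ T.coeff.support, algebraMap ℂ (CQ 0) (T.coeff μ) * y 0
          rw [← Finset.sum_mul]
          congr 1
          conv_lhs => rw [← AddMonoidAlgebra.sum_coeff_single T]
          rw [Finsupp.sum]
          refine Finset.sum_congr rfl fun μ _ => ?_
          rw [hl0 μ]
          rfl)
      have e1 : ∀ a, a = a₁ := by
        intro a
        apply hinj
        rw [ha₁]
        apply LinearEquiv.ext
        intro x
        exact Subsingleton.elim _ _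
      have e2 : ∀ a, Polynomial.aeval (1 : Module.End (CQ 0) (CQ 0)) (Q a) (y 0) =
          (Q a).eval 1 * y 0 := by
        intro a
        rw [Polynomial.aeval_eq_sum_range, LinearMap.sum_apply, Polynomial.eval_eq_sum_range,
          Finset.sum_mul]
        refine Finset.sum_congr rfl fun j _ => ?_
        rw [one_pow, one_pow, LinearMap.smul_apply]
        show (Q a).coeff j * y 0 = _
        ring
      have e3 : dsc * y 0 = η a₁ * ((Q a₁).eval 1 * y 0) := by
        have e4 : dsc * y 0 = ∑ a, η a *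
            Polynomial.aeval (1 : Module.End (CQ 0) (CQ 0)) (Q a) (y 0) := h2
        rw [e4, Finset.sum_eq_single a₁ (fun b _ hb => absurd (e1 b) hb)
          (fun h => absurd (Finset.mem_univ _) h), e2]
      rw [Finset.sum_eq_single (1 : Wg hC) (fun b _ hb => absurd (hW1 b) hb)
          (fun h => absurd (Finset.mem_univ _) h)]
      have e5 : wA ((1 : Wg hC) : LA 0) (c * ex l) = c * ex l := wA_one _
      rw [e5, hl0 l, e3, hc, ex_zero, mul_one]
      congr 1
      have e6 : (ex (-ls) : CQ 0) = 1 := by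
        rw [hl0 (-ls), ex_zero]
      rw [e6, one_mul, hu₁, Polynomial.eval_eq_sum_range, Finset.sum_mul]
      refine Finset.sum_congr rfl fun j _ => ?_
      rw [one_pow, mul_one, hl0 (ls + j • μ₀)]
    · have i : Fin r := ⟨0, h0⟩
      have h1 := hmain i l (Om_mono (le_trans (hM i) (le_max_left M 0))
        (Om_of_deep hC (le_max_right M 0) hl))
      rw [hat_self ((le_max_right M 0).trans (hl i))] at h1
      rw [h1]

end Pool.Agent.WHC.H97
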