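import Pool.Agent.Helper97_WHC.StmtC

/-!
# Squad WHC, row NEW: Newton's identities
-/

set_option autoImplicit false

open scoped BigOperators

namespace Pool.Agent.WHC.H97

open Pool.Agent.WHC MvPolynomial

theorem new : NewStmt := by
  intro h hh
  refine ⟨1 / (2 * h), by positivity, fun z hz => ?_⟩
  by_contra hcon
  push Not at hcon
  have hh' : (0 : ℝ) < h := by exact_mod_cast hh
  set E : ℕ → ℂ := fun k => MvPolynomial.aeval z (MvPolynomial.esymm (Fin h) ℂ k) with hE
  have hp : ∀ i, MvPolynomial.aeval z (MvPolynomial.psum (Fin h) ℂ i) = ∑ j, z j ^ i := by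
    intro i
    unfold MvPolynomial.psum
    rw [map_sum]
    exact Finset.sum_congr rfl fun j _ => by rw [map_pow, MvPolynomial.aeval_X]
  have hE0 : E 0 = 1 := by
    simp [hE]
  have hnewton : ∀ k : ℕ, (k : ℂ) * E k = (-1) ^ (k + 1) *
      ∑ a ∈ Finset.HasAntidiagonal.antidiagonal k with a.1 < k, (-1) ^ a.1 * E a.1 * ∑ j, z j ^ a.2 := by
    intro k
    have h1 := congrArg (MvPolynomial.aeval z) (MvPolynomial.mul_esymm_eq_sum (Fin h) ℂ k)
    rw [map_mul, map_natCast, map_mul, map_pow, map_neg, map_one, map_sum] at h1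
    rw [h1]
    congr 1
    refine Finset.sum_congr rfl fun a _ => ?_
    rw [map_mul, map_mul, map_pow, map_neg, map_one, hp]
  have hsm : ∀ k : ℕ, k ≤ h → ‖E k‖ ≤ 1 ∧ (1 ≤ k → ‖E k‖ ≤ 1 / (2 * h)) := by
    intro k
    induction k using Nat.strong_induction_on with
    | _ k ih =>
      intro hk
      rcases Nat.eq_zero_or_pos k with h0 | h0
      · subst h0
        rw [hE0]
        simp
      · have hk0 : (0 : ℝ) < k := by exact_mod_cast h0
        have h1 : ‖(k : ℂ) * E k‖ ≤ k * (1 / (2 * h)) := by
          rw [hnewton k, norm_mul, norm_pow, norm_neg, norm_one, one_pow, one_mul]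
          refine (norm_sum_le _ _).trans ?_
          have h2 : ∀ a ∈ (Finset.HasAntidiagonal.antidiagonal k).filter (fun a => a.1 < k),
              ‖(-1 : ℂ) ^ a.1 * E a.1 * ∑ j, z j ^ a.2‖ ≤ 1 / (2 * h) := by
            intro a ha
            rw [Finset.mem_filter, Finset.HasAntidiagonal.mem_antidiagonal] at ha
            rw [norm_mul, norm_mul, norm_pow, norm_neg, norm_one, one_pow, one_mul]
            have h3 := (ih a.1 ha.2 (by omega)).1
            have h4 := (hcon a.2 (by omega) (by omega)).le
            calc ‖E a.1‖ * ‖∑ j, z j ^ a.2‖ ≤ 1 * (1 / (2 * h)) :=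
                  mul_le_mul h3 h4 (norm_nonneg _) zero_le_one
              _ = _ := one_mul _
          refine (Finset.sum_le_card_nsmul _ _ _ h2).trans ?_
          rw [nsmul_eq_mul]
          refine mul_le_mul_of_nonneg_right ?_ (by positivity)
          have h5 : ((Finset.HasAntidiagonal.antidiagonal k).filter (fun a => a.1 < k)).card ≤ k := by
            calc ((Finset.HasAntidiagonal.antidiagonal k).filter (fun a => a.1 < k)).card
                ≤ (Finset.range k).card := by
                  refine Finset.card_le_card_of_injOn (fun a => a.1) ?_ ?_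
                  · intro a ha
                    rw [Finset.mem_coe, Finset.mem_filter] at ha
                    exact Finset.mem_coe.2 (Finset.mem_range.2 ha.2)
                  · intro a ha b hb hab
                    rw [Finset.mem_coe, Finset.mem_filter, Finset.HasAntidiagonal.mem_antidiagonal] at ha hb
                    have : a.1 = b.1 := hab
                    ext
                    · exact this
                    · omega
              _ = k := Finset.card_range k
          exact_mod_cast h5
        rw [norm_mul, Complex.norm_natCast] at h1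
        have h6 : ‖E k‖ ≤ 1 / (2 * h) := le_of_mul_le_mul_left h1 hk0
        refine ⟨h6.trans ?_, fun _ => h6⟩
        rw [div_le_one (by positivity)]
        have : (1 : ℝ) ≤ h := by exact_mod_cast hh
        linarith
  obtain ⟨j₀, hj₀⟩ := hz
  have hroot : ∑ k ∈ Finset.range (h + 1), E k * (-z j₀) ^ (h - k) = 0 := by
    have h1 := MvPolynomial.prod_C_add_X_eq_sum_esymm (R := ℂ) (σ := Fin h)
    set φ : MvPolynomial (Fin h) ℂ →+* ℂ := (MvPolynomial.aeval z).toRingHom with hφ
    have h2 := congrArg (fun p => Polynomial.eval (-z j₀) (Polynomial.map φ p)) h1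
    simp only [Polynomial.map_prod, Polynomial.eval_prod, Polynomial.map_add, Polynomial.map_X,
      Polynomial.map_C, Polynomial.eval_add, Polynomial.eval_X, Polynomial.eval_C,
      Polynomial.map_sum, Polynomial.eval_finset_sum, Polynomial.map_mul, Polynomial.map_pow,
      Polynomial.eval_mul, Polynomial.eval_pow] at h2
    have h3 : ∏ x : Fin h, (-z j₀ + φ (MvPolynomial.X x)) = 0 := by
      refine Finset.prod_eq_zero (Finset.mem_univ j₀) ?_
      have h4 : φ (MvPolynomial.X j₀) = z j₀ := MvPolynomial.aeval_X z j₀
      rw [h4]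
      ring
    rw [h3] at h2
    rw [Fintype.card_fin] at h2
    exact h2.symm
  have h1 : (1 : ℝ) ≤ 1 / 2 := by
    rw [Finset.sum_range_succ', ] at hroot
    rw [hE0, one_mul, Nat.sub_zero] at hroot
    have h2 : ‖(-z j₀) ^ h‖ = 1 := by rw [norm_pow, norm_neg, hj₀, one_pow]
    have h3 : (-z j₀) ^ h = -∑ k ∈ Finset.range h, E (k + 1) * (-z j₀) ^ (h - (k + 1)) := by
      rw [eq_neg_iff_add_eq_zero, add_comm]
      exact hroot
    rw [h3, norm_neg] at h2
    refine (le_of_eq h2.symm).trans ?_
    refine (norm_sum_le _ _).trans ?_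
    have h4 : ∀ k ∈ Finset.range h, ‖E (k + 1) * (-z j₀) ^ (h - (k + 1))‖ ≤ 1 / (2 * h) := by
      intro k hk
      rw [Finset.mem_range] at hk
      rw [norm_mul, norm_pow, norm_neg, hj₀, one_pow, mul_one]
      exact (hsm (k + 1) (by omega)).2 (by omega)
    refine (Finset.sum_le_card_nsmul _ _ _ h4).trans ?_
    rw [Finset.card_range, nsmul_eq_mul]
    apply le_of_eq
    field_simp
  norm_num at h1

end Pool.Agent.WHC.H97
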