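import Pool.Agent.Helper97_WHC.Asm
import Pool.Agent.Helper97_WHC.CNX
import Pool.Agent.Helper97_WHC.NEW
import Pool.Agent.Helper20_WHC.PRC
import Pool.Agent.Helper92_WHC.ADK
import Pool.Agent.Helper15_WHC.JEB
import Pool.Agent.Helper35_WHC.EIB
import Pool.Agent.Helper63_WHC.RCG
import Pool.Agent.Helper41_WHC.TUR

/-!
# Squads WHT, WHC: the final statement
-/

set_option autoImplicit false

open scoped BigOperators

namespace Pool.Agent.WHC.H97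

open Pool.Agent.DEN Pool.Agent.TMP Pool.Agent.TMP.H27 Pool.Agent.WHC Pool.Agent.WHT

theorem hCnx : CnxStmt := cnx hChx
theorem hTur : TurStmt := WHC.H41.tur WHC.H63.rcg new
theorem hEib : EibStmt := WHC.H35.eib WHC.H20.prc WHC.H92.adk WHC.H15.jeb

/-- The theorem. -/
theorem final {r : ℕ} (C : Matrix (Fin r) (Fin r) ℤ) (hC : SimplyLaced C) :
    ∃ A b B : ℕ, ∀ (K : Type) [Field K] [Finite K] (N : Polynomial K), 0 < N.natDegree →
      (∃ (n : ℕ) (f : Fin n → Pub.X C K → ℂ) (s : Fin n → (Fin r → ℤ) → ℂ),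
        Pub.IsEigenfamily N f s ∧
          ∀ g, Pub.IsCusp N g → g ∈ Submodule.span ℂ (Set.range f)) ∧
      ∀ (n : ℕ) (f : Fin n → Pub.X C K → ℂ) (s : Fin n → (Fin r → ℤ) → ℂ),
        Pub.IsEigenfamily N f s →
        (∀ (χ : Pub.G C K → ℂ) (c : Fin r → ℤ), Pub.IsUChar N χ → Pub.IsCond χ c →
          ∀ m : Fin r → ℤ,
            (∀ i, 0 ≤ ip C (Pi.single i 1) m ∧ ip C (Pi.single i 1) m ≤ c i) →
            0 < Pub.hvol C N m ∧
            ∑ j, ‖Pub.whit N χ m (f j)‖ ^ 2 ≤ Pub.hvol C N m ∧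
            (∀ D : ℕ, (∀ i, (D : ℤ) ≤ ip C (Pi.single i 1) m ∧
                ip C (Pi.single i 1) m + D ≤ c i) →
              D * ∑ᶠ j ∈ {j | ∃ l, ‖s j l‖ ≠ 1}, ‖Pub.whit N χ m (f j)‖ ^ 2 ≤
                A * Pub.hvol C N m) ∧
            ((∃ M : Fin r → ℤ, ∀ i, ip C (Pi.single i 1) M = c i) → ∀ E : ℕ,
              (∀ i, ip C (Pi.single i 1) m + b ≤ c i ∧ c i ≤ ip C (Pi.single i 1) m + E) →
              (∀ l : Fin r → ℤ, (∀ i, (B * (E + 1) : ℤ) ≤ ip C (Pi.single i 1) l ∧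
                  ip C (Pi.single i 1) l + B * (E + 1) ≤ c i) →
                ∑ j, ‖∑ᶠ l' ∈ Pub.weylOrbit C l, s j l'‖ ^ 2 * ‖Pub.whit N χ m (f j)‖ ^ 2 ≤
                  A * Pub.hvol C N m) ∧
              ∀ lam : Fin r → ℤ, (∀ i, ip C (Pi.single i 1) lam = 2) → ∀ (x : ℝ) (k : ℕ),
                0 ≤ x → 0 < k → (∀ i, (B * (E + 1) : ℤ) ≤ 2 * k ∧ 2 * k + B * (E + 1) ≤ c i) →
                ∑ᶠ j ∈ {j | ∃ l ∈ Pub.weylOrbit C lam, (Nat.card K : ℝ) ^ x ≤ ‖s j l‖},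
                    ‖Pub.whit N χ m (f j)‖ ^ 2 ≤
                  A * (k : ℝ) ^ B * (Nat.card K : ℝ) ^ (-(2 * x * k)) * Pub.hvol C N m)) ∧
        ∀ P₀ : Polynomial K, Irreducible P₀ → P₀ ^ 4 ∣ N → ∀ e : AddChar K ℂ, e ≠ 1 →
          ∃ χ : Pub.G C K → ℂ, Pub.IsUChar N χ ∧ Pub.IsStd e P₀ N χ ∧
            Pub.IsCond χ (fun _ => (N.natDegree : ℤ) - P₀.natDegree - 2) ∧
            ((∀ g, Pub.IsCusp N g → g ∈ Submodule.span ℂ (Set.range f)) →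
              ∀ m : Fin r → ℤ, (∀ i, 0 ≤ ip C (Pi.single i 1) m ∧
                ip C (Pi.single i 1) m ≤ (N.natDegree : ℤ) - P₀.natDegree - 2) →
              Pub.hvol C N m ≤ (Nat.card K : ℝ) ^ (2 * P₀.natDegree * Pub.dimG C ^ 2) *
                ∑ j, ‖Pub.whit N χ m (f j)‖ ^ 2) :=
  main hCnx hEib hTur C hC

end Pool.Agent.WHC.H97
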