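import Pool.Agent.Helper2_TMP.Pub3

/-!
# Satake parameters and Whittaker coefficients: definitions
-/

open scoped BigOperators

namespace Pool.Agent.DEN.Pub

open Pool.Agent.DEN

section
variable {r : ℕ} (C : Matrix (Fin r) (Fin r) ℤ) (K : Type) [Field K]

/-- The maximal unipotent subgroup `U` of `G`: the group generated by the root elements of the
positive roots. -/
noncomputable def unip : Subgroup (G C K) :=
  Subgroup.closure {g | ∃ (β : Rt C) (a : FF K), (∀ i, 0 ≤ β.1 i) ∧ ∀ v, act g v = rootMap β a v}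

/-- The group `U ∩ Γ(N)`. -/
noncomputable def unipN (N : Polynomial K) : Subgroup (G C K) := unip C K ⊓ cong C K 1 N

variable {C K}

/-- `g` is the torus element `t^m`: it acts on the root vector `e_γ` by `t ^ (γ, m)`. -/
def IsTorus (m : Fin r → ℤ) (g : G C K) : Prop :=
  ∀ v : LieF C K, act g v = (v.1, fun γ => tt K ^ (ip C γ.1 m) * v.2 γ)

/-- The vertex `g K` of `X`. -/
noncomputable def vtx (g : G C K) : X C K := (QuotientGroup.mk g : G C K ⧸ maxK C K)

/-- The horocycle `U t^m K` in `X = G / K`. -/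
def horo (m : Fin r → ℤ) : Set (X C K) :=
  {y | ∃ u ∈ unip C K, ∃ g : G C K, IsTorus m g ∧ y = vtx (u * g)}

/-! ## The Satake parameter -/

/-- The Satake transform of the spherical Hecke function `κ`. -/
noncomputable def satake (κ : G C K → ℂ) (l : Fin r → ℤ) : ℂ :=
  (Nat.card K : ℂ) ^ (∑ i, l i) * ∑ᶠ y ∈ (horo l : Set (X C K)), κ (rep y)

/-- `s` is the Satake parameter of `f` at `∞`: it is a character of the lattice `ℤ^r`, that is a point
of the dual torus, and the eigenvalue of the spherical Hecke operator `T_κ` on `f` is the value at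
`s` of the Satake transform of `κ`. -/
structure IsSatake (f : X C K → ℂ) (s : (Fin r → ℤ) → ℂ) : Prop where
  zero : s 0 = 1
  add : ∀ l m, s (l + m) = s l * s m
  eigen : ∀ (κ : G C K → ℂ) (R : ℕ), HeckeInf κ R → EigenInf κ (∑ᶠ l, satake κ l * s l) f

/-- `f_1, ..., f_n` are orthonormal cusp forms of level `N`, and `s_j` is the Satake parameter of `f_j`
at `∞`. -/
structure IsEigenfamily (N : Polynomial K) {n : ℕ} (f : Fin n → X C K → ℂ)
    (s : Fin n → (Fin r → ℤ) → ℂ) : Prop where
  cusp : ∀ j, IsCusp N (f j)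
  ortho : ∀ i j, petersson N (f i) (f j) = if i = j then 1 else 0
  satake : ∀ j, IsSatake (f j) (s j)

variable (C) in
/-- The orbit of `l` under the Weyl group. -/
def weylOrbit (l : Fin r → ℤ) : Set (Fin r → ℤ) :=
  {m | Relation.ReflTransGen (fun a b => ∃ i, b = a - ip C (Pi.single i 1) a • Pi.single i 1) l m}

/-! ## Whittaker coefficients -/

/-- `χ` is a unitary character of `U`, trivial on `U ∩ Γ(N)`. -/
structure IsUChar (N : Polynomial K) (χ : G C K → ℂ) : Prop where
  mul : ∀ u ∈ unip C K, ∀ v ∈ unip C K, χ (u * v) = χ u * χ v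
  norm_one : ∀ u ∈ unip C K, ‖χ u‖ = 1
  triv : ∀ u ∈ unipN C K N, χ u = 1

/-- `u` is the root element of the simple root `α_i` with coordinate `a`. -/
def IsSimpleRoot (i : Fin r) (a : FF K) (u : G C K) : Prop :=
  ∀ β : Rt C, β.1 = Pi.single i 1 → ∀ v, act u v = rootMap β a v

/-- The conductor of the character `χ` of `U` is `c`: `χ` is trivial on the root elements of `α_i`
with coordinate of degree at most `c i`, and not on those of degree at most `c i + 1`. -/
def IsCond (χ : G C K → ℂ) (c : Fin r → ℤ) : Prop :=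
  ∀ i, (∀ a ∈ Bd K (c i), ∀ u, IsSimpleRoot i a u → χ u = 1) ∧
    ∃ a ∈ Bd K (c i + 1), ∃ u, IsSimpleRoot i a u ∧ χ u ≠ 1

/-- `χ` is the character `u ↦ e (res (P ∑ u_i / N))` of `U`, where the `u_i` are the coordinates of `u`
at the simple roots. -/
def IsStd (e : AddChar K ℂ) (P N : Polynomial K) (χ : G C K → ℂ) : Prop :=
  ∀ (i : Fin r) (a : FF K) (u : G C K), IsSimpleRoot i a u →
    χ u = e (HahnSeries.coeff (polyL K P * a / polyL K N) 1)

open Classical in
/-- The function `u t^m K ↦ χ(u)` on the horocycle of `m`, extended by `0`. -/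
noncomputable def wfun (χ : G C K → ℂ) (m : Fin r → ℤ) (x : X C K) : ℂ :=
  if h : ∃ u ∈ unip C K, ∃ g : G C K, IsTorus m g ∧ x = vtx (u * g) then χ h.choose else 0

/-- The Whittaker coefficient of `f` at `t^m`: the integral of `conj χ(u) f(u t^m K)` over `U` modulo
`U ∩ Γ(N)`, that is the sum of `conj χ f` over the orbits of `U ∩ Γ(N)` on the horocycle of `m`, weighted
by the inverse of the order of the stabilizer. -/
noncomputable def whit (N : Polynomial K) (χ : G C K → ℂ) (m : Fin r → ℤ) (f : X C K → ℂ) : ℂ :=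
  ∑ᶠ o : MulAction.orbitRel.Quotient (unipN C K N) (X C K),
    (starRingEnd ℂ) (wfun χ m o.out) * f o.out / Nat.card (MulAction.stabilizer (unipN C K N) o.out)

variable (C) in
open Classical in
/-- The volume of `U` modulo `U ∩ Γ(N)`, for the same measure: the number of the orbits of `U ∩ Γ(N)`
on the horocycle of `m`, weighted by the inverse of the order of the stabilizer. -/
noncomputable def hvol (N : Polynomial K) (m : Fin r → ℤ) : ℝ :=
  ∑ᶠ o : MulAction.orbitRel.Quotient (unipN C K N) (X C K),
    (if o.out ∈ (horo m : Set (X C K)) then 1 else 0) /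
      Nat.card (MulAction.stabilizer (unipN C K N) o.out)

end

end Pool.Agent.DEN.Pub
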