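import Pool.Agent.Helper97_WHT.MEA
import Pool.Agent.Helper29_TMP.Ext

/-!
# Squad WHC (MP_eadad4_nt): the Casselman-Shalika relation and the density theorem in harmonic weights

Notation as in `Pool.Agent.WHT`: `U = Ug C K`, `t^m o = tp hC K m`, `Hor hC K m = U t^m o`, `o = oo C K`,
`χ` a character of `U` (`IsChi N χ`), `wf χ m` the function `u t^m o ↦ χ(u)`, `wh m f` the Whittaker
coefficient, `q = Nat.card K`, `hv m = ∑ i, m i` (`= (ρ, m)`), `sat hC k l = q^(hv l) hsum k l` the Satake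
transform.  TMP library: `hSmu, hFla, hSur, hPln, hWin, hKer, hKhk, hCat, hHor, hCls, hCoo, hRad, ...` in
`Pool.Agent.TMP` (file `Pool.Agent.Helper2_TMP.Asm`).

`c i` is the conductor of `χ` at `α_i`: `χ` is trivial on `x_i(Bd (c i))` and not on `x_i(Bd (c i + 1))`.  The
Whittaker coefficient at `m` vanishes unless `(α_i, m) ≤ c i` for all `i` (`GoodU`).  If `(α_i, M) = c i` for
all `i`, then with `m = M - l`, `l` dominant, the Hecke operators act on the normalized coefficients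
`q^(hv m) wh m f` as on the Weyl characters `χ_l` (Casselman-Shalika).
-/

set_option autoImplicit false

open scoped BigOperators

namespace Pool.Agent.WHC

open Pool.Agent.DEN Pool.Agent.TMP Pool.Agent.WHT

/-! ## Definitions: the group -/

section
variable {r : ℕ} {C : Matrix (Fin r) (Fin r) ℤ} {K : Type} [Field K]

/-- `χ` is trivial on the stabilizer of `t^m o` in `U` (`Good hC χ m` is `IsDom C m ∧ GoodU hC χ m`). -/
def GoodU (hC : SimplyLaced C) (χ : grp C K → ℂ) (m : Fin r → ℤ) : Prop :=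
  ∀ u ∈ Ug C K, u • tp hC K m = tp hC K m → χ u = 1

/-- The conductor of `χ` is `c`. -/
def Cond (hC : SimplyLaced C) (χ : grp C K → ℂ) (c : Fin r → ℤ) : Prop :=
  ∀ i, (∀ a ∈ Bd K (c i), χ (xi hC i a) = 1) ∧ ∃ a ∈ Bd K (c i + 1), χ (xi hC i a) ≠ 1

/-- The sum of `k(t^m o, y) χ(y)` over the horocycle of `m'`. -/
noncomputable def wa (hC : SimplyLaced C) (χ : grp C K → ℂ) (k : XX C K → XX C K → ℂ)
    (m m' : Fin r → ℤ) : ℂ := ∑ᶠ y, k (tp hC K m) y * wf hC χ m' y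

open Classical in
/-- The matrix of the Hecke operator with kernel `k` on the normalized Whittaker coefficients. -/
noncomputable def bt (hC : SimplyLaced C) (χ : grp C K → ℂ) (k : XX C K → XX C K → ℂ)
    (m m' : Fin r → ℤ) : ℂ :=
  if GoodU hC χ m' then (Nat.card K : ℂ) ^ (hv m - hv m') * (starRingEnd ℂ) (wa hC χ (kst k) m' m)
  else 0

open Classical in
/-- The normalized Whittaker coefficient. -/
noncomputable def wv (hC : SimplyLaced C) (N : Polynomial K) (χ : grp C K → ℂ) (m : Fin r → ℤ)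
    (f : XX C K → ℂ) : ℂ :=
  if GoodU hC χ m then (Nat.card K : ℂ) ^ hv m * wh hC N χ m f else 0

/-- The absolute value of a kernel. -/
noncomputable def kab (k : XX C K → XX C K → ℂ) : XX C K → XX C K → ℂ := fun x y => (‖k x y‖ : ℂ)

open Classical in
/-- The Satake transform as an element of the group algebra. -/
noncomputable def sA (hC : SimplyLaced C) (k : XX C K → XX C K → ℂ) : CQ r :=
  if h : {l | sat hC k l ≠ 0}.Finite then AddMonoidAlgebra.ofCoeff (Finsupp.ofSupportFinite (sat hC k) h)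
  else 0

end

/-! ## Definitions: the Weyl group and the group algebra -/

section
variable {r : ℕ} {C : Matrix (Fin r) (Fin r) ℤ}

/-- The automorphisms of the root lattice. -/
abbrev LA (r : ℕ) : Type := (Fin r → ℤ) ≃ₗ[ℤ] (Fin r → ℤ)

/-- The simple reflection `s_i`. -/
def sE (hC : SimplyLaced C) (i : Fin r) : LA r := (srefE hC i).toIntLinearEquiv

/-- The Weyl group, acting on the root lattice. -/
def Wg (hC : SimplyLaced C) : Subgroup (LA r) :=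
  Subgroup.closure (Set.range (sE hC))

variable (C) in
/-- `2 ρ`, the sum of the positive roots. -/
noncomputable def tr : Fin r → ℤ := ∑ᶠ β : {β : Rt C // β.Pos}, β.1.1

variable (C) in
/-- `δ(w) = ρ - w ρ`. -/
noncomputable def dl (w : LA r) : Fin r → ℤ := fun i => (tr C i - w (tr C) i) / 2

/-- The sign of `w`. -/
noncomputable def sg (w : LA r) : ℤ := LinearMap.det (w : (Fin r → ℤ) →ₗ[ℤ] (Fin r → ℤ))

/-- The action of `w` on the group algebra. -/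
noncomputable def wA (w : LA r) : CQ r ≃ₐ[ℂ] CQ r :=
  AddMonoidAlgebra.domCongr ℂ ℂ w.toAddEquiv

/-- `e^μ ↦ e^(-μ)`. -/
noncomputable def ng (r : ℕ) : CQ r ≃ₐ[ℂ] CQ r :=
  AddMonoidAlgebra.domCongr ℂ ℂ (AddEquiv.neg (Fin r → ℤ))

/-- The element `e^l` of the group algebra. -/
noncomputable def ex (l : Fin r → ℤ) : CQ r := AddMonoidAlgebra.single l 1

variable (C) in
/-- The extension of `y` across the wall `i`: it is antisymmetric under
`l ↦ s_i(l + ρ) - ρ = l - ((α_i, l) + 1) α_i`. -/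
def hat {Y : Type*} [Zero Y] [Neg Y] (i : Fin r) (y : (Fin r → ℤ) → Y) (l : Fin r → ℤ) : Y :=
  if 0 ≤ ip C (al i) l then y l
  else if ip C (al i) l = -1 then 0 else -y (l - (ip C (al i) l + 1) • al i)

variable (C) in
/-- The Hecke relations for `y`, in the dominant chamber, far from all the walls but one. -/
def Wal (R : CQ r → ℤ) (y : (Fin r → ℤ) → CQ r) : Prop :=
  ∀ T ∈ invAlg C, ∀ (i : Fin r) (l : Fin r → ℤ), 0 ≤ ip C (al i) l →
    (∀ j, j ≠ i → R T ≤ ip C (al j) l) →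
    T * y l = ∑ μ ∈ T.coeff.support, T.coeff μ • hat C i y (l + μ)

/-- A bound for the radius of a kernel with Satake transform `T`. -/
def rT (T : CQ r) (C : Matrix (Fin r) (Fin r) ℤ) : ℕ :=
  ∑ μ ∈ T.coeff.support, 2 * (ip C μ μ).toNat + 1

end

/-! ## Rows: the Weyl group and the group algebra -/

/-- WEY: the Weyl group (edit of `Pool.Agent.Helper29_TMP.Ext`: WA_dom, WA_finite, eq_of_al, WA_inv, mem_of_WA).
Everything is proved by `Subgroup.closure_induction`, or from it.  `ip (al i) (tr C) = 2` is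
`(H22.hRD r C hC).2.2 i` (RootDescStmt) and `finsum`; hence `s_i (tr) = tr - 2 α_i`, so `w tr` and `tr` are congruent
modulo 2 for all `w` and `2 δ(w) = tr - w tr`; the cocycle relation follows.  `det s_i = -1`:
`s_i = 1 - (column α_i) (row (α_i, ·))`, `Matrix.det_one_sub_mul_comm` or the determinant of a reflection.
Last clause: `W` is finite and faithful; `μ₀ = ∑ t^i α_i` for `t` large (or a vector space over `ℚ` is not a finite
union of proper subspaces). -/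
def WeyStmt : Prop :=
  ∀ (r : ℕ) (C : Matrix (Fin r) (Fin r) ℤ) (hC : SimplyLaced C),
    Finite (Wg hC) ∧
    (∀ i, ip C (al i) (tr C) = 2) ∧
    (∀ w ∈ Wg hC, (∀ x y, ip C (w x) (w y) = ip C x y) ∧ (2 : ℤ) • dl C w = tr C - w (tr C) ∧
      (sg w = 1 ∨ sg w = -1)) ∧
    (∀ v ∈ Wg hC, ∀ w ∈ Wg hC, dl C (v * w) = dl C v + v (dl C w) ∧ sg (v * w) = sg v * sg w) ∧
    (∀ i, sE hC i ∈ Wg hC ∧ dl C (sE hC i) = al i ∧ sg (sE hC i) = -1) ∧
    (∀ T : CQ r, T ∈ invAlg C ↔ ∀ w ∈ Wg hC, wA w T = T) ∧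
    (∀ l m : Fin r → ℤ, WR C l m ↔ ∃ w ∈ Wg hC, m = w l) ∧
    (∃ μ₀ : Fin r → ℤ, ∀ w ∈ Wg hC, w μ₀ = μ₀ → w = 1)

/-- ABS: linear algebra over the group algebra `A = CQ r` (a domain), from WEY.  Let `Y` be a torsion free
`A`-module with commuting `A`-linear automorphisms `S μ`, `S (μ + ν) = S μ ∘ S ν`, and `y` in `Y` with
`T • y = ∑ T_μ S_μ y` for all the invariant `T`.  Let `μ₀` be as in WEY, `Q_w(X) = ∏_{v ≠ w} (X - e^{v μ₀})` in
`A[X]`, and `u_w = Q_w(S_{μ₀}) y`.  Then (a) `S_μ u_w = e^{w μ} u_w` for all `μ`; (b) `dsc • y = ∑_w η_w u_w`, where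
`δ_w = Q_w(e^{w μ₀}) ≠ 0`, `η_w = ∏_{v ≠ w} δ_v`, `dsc = ∏_w δ_w`.
PROOF.  `Op p = ∑ p_μ S_μ` is a ring homomorphism `A → End_A Y` (`AddMonoidAlgebra.lift`), `Op T y = T • y` for
invariant `T`, and also `Op T u = T • u` for every `u = F(S_{μ₀}) y`, `F` in `A[X]` (commutation).
`P(X) = ∏_w (X - e^{w μ₀}) = ∑ T_k X^k` has invariant coefficients, so `P(S_{μ₀}) y = ∑ T_k S_{μ₀}^k y =
∑ S_{μ₀}^k Op(T_k) y = Op(P(e^{μ₀})) y = 0`.  Hence `(S_{μ₀} - e^{w μ₀}) u_w = 0`, and `F(S_{μ₀}) u_w = F(e^{w μ₀}) u_w`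
for `F` in `A[X]`.
(a) For `b = e^μ` let `F(X) = ∑_v v(b) η_v Q_v(X)`: its coefficients are invariant, `F(e^{v μ₀}) = v(b) dsc`.
So `b dsc = F(e^{μ₀})` in `A` and `Op(b dsc) u_w = ∑_k Op(F_k) S_{μ₀}^k u_w = ∑_k S_{μ₀}^k (F_k • u_w) = F(S_{μ₀}) u_w =
w(b) dsc • u_w`, while `Op(b dsc) u_w = Op(b) Op(dsc) u_w = dsc • S_μ u_w` (`dsc` is invariant); cancel `dsc`.
(b) `dsc = ∑_w η_w Q_w(X)` in `A[X]` (Lagrange: degree less than `|W|`, equal at the `|W|` distinct points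
`e^{v μ₀}`); evaluate at `S_{μ₀}` and apply to `y`. -/
def AbsStmt : Prop :=
  ∀ (r : ℕ) (C : Matrix (Fin r) (Fin r) ℤ) (hC : SimplyLaced C),
    ∃ (n : ℕ) (w : Fin n → LA r) (Q : Fin n → Polynomial (CQ r)) (η : Fin n → CQ r)
      (dsc : CQ r) (μ₀ : Fin r → ℤ), Function.Injective w ∧
      Set.range w = (Wg hC : Set (LA r)) ∧ dsc ≠ 0 ∧
      (∀ a b c, w c = w a * w b →
        Q c = (Q b).map ((wA (w a)).toRingEquiv.toRingHom) ∧ η c = wA (w a) (η b)) ∧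
      (∀ a b, a ≠ b → (Q a).eval (ex (w b μ₀)) = 0) ∧
      (∀ a, (Q a).eval (ex (w a μ₀)) ≠ 0) ∧ (∀ a, wA (w a) dsc = dsc) ∧ (∀ a, η a ≠ 0) ∧
      ∀ (Y : Type) [AddCommGroup Y] [Module (CQ r) Y],
        (∀ (a : CQ r) (v : Y), a ≠ 0 → a • v = 0 → v = 0) →
        ∀ S : (Fin r → ℤ) → Module.End (CQ r) Y, (S 0 = 1) → (∀ μ ν, S (μ + ν) = S μ * S ν) →
        ∀ y : Y, (∀ T ∈ invAlg C, T • y =
          ∑ μ ∈ T.coeff.support, (algebraMap ℂ (CQ r) (T.coeff μ)) • S μ y) →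
        (∀ a μ, S μ (Polynomial.aeval (S μ₀) (Q a) y) =
          ex (w a μ) • Polynomial.aeval (S μ₀) (Q a) y) ∧
        dsc • y = ∑ a, η a • Polynomial.aeval (S μ₀) (Q a) y

/-- GRM: solutions of the Hecke relations (from WEY, ABS).  There are `dsc ≠ 0` and, for every `R`, a depth
`R₀` such that for every `y` with invariant values satisfying `Wal R` there is `c` in `A = CQ r` with
`w(c) = sg(w) e^{-δ(w)} c` and `dsc y_l = ∑_w w(c e^l)` for all `l` of depth at least `R₀`.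
PROOF.  To have `R₀` independent of `y`, argue with all `y` at once: `Z = 𝔛 → A`, `𝔛` the set of the `y`.  Fix a
wall `i`.  Let `Ω_R = {l : (β, l) ≥ R for all positive roots β ≠ α_i}`; `l ∈ Ω_R` iff `s_i • l := l - ((α_i, l) + 1) α_i`
is, up to a bounded change of `R` (`s_i` permutes the positive roots `≠ α_i`: RootDescStmt (2)).  Let `ŷ = hat C i y :
Λ → Z`.  Then `ŷ(s_i • l) = -ŷ(l)` for all `l`, and `T ŷ(l) = ∑_μ T_μ ŷ(l + μ)` for all `l ∈ Ω_R'` (by `Wal` if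
`(α_i, l) ≥ 0`, note `(α_j, l) ≥ R'` for `j ≠ i`; by antisymmetry of both sides, as `s_i • (l + μ) = s_i • l + s_i μ` and
`T` is invariant, otherwise; both sides are `0` if `(α_i, l) = -1`).  Let `N` be the space of the functions
`Λ → Z` which vanish on some `Ω_R`, `Y = (Λ → Z) / N`, torsion free, with the shifts `(S_μ y)(l) = y(l + μ)`.  By ABS
the functions `u_w(l) = ∑_k (Q_w)_k ŷ(l + k μ₀)` satisfy `u_w(l + μ) = e^{w μ} u_w(l)` on some `Ω_R`, for the finitely many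
`μ ∈ {± α_j, tr}`; hence `e^{-w l} u_w(l)` is constant on `Ω_R` (for `l, l' ∈ Ω_R` compare `l + k tr` and `l' + k tr`, `k` large,
by steps `± α_j` which remain in `Ω_R`): `u_w(l) = e^{w l} g_w` on `Ω_R`, and `g_w = w(g_1)` as the values of `y` are
invariant.  So `dsc ŷ(l) = ∑_w w(c e^l)` on `Ω_R`, `c = η_1 g_1`; `c` is the same for all `i` (the functions agree deep in
the chamber).  By antisymmetry `∑_w w((c + s_i(c) e^{α_i}) e^l) = 0` on `Ω_R`; apply `Q_1(S_{μ₀})`: only `w = 1` survives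
(`Q_1(e^{w μ₀}) = 0` for `w ≠ 1`), so `c = -s_i(c) e^{α_i}`, for all `i`; then `w(c) = sg(w) e^{-δ(w)} c` by induction.
For `r = 0` there is no wall: take `c = dsc y_0` (`Λ = {0}`). -/
def GrmStmt : Prop :=
  ∀ (r : ℕ) (C : Matrix (Fin r) (Fin r) ℤ) (hC : SimplyLaced C),
    ∃ dsc : CQ r, dsc ≠ 0 ∧ ∀ R : CQ r → ℤ, ∃ R₀ : ℤ, ∀ y : (Fin r → ℤ) → CQ r,
      (∀ l, y l ∈ invAlg C) → Wal C R y → ∃ c : CQ r,
        (∀ w ∈ Wg hC, wA w c = (sg w : CQ r) * ex (-dl C w) * c) ∧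
        ∀ l : Fin r → ℤ, (∀ i, R₀ ≤ ip C (al i) l) →
          dsc * y l = ∑ᶠ w : Wg hC, wA w.1 (c * ex l)

/-- ALG: the Casselman-Shalika relation (from WEY, GRM).
PROOF.  `dsc y_l = c ∑_v sg(v) e^{v l - δ(v)}`.  Then `dsc (∑_v e^{v l}) y_{l₀} = c ∑_v e^{v l} ∑_w sg(w) e^{w l₀ - δ(w)}` and
`dsc ∑_w sg(w) y_{l + w l₀ - δ(w)} = c ∑_v ∑_w sg(v w) e^{v l + v w l₀ - δ(v w)}`, equal (`δ(v w) = δ(v) + v δ(w)`); cancel `dsc`. -/
def AlgStmt : Prop :=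
  ∀ (r : ℕ) (C : Matrix (Fin r) (Fin r) ℤ) (hC : SimplyLaced C) (R : CQ r → ℤ),
    ∃ R₀ : ℤ, ∀ y : (Fin r → ℤ) → CQ r, (∀ l, y l ∈ invAlg C) → Wal C R y →
      ∀ l₀ l : Fin r → ℤ, (∀ i, R₀ ≤ ip C (al i) l₀) →
        (∀ w ∈ Wg hC, ∀ i, R₀ ≤ ip C (al i) (l + w l₀ - dl C w)) →
        (∑ᶠ w : Wg hC, ex (w.1 l)) * y l₀ =
          ∑ᶠ w : Wg hC, (sg w.1 : CQ r) * y (l + w.1 l₀ - dl C w.1)

/-! ## Rows: the group -/

/-- GDC: good points in terms of the conductor (from GENX).  If `u t^m o = t^m o` then `sc i u ∈ Bd (α_i, m)`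
(GENX (4)), and `χ u = ∏ χ (x_i (sc i u))` (GENX (3)); conversely `x_i(a)` fixes `t^m o` for `a ∈ Bd (α_i, m)` (`xg_tp`). -/
def GdcStmt : Prop :=
  ∀ (r : ℕ) (C : Matrix (Fin r) (Fin r) ℤ) (hC : SimplyLaced C) (K : Type) [Field K] [Finite K]
    (N : Polynomial K) (χ : grp C K → ℂ), IsChi N χ → ∀ c : Fin r → ℤ, Cond hC χ c →
    (∀ m : Fin r → ℤ, GoodU hC χ m ↔ ∀ i, ip C (al i) m ≤ c i) ∧
    (∀ m : Fin r → ℤ, WHT.Good hC χ m ↔ IsDom C m ∧ ∀ i, ip C (al i) m ≤ c i)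

/-- CNX: the conductor of the explicit characters (from CHX (1), (2), (3)): `c_i = deg N - deg P - 2`.  For the second
half of `Cond` take `a = b t⁻¹ N / P` with `b ∈ K`, `e(b) ≠ 1`. -/
def CnxStmt : Prop :=
  ∀ (r : ℕ) (C : Matrix (Fin r) (Fin r) ℤ) (hC : SimplyLaced C) (K : Type) [Field K] [Finite K]
    (e : AddChar K ℂ), e ≠ 1 → ∀ (N P : Polynomial K), N ≠ 0 → P ≠ 0 →
    Cond hC (chi hC e N (fun _ => P)) (fun _ => (N.natDegree : ℤ) - P.natDegree - 2)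

/-- VOL: the volumes of the horocycles.
PROOF.  Mass transport (`hMtp`, `Δ = U0 C N`) for `Φ(x, y) = 1_{Hor m}(x) k(x, y) 1_{Hor m'}(y)`, `k` a kernel with
nonnegative values: `vol m * hsum k (m' - m) = vol m' * hsum k* (m - m')` (`hSmu`, last clause), and
`hsum k* (m - m') = q^(-2 hv (m - m')) conj (hsum k (m' - m))` (`hFla` (1)); take for `k` the indicator function of the
`G`-orbit of `(o, t^{m' - m} o)`, so that `hsum k (m' - m) > 0`.  `U0 \ Hor m` is finite and not empty. -/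
def VolStmt : Prop :=
  ∀ (r : ℕ) (C : Matrix (Fin r) (Fin r) ℤ) (hC : SimplyLaced C) (K : Type) [Field K] [Finite K]
    (N : Polynomial K), N ≠ 0 → ∀ m m' : Fin r → ℤ,
    0 < vol hC N m ∧
    vol hC N m * (Nat.card K : ℝ) ^ (2 * hv m) = vol hC N m' * (Nat.card K : ℝ) ^ (2 * hv m')

/-- REL: the Hecke relation for the Whittaker coefficients (adjointness for `U0`: `H6.kop_adj` needs finite
support modulo the group on both sides, so use `hMtp` (mass transport) for `Δ = U0 C N`,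
`Φ(x, y) = conj (wf m x) k(x, y) f(y)`; `wf m` has finite support modulo `U0` by SIE (1), (2), or see the proof of UNF).
PROOF.  `lam wh_m(f) = pet(wf_m, T_k f) = pet(T_{k*} wf_m, f)`.  For `u ∈ U`: `(T_{k*} wf_m)(u t^{m'} o) = χ(u)
wa(k*)(m', m)`, which is `0` if `m'` is not good (take `u` in the stabilizer of `t^{m'} o` with `χ(u) ≠ 1`).  So
`T_{k*} wf_m = ∑_{m' good} wa(k*)(m', m) wf_{m'}` (finite sum) and
`lam wh_m(f) = ∑_{m' good} conj(wa(k*)(m', m)) wh_{m'}(f)`; multiply by `q^(hv m)`. -/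
def RelStmt : Prop :=
  ∀ (r : ℕ) (C : Matrix (Fin r) (Fin r) ℤ) (hC : SimplyLaced C) (K : Type) [Field K] [Finite K]
    (N : Polynomial K), N ≠ 0 → ∀ (χ : grp C K → ℂ), IsChi N χ →
    ∀ k : XX C K → XX C K → ℂ, IsKer k → ∀ (f : XX C K → ℂ) (lam : ℂ),
    (∀ γ ∈ U0 C N, ∀ x, f (γ • x) = f x) → (∀ x, ∑ᶠ y, k x y * f y = lam * f x) →
    ∀ m : Fin r → ℤ, GoodU hC χ m →
    {m' | bt hC χ k m m' ≠ 0}.Finite ∧
    lam * wv hC N χ m f = ∑ᶠ m', bt hC χ k m m' * wv hC N χ m' f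

/-- CMP: the matrices multiply (`kst (kmul k k') = kmul (kst k') (kst k)`, and
`T_{k*} wf_m = ∑_{m' good} wa(k*)(m', m) wf_{m'}` as in REL). -/
def CmpStmt : Prop :=
  ∀ (r : ℕ) (C : Matrix (Fin r) (Fin r) ℤ) (hC : SimplyLaced C) (K : Type) [Field K] [Finite K]
    (N : Polynomial K) (χ : grp C K → ℂ), IsChi N χ →
    ∀ k k' : XX C K → XX C K → ℂ, IsKer k → IsKer k' → ∀ m : Fin r → ℤ, GoodU hC χ m →
    {n | bt hC χ k m n ≠ 0}.Finite ∧ ∀ m' : Fin r → ℤ,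
    bt hC χ (kmul k k') m m' = ∑ᶠ n, bt hC χ k m n * bt hC χ k' n m' ∧
    bt hC χ (k + k') m m' = bt hC χ k m m' + bt hC χ k' m m' ∧
    (∀ a : ℂ, bt hC χ (a • k) m m' = a * bt hC χ k m m') ∧
    bt hC χ (kone : XX C K → XX C K → ℂ) m m' = (if m = m' then 1 else 0)

/-- BND: size and support of the matrices.  `|wa(k*)(m', m)| ≤ ∑_{y ∈ Hor m} |k*|(t^{m'} o, y) = hsum |k*| (m - m')`
(`hSmu`, last clause), and `sat |k|* (m - m') = conj (sat |k| (m' - m))` (`hFla`).  If `Rad k ρ` and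
`k(t^{m'} o, u t^m o) ≠ 0`, `u ∈ U`, then `g = t^{-m'} u t^m` satisfies `bnd ρ g`, `bnd ρ g⁻¹`, and the coordinate of
`g e_β` on `e_β` is `t^((β, m - m'))` (`H24.Ug_EE`, `ip_ge` in `Helper24_WHT/HEC.lean`). -/
def BndStmt : Prop :=
  ∀ (r : ℕ) (C : Matrix (Fin r) (Fin r) ℤ) (hC : SimplyLaced C) (K : Type) [Field K] [Finite K]
    (χ : grp C K → ℂ), (∀ u ∈ Ug C K, ‖χ u‖ = 1) → ∀ k : XX C K → XX C K → ℂ, IsKer k →
    IsKer (kab k) ∧
    (∀ m m' : Fin r → ℤ, ‖bt hC χ k m m'‖ ≤ ‖sat hC (kab k) (m' - m)‖) ∧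
    ∀ ρ : ℕ, Rad k ρ → (∀ l : Fin r → ℤ, sat hC k l ≠ 0 → ∀ β : Rt C, |ip C β.1 l| ≤ ρ) ∧
      ∀ m m' : Fin r → ℤ, bt hC χ k m m' ≠ 0 → ∀ β : Rt C, |ip C β.1 (m' - m)| ≤ ρ

/-- WAL: the matrices near a wall (from GENX; edit of `Pool.Agent.Helper75_TMP.Win`, `hsum_formula`).
PROOF.  It suffices to show, for a kernel `k` (apply it to `k*`), `n = (α_i, m)`:
`wa k m' m = hsum k (m - m') - q^(c_i + 1 - n) hsum k (m - m' + (c_i + 1 - n) α_i)`; then use `hFla` and the invariance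
`hWin` (`sat k (m' - (m + (c_i + 1 - n) α_i)) = sat k (m' + (c_i + 1 - (α_i, m')) α_i - m)`: apply `s_i`).  Translate by
`t^{-m'}`: `wa k m' m = ∑_{y ∈ Hor l} k(o, y) χ'(y)`, `l = m - m'`, `χ'(u) = χ(t^{m'} u t^{-m'})`, of conductor
`c' = c_i - (α_i, m') ≥ 0` at `i`.  If `k(o, u t^l o) ≠ 0` then `sc j u ∈ Bd (ρ + (α_j, l))` (HEC: `sc_conj`, `sc_bnd`), so that for
`j ≠ i` the `j`-th factor of `χ'(u)` is `1`: `χ'(v x_i(b)) = χ'(x_i(b))` on the support, `v ∈ Un C K i`.  With the classes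
`Pc hC i l b = U_i x_i(b) t^l o` of WIN (`psi_small`, `psi_large`, `phi`), `n' = (α_i, l) ≤ c'`, the sum is
`q^(max(0,n') - n') φ(l) + ∑_{max(0,n') < p ≤ c'} (q-1) q^(p-1-n') φ(l - p α_i) - q^(c' - n') φ(l - (c'+1) α_i)`, since the sum of
`χ' ∘ x_i` over `Bd p / Bd n'` is `q^(p - n')` for `p ≤ c'` and `0` for `p > c'`.  Compare with `hsum_formula` for `l` and for
`l'' = l + (c' + 1 - n') α_i` (`(α_i, l'') = 2 c' + 2 - n' > 0`, `φ(l'') = φ(s_i l'') = φ(l - (c'+1) α_i)`):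
`hsum k l - (sum) = q^(c'+1-n') hsum k l''`. -/
def WalStmt : Prop :=
  ∀ (r : ℕ) (C : Matrix (Fin r) (Fin r) ℤ) (hC : SimplyLaced C) (K : Type) [Field K] [Finite K]
    (N : Polynomial K) (χ : grp C K → ℂ), IsChi N χ → ∀ c : Fin r → ℤ, Cond hC χ c →
    ∀ (i : Fin r) (k : XX C K → XX C K → ℂ) (ρ : ℕ), IsKer k → Rad k ρ →
    ∀ m m' : Fin r → ℤ, (∀ j, ip C (al j) m ≤ c j) → (∀ j, ip C (al j) m' ≤ c j) →
    (∀ j, j ≠ i → ip C (al j) m + 2 * ρ ≤ c j) →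
    bt hC χ k m m' =
      sat hC k (m' - m) - sat hC k (m' + (c i + 1 - ip C (al i) m') • al i - m)

/-- NRM: for a dominant `m` with the norm of `l`, the horocycle of `m` meets `K t^l o` in the point `t^m o` only.
PROOF.  `H43.Cat.bound_co` (with `Mx hC K (tp hC K l) (ip C l l)`, from `hCat` (2)): if `k t^l o = u t^m o`,
`u ∈ UH (n+1)`, `(m, m) = (l, l)`, then the coordinates of height `n+1` of `u` are in `Bd (max 0 (β, m)) = Bd (β, m)` (`m` is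
dominant); such an `x_β(a)` fixes `t^m o` (`xg_tp`), so `u` can be replaced by `u x_β(-a)`; by induction on the height
`u t^m o = t^m o` (as in `kill_some`, `kill_h`, `kill_all` of `Helper43_TMP/Cat.lean`, multiplying on the right instead
of the left). -/
def NrmStmt : Prop :=
  ∀ (r : ℕ) (C : Matrix (Fin r) (Fin r) ℤ) (hC : SimplyLaced C) (K : Type) [Field K] [Finite K]
    (l m : Fin r → ℤ), ip C m m = ip C l l → IsDom C m → ∀ k ∈ maxK C K, ∀ u ∈ Ug C K,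
    k • tp hC K l = u • tp hC K m → u • tp hC K m = tp hC K m

/-- TRI: triangularity at the top (from NRM, GDC; `hCat`).
PROOF.  Let `k = kst k'`, `k'(x, y) = 1` if `(x, y)` is in the `G`-orbit of `(o, t^ν o)`, `0` otherwise.
`bt k M (M - ν') = q^(hv ν') conj (wa k' (M - ν') M)`, and `wa k' (M - ν') M` is the sum of `wf M` over the
`y = t^{M - ν'} y'`, `y' ∈ Hor ν'`, `y' ∈ K t^ν o`.  For `ν' = ν`: only `y' = t^ν o` (NRM), `y = t^M o`, so the value is `1`.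
In general `(ν', ν') ≤ (ν, ν)` by `hCat`, with equality only if `ν' = ν`: by NRM `u t^{ν'} o = t^{ν'} o` is in `K t^ν o`, so
`WR C ν ν'`, and two dominant vectors in the same orbit are equal (apply NRM and `hHor` (1) to `t^{ν'} o = k t^ν o` with the
roles exchanged, or `H43.Cat`).  Last clause (injectivity): `k' = ∑ (values) (indicators)` by `hCat` (1) (every point is in
`K t^l o` with `-l` dominant, or with `l` dominant: use `kst`); if `k' ≠ 0` let `ν` be dominant of maximal norm with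
`kst k' (o, t^ν o) ≠ 0`; then `bt k' M (M - ν) ≠ 0` by the same computation. -/
def TriStmt : Prop :=
  ∀ (r : ℕ) (C : Matrix (Fin r) (Fin r) ℤ) (hC : SimplyLaced C) (K : Type) [Field K] [Finite K]
    (N : Polynomial K) (χ : grp C K → ℂ), IsChi N χ → ∀ c : Fin r → ℤ, Cond hC χ c →
    ∀ M : Fin r → ℤ, (∀ i, ip C (al i) M = c i) →
    (∀ ν : Fin r → ℤ, IsDom C ν → ∃ k : XX C K → XX C K → ℂ, IsKer k ∧ bt hC χ k M (M - ν) ≠ 0 ∧
      ∀ ν' : Fin r → ℤ, bt hC χ k M (M - ν') ≠ 0 → ν' ≠ ν → ip C ν' ν' < ip C ν ν) ∧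
    ∀ k : XX C K → XX C K → ℂ, IsKer k → (∀ ν : Fin r → ℤ, bt hC χ k M (M - ν) = 0) → k = 0

/-- KAP: the Hecke operators `κ_l` (from CMP, TRI, GDC, WAL, BND, REL; `hSmu`, `hSur`, `hPln`, `hRad`).
PROOF.  By TRI, by induction on `(l, l)`, for every dominant `l` there is a kernel `k_l` with
`bt k_l M (M - l') = 1` if `l' = l` and `0` otherwise (finitely many dominant vectors of norm at most `(l, l)`; `bt` is `0` at
`M - l'` if `l'` is not dominant: GDC).  For kernels `k k' = k' k` (multiplicativity of `sat` and injectivity `hPln`).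
For `l` dominant and every kernel `k`: `k k_l = ∑_{l'} bt k (M - l) (M - l') k_{l'}`, because by CMP both sides have the same
row `M` (`bt (k_l k) M · = bt k (M - l) ·`) and TRI (2).  Put `y_l = ι(sA k_l)` for dominant `l` (`0` otherwise),
`ι = ng r : e^μ ↦ e^{-μ}`.  `Wal`: for `T` invariant let `k` be a kernel with `sat k μ = T(-μ)` (`hSur`) and `Rad k (rT T C)`
(`hRad`; as in `H97.det`).  Then `T = ι(sA k)` and `T y_l = ∑_{l'} bt k (M - l) (M - l') y_{l'}`, and by WAL (`m = M - l`,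
`m' = M - l'`, `(α_j, m) + 2 ρ ≤ c_j` is `2 ρ ≤ (α_j, l)`) the entry for dominant `l'` is `T(l' - l) - T(s_i • l' - l)`,
`s_i • l' = l' - ((α_i, l') + 1) α_i`; regroup: this is `∑_μ T(μ) hat C i y (l + μ)` (for `T(μ) ≠ 0`: `|(β, μ)| ≤ ρ` by BND, so
`(α_j, l + μ) ≥ ρ` for `j ≠ i`, and if `(α_i, l + μ) ≤ -2` then `s_i • (l + μ)` is dominant).
Last clause: REL at `m = M` for the kernel `k_l`. -/
def KapStmt : Prop :=
  ∀ (r : ℕ) (C : Matrix (Fin r) (Fin r) ℤ) (hC : SimplyLaced C) (K : Type) [Field K] [Finite K]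
    (N : Polynomial K), N ≠ 0 → ∀ (χ : grp C K → ℂ), IsChi N χ → ∀ c : Fin r → ℤ, Cond hC χ c →
    ∀ M : Fin r → ℤ, (∀ i, ip C (al i) M = c i) →
    ∃ y : (Fin r → ℤ) → CQ r, (∀ l, y l ∈ invAlg C) ∧ Wal C (fun T => 2 * (rT T C : ℤ)) y ∧
      ∀ (f : XX C K → ℂ) (ψ : CQ r →ₐ[ℂ] ℂ), (∀ γ ∈ U0 C N, ∀ x, f (γ • x) = f x) →
        (∀ k : XX C K → XX C K → ℂ, IsKer k → ∀ x, ∑ᶠ y, k x y * f y = ψ (sA hC k) * f x) →
        ∀ l : Fin r → ℤ, IsDom C l →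
          wv hC N χ (M - l) f = ψ (ng r (y l)) * wv hC N χ M f

/-- SPE: Satake parameters (from `hChi`, `H27.exists_chi`, `H29.exists_ext`, WEY; as in `H97.det`). -/
def SpeStmt : Prop :=
  ∀ (r : ℕ) (C : Matrix (Fin r) (Fin r) ℤ) (hC : SimplyLaced C) (K : Type) [Field K] [Finite K]
    (N : Polynomial K) (_ : N ≠ 0) (f : XX C K → ℂ), IsCusp N f → petersson N f f = 1 →
    DEN.TMP.EigAllInf f → ∃ ψ : CQ r →ₐ[ℂ] ℂ,
      (∀ k : XX C K → XX C K → ℂ, IsKer k → ∀ x, ∑ᶠ y, k x y * f y = ψ (sA hC k) * f x) ∧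
      ∀ T ∈ invAlg C, ∀ T' : CQ r, (∀ μ, T'.coeff μ = (starRingEnd ℂ) (T.coeff (-μ))) →
        ψ T' = (starRingEnd ℂ) (ψ T)

/-- CSF: the density theorem in harmonic weights (from KAP, ALG, WEY, GDC, VOL, BSL).
PROOF.  `B = max 0 R₀` with `R₀` of ALG for `R T = 2 * rT T C`.  Apply `ψ_j ∘ ι` to ALG and multiply by `wv M (f j)`:
`(∑_w ψ_j(e^{-w l})) wv (M - l₀) (f j) = ∑_w sg(w) wv (M - (l + w l₀ - δ(w))) (f j)` (KAP).  For each `w` the point
`m = M - (l + w l₀ - δ(w))` is `Good`, so `∑_j |wv m (f j)|² ≤ q^(2 hv m) vol m = V`, independent of `m` (BSL, VOL).  Minkowski or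
Cauchy-Schwarz: the sum over `j` of the square of the left side is at most `|W|² V`, `V = q^(2 hv (M - l₀)) vol (M - l₀)`. -/
def CsfStmt : Prop :=
  ∀ (r : ℕ) (C : Matrix (Fin r) (Fin r) ℤ) (hC : SimplyLaced C), ∃ B : ℤ, 0 ≤ B ∧
    ∀ (K : Type) [Field K] [Finite K] (N : Polynomial K), 0 < N.natDegree →
    ∀ (χ : grp C K → ℂ), IsChi N χ → ∀ c : Fin r → ℤ, Cond hC χ c →
    ∀ M : Fin r → ℤ, (∀ i, ip C (al i) M = c i) →
    ∀ (n : ℕ) (f : Fin n → XX C K → ℂ), ONC N f → ∀ ψ : Fin n → (CQ r →ₐ[ℂ] ℂ),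
    (∀ j, ∀ k : XX C K → XX C K → ℂ, IsKer k →
      ∀ x, ∑ᶠ y, k x y * f j y = ψ j (sA hC k) * f j x) →
    ∀ l₀ l : Fin r → ℤ, (∀ i, B ≤ ip C (al i) l₀ ∧ ip C (al i) l₀ ≤ c i) →
      (∀ w ∈ Wg hC, ∀ i, B ≤ ip C (al i) (l + w l₀ - dl C w) ∧
        ip C (al i) (l + w l₀ - dl C w) ≤ c i) →
      ∑ j, ‖∑ᶠ w : Wg hC, ψ j (ex (-(w.1 l)))‖ ^ 2 * ‖wh hC N χ (M - l₀) (f j)‖ ^ 2 ≤
        (Nat.card (Wg hC) : ℝ) ^ 2 * vol hC N (M - l₀)

/-- PAP: powers of a positive kernel (edit of `Helper2_WHT/PAR.lean`; `∑_l sat` is multiplicative, and at most the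
norm by `hFla` (2) with `s = 1`). -/
def PapStmt : Prop :=
  ∀ (r : ℕ) (C : Matrix (Fin r) (Fin r) ℤ) (hC : SimplyLaced C) (K : Type) [Field K] [Finite K]
    (k : XX C K → XX C K → ℂ) (τ : ℝ) (R : ℕ), IsKer k → 0 ≤ τ → KNorm k τ → Rad k R →
    (∀ x y, k x y = (‖k x y‖ : ℂ)) →
    ∀ s : ℕ, ∃ k' : XX C K → XX C K → ℂ, IsKer k' ∧ Rad k' (s * R) ∧
      (∀ x y, k' x y = (‖k' x y‖ : ℂ)) ∧ ∑ᶠ l, ‖sat hC k' l‖ ≤ τ ^ s ∧
      ∀ (f : XX C K → ℂ) (lam : ℂ), (∀ x, ∑ᶠ y, k x y * f y = lam * f x) →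
        ∀ x, ∑ᶠ y, k' x y * f y = lam ^ s * f x

/-- PWP: the power saving for positive operators (from REL, BND, BSL, VOL, PAP, `hKhk`).
PROOF.  Let `k` be the kernel of `κ`, `s = D / R`, `k' = k^s` (radius `s R ≤ D`).  `lam_j^s wv_m(f_j) = ∑_{m'} bt k' m m' wv_{m'}(f_j)`
(REL); if `bt k' m m' ≠ 0` then `GoodU m'` and `|(α_i, m' - m)| ≤ s R ≤ D` (BND), so `m'` is dominant and `Good`.  By Minkowski
(`∑_j |·|²`), `|bt k' m m'| ≤ sat k' (m' - m)` (BND, `kab k' = k'`), `∑_j |wv_{m'}(f_j)|² ≤ q^(2 hv m') vol m' = q^(2 hv m) vol m` (BSL,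
VOL): `∑_j |lam_j|^(2s) |wv_m(f_j)|² ≤ τ^(2s) q^(2 hv m) vol m`.  Hence `q^(2 σ R s) ∑_j |wh_m(f_j)|² ≤ vol m`, and `R s > D - R`. -/
def PwpStmt : Prop :=
  ∀ (r : ℕ) (C : Matrix (Fin r) (Fin r) ℤ) (hC : SimplyLaced C) (K : Type) [Field K] [Finite K]
    (N : Polynomial K), 0 < N.natDegree → ∀ (χ : grp C K → ℂ), IsChi N χ →
    ∀ (m : Fin r → ℤ) (D : ℕ), WHT.Good hC χ m → (∀ i, (D : ℤ) ≤ ip C (al i) m) →
    ∀ (n : ℕ) (f : Fin n → XX C K → ℂ), ONC N f →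
    ∀ (κ : grp C K → ℂ) (R : ℕ), HeckeInf κ R → 1 ≤ R → (∀ g, κ g = (‖κ g‖ : ℂ)) →
    ∀ (τ σ : ℝ), 0 < τ → 0 ≤ σ →
    NormLE (maxK C K) κ τ → ∀ lam : Fin n → ℂ, (∀ j, EigenInf κ (lam j) (f j)) →
    (∀ j, (Nat.card K : ℝ) ^ (σ * R) * τ ≤ ‖lam j‖) →
    ∑ j, ‖wh hC N χ m (f j)‖ ^ 2 ≤ (Nat.card K : ℝ) ^ (-(2 * σ * ((D : ℝ) - R))) * vol hC N m

end Pool.Agent.WHC
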